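import Mathlib

set_option autoImplicit false

/-! The second moment. -/

namespace Pool.Agent.J6H17.QP

open Finset

open Classical in
/-- a block of events with controlled first and second moments occurs with positive probability -/
theorem second_moment {ι : Type} [DecidableEq ι] (N : Finset ℕ) (a : ℕ → ℝ) (ha : ∀ n ∈ N, 0 ≤ a n)
    (B : Finset ι) (g : ℕ → ι → Prop) (p : ι → ℝ) (c C η Z : ℝ) (hc : 0 < c) (hC : 0 ≤ C)
    (hη : 0 ≤ η) (hZ : 0 < Z) (hp : ∀ i ∈ B, 0 ≤ p i) (hs : 1 ≤ ∑ i ∈ B, p i)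
    (hη1 : (B.card : ℝ) * η ≤ c / 2) (hη2 : (B.card : ℝ) ^ 2 * η ≤ 1)
    (h1 : ∀ i ∈ B, Z * (c * p i - η) ≤ ∑ n ∈ N.filter (fun n => g n i), a n)
    (h2 : ∀ i ∈ B, ∀ j ∈ B, i ≠ j →
      ∑ n ∈ N.filter (fun n => g n i ∧ g n j), a n ≤ Z * (C * p i * p j + η)) :
    Z * ((c ^ 2 / 4) / (c / 2 + C + 1)) ≤ ∑ n ∈ N.filter (fun n => ∃ i ∈ B, g n i), a n := by
  set s : ℝ := ∑ i ∈ B, p i with hsd
  set S : ℕ → ℝ := fun n => ∑ i ∈ B, if g n i then 1 else 0 with hS
  have hS0 : ∀ n, 0 ≤ S n := fun n => sum_nonneg fun i _ => by split_ifs <;> norm_num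
  set e1 : ℝ := ∑ n ∈ N, a n * S n with he1
  set e2 : ℝ := ∑ n ∈ N, a n * S n ^ 2 with he2
  set P : ℝ := ∑ n ∈ N.filter (fun n => ∃ i ∈ B, g n i), a n with hP
  have hP0 : 0 ≤ P := sum_nonneg fun n hn => ha n (mem_filter.1 hn).1
  have f1 : e1 = ∑ i ∈ B, ∑ n ∈ N.filter (fun n => g n i), a n := by
    rw [he1]
    simp only [hS, mul_sum]
    rw [sum_comm]
    refine sum_congr rfl fun i _ => ?_
    rw [sum_filter]
    refine sum_congr rfl fun n _ => ?_
    split_ifs <;> simp
  have g1 : Z * (c * s / 2) ≤ e1 := by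
    have g2 := sum_le_sum h1
    rw [← f1, ← mul_sum, sum_sub_distrib, ← mul_sum, sum_const, nsmul_eq_mul, ← hsd] at g2
    refine le_trans ?_ g2
    apply mul_le_mul_of_nonneg_left _ hZ.le
    nlinarith
  have g3 : e2 ≤ e1 + Z * ((C + 1) * s ^ 2) := by
    have f2 : e2 = ∑ i ∈ B, ∑ j ∈ B, ∑ n ∈ N.filter (fun n => g n i ∧ g n j), a n := by
      have e : ∀ n, a n * S n ^ 2 = ∑ i ∈ B, ∑ j ∈ B, (if g n i ∧ g n j then a n else 0) := by
        intro n
        rw [sq, hS]
        simp only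
        rw [sum_mul_sum, mul_sum]
        refine sum_congr rfl fun i _ => ?_
        rw [mul_sum]
        refine sum_congr rfl fun j _ => ?_
        by_cases hi : g n i <;> by_cases hj : g n j <;> simp [hi, hj]
      rw [he2, sum_congr rfl (fun n _ => e n), sum_comm]
      refine sum_congr rfl fun i _ => ?_
      rw [sum_comm]
      refine sum_congr rfl fun j _ => ?_
      rw [sum_filter]
    have f3 : ∀ i ∈ B, ∑ j ∈ B, ∑ n ∈ N.filter (fun n => g n i ∧ g n j), a n ≤
        ∑ n ∈ N.filter (fun n => g n i), a n + ∑ j ∈ B, Z * (C * p i * p j + η) := by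
      intro i hi
      have f4 : ∀ j ∈ B, ∑ n ∈ N.filter (fun n => g n i ∧ g n j), a n ≤
          (if j = i then ∑ n ∈ N.filter (fun n => g n i), a n else 0) +
            Z * (C * p i * p j + η) := by
        intro j hj
        by_cases hji : j = i
        · subst hji
          rw [if_pos rfl]
          have : N.filter (fun n => g n j ∧ g n j) = N.filter (fun n => g n j) := by
            apply filter_congr
            intro n _
            simp
          rw [this]
          have h3 : 0 ≤ Z * (C * p j * p j + η) := by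
            have := hp j hj
            positivity
          linarith
        · rw [if_neg hji, zero_add]
          exact h2 i hi j hj (fun h => hji h.symm)
      refine (sum_le_sum f4).trans (le_of_eq ?_)
      rw [sum_add_distrib, sum_ite_eq' B i]
      rw [if_pos hi]
    have f5 := sum_le_sum f3
    rw [← f2, sum_add_distrib, ← f1] at f5
    refine f5.trans ?_
    have f6 : ∑ i ∈ B, ∑ j ∈ B, Z * (C * p i * p j + η) = Z * (C * s ^ 2 + (B.card : ℝ) ^ 2 * η) := by
      have f7 : ∀ i ∈ B, ∑ j ∈ B, Z * (C * p i * p j + η) =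
          Z * (C * p i * s + B.card * η) := by
        intro i _
        rw [← mul_sum, sum_add_distrib, sum_const, nsmul_eq_mul, ← mul_sum]
      rw [sum_congr rfl f7, ← mul_sum, sum_add_distrib, sum_const, nsmul_eq_mul, ← sum_mul,
        ← mul_sum, ← hsd]
      ring
    rw [f6]
    have f8 : C * s ^ 2 + (B.card : ℝ) ^ 2 * η ≤ (C + 1) * s ^ 2 := by nlinarith
    have := mul_le_mul_of_nonneg_left f8 hZ.le
    linarith
  -- Cauchy-Schwarz
  have g4 : e1 ^ 2 ≤ P * e2 := by
    have h3 : ∀ (r : ℕ → ℝ), (∀ n, r n = 0 ∨ ∃ i ∈ B, g n i) →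
        ∑ n ∈ N, r n = ∑ n ∈ N.filter (fun n => ∃ i ∈ B, g n i), r n := by
      intro r hr
      rw [sum_filter]
      refine sum_congr rfl fun n _ => ?_
      split_ifs with h
      · rfl
      · exact (hr n).resolve_right h
    have h4 : ∀ n, S n = 0 ∨ ∃ i ∈ B, g n i := by
      intro n
      by_cases h : ∃ i ∈ B, g n i
      · exact Or.inr h
      · left
        rw [hS]
        apply sum_eq_zero
        intro i hi
        rw [if_neg]
        exact fun h' => h ⟨i, hi, h'⟩
    rw [he1, he2, hP, h3 (fun n => a n * S n) (fun n => (h4 n).imp (fun h => by rw [h, mul_zero]) id),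
      h3 (fun n => a n * S n ^ 2) (fun n => (h4 n).imp (fun h => by rw [h]; ring) id)]
    apply Finset.sum_sq_le_sum_mul_sum_of_sq_eq_mul
    · intro n hn
      exact ha n (mem_filter.1 hn).1
    · intro n hn
      exact mul_nonneg (ha n (mem_filter.1 hn).1) (sq_nonneg _)
    · intro n _
      ring
  set D : ℝ := Z * ((C + 1) * s ^ 2) with hD
  have hs0 : 0 < s := by linarith
  have hD0 : 0 < D := by positivity
  set x0 : ℝ := Z * (c * s / 2) with hx0
  have hx00 : 0 < x0 := by positivity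
  have he10 : 0 < e1 := by linarith
  have g5 : e1 ^ 2 ≤ P * (e1 + D) := g4.trans (mul_le_mul_of_nonneg_left g3 hP0)
  have g6 : x0 ^ 2 * (e1 + D) ≤ e1 ^ 2 * (x0 + D) := by
    have k1 : 0 ≤ (e1 - x0) * (e1 * x0) := mul_nonneg (by linarith) (by positivity)
    have k2 : 0 ≤ D * ((e1 - x0) * (e1 + x0)) := mul_nonneg hD0.le (mul_nonneg (by linarith) (by linarith))
    nlinarith
  have g7 : Z * ((c ^ 2 / 4) / (c / 2 + C + 1)) * (x0 + D) ≤ x0 ^ 2 := by
    have hden : 0 < c / 2 + C + 1 := by linarith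
    have k1 : x0 + D ≤ Z * (s ^ 2 * (c / 2 + C + 1)) := by
      rw [hx0, hD, ← mul_add]
      apply mul_le_mul_of_nonneg_left _ hZ.le
      have : c * s / 2 ≤ c / 2 * s ^ 2 := by nlinarith
      nlinarith
    calc Z * ((c ^ 2 / 4) / (c / 2 + C + 1)) * (x0 + D) ≤
        Z * ((c ^ 2 / 4) / (c / 2 + C + 1)) * (Z * (s ^ 2 * (c / 2 + C + 1))) :=
          mul_le_mul_of_nonneg_left k1 (by positivity)
      _ = x0 ^ 2 := by
          rw [hx0]
          field_simp
          ring
  have g8 : Z * ((c ^ 2 / 4) / (c / 2 + C + 1)) * (e1 + D) * (x0 + D) ≤ P * (e1 + D) * (x0 + D) := by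
    calc Z * ((c ^ 2 / 4) / (c / 2 + C + 1)) * (e1 + D) * (x0 + D) =
        (Z * ((c ^ 2 / 4) / (c / 2 + C + 1)) * (x0 + D)) * (e1 + D) := by ring
      _ ≤ x0 ^ 2 * (e1 + D) := mul_le_mul_of_nonneg_right g7 (by linarith)
      _ ≤ e1 ^ 2 * (x0 + D) := g6
      _ ≤ P * (e1 + D) * (x0 + D) := mul_le_mul_of_nonneg_right g5 (by linarith)
  exact le_of_mul_le_mul_right (le_of_mul_le_mul_right g8 (by linarith)) (by linarith)

end Pool.Agent.J6H17.QP
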