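import Pool.Agent.J6H17.QP.CoreQ2
import Pool.Agent.J6H17.QP.SM
import Pool.Agent.Y882.MG.EngS

set_option autoImplicit false
set_option linter.unusedSectionVars false

/-! Blocks of forms. -/

namespace Pool.Agent.J6H17.QP

open Finset Filter
open Pool.Agent.R498.MT
open Pool.Agent.Y677.RSZ (rt Sys per_mod ev_log)
open Pool.Agent.TH423.SH (PS)
open Pool.Agent.W23.DC
open Pool.Agent.Y882
open Pool.Agent.Y882.PX
open Pool.Agent.Y882.KW

open Classical in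
/-- the arguments at which a square of a medium prime divides a value -/
theorem bad_leJ {J : Type} [Fintype J] (G : ℤ → ℤ) (KK q0 : ℕ)
    (hSq : ∀ q : ℕ, q.Prime → q0 ≤ q → ∀ N H : ℕ,
      ((((Icc 1 H).filter (fun j : ℕ => ((q ^ 2 : ℕ) : ℤ) ∣ G ((N + j : ℕ) : ℤ))).card : ℕ) : ℝ) ≤
        KK * (H * (1 / (q : ℝ) ^ 2) + 1))
    (a s : J → ℕ) (Na M L Y : ℕ) (ha : ∀ i, 1 ≤ a i) (hN : ∀ i, a i ≤ Na) (ζ υ : ℝ) (hY : 2 ≤ Y)
    (hq0 : (q0 : ℝ) + 2 ≤ (Y : ℝ) ^ ζ) :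
    ((((Ioc M (M + L)).filter (fun K => ∃ i, ∃ q ∈ pr Y ζ υ,
      ((q ^ 2 : ℕ) : ℤ) ∣ G ((a i * K + s i : ℕ) : ℤ))).card : ℕ) : ℝ) ≤
      Fintype.card J * (KK * ((Na * L : ℕ) * (2 / (Y : ℝ) ^ ζ) + (Y : ℝ) ^ υ)) := by
  have hq00 : (0 : ℝ) ≤ q0 := Nat.cast_nonneg q0
  have hsub : (Ioc M (M + L)).filter (fun K => ∃ i, ∃ q ∈ pr Y ζ υ,
      ((q ^ 2 : ℕ) : ℤ) ∣ G ((a i * K + s i : ℕ) : ℤ)) ⊆
      (univ : Finset J).biUnion (fun i => (pr Y ζ υ).biUnion (fun q =>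
        (Ioc M (M + L)).filter (fun K => ((q ^ 2 : ℕ) : ℤ) ∣ G ((a i * K + s i : ℕ) : ℤ)))) := by
    intro K hK
    rw [mem_filter] at hK
    obtain ⟨hK, i, q, hq, h⟩ := hK
    rw [mem_biUnion]
    refine ⟨i, mem_univ i, ?_⟩
    rw [mem_biUnion]
    exact ⟨q, hq, mem_filter.2 ⟨hK, h⟩⟩
  have hone : ∀ i : J, ∀ q ∈ pr Y ζ υ,
      ((((Ioc M (M + L)).filter (fun K =>
        ((q ^ 2 : ℕ) : ℤ) ∣ G ((a i * K + s i : ℕ) : ℤ))).card : ℕ) : ℝ) ≤
        KK * ((Na * L : ℕ) * (1 / (q : ℝ) ^ 2) + 1) := by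
    intro i q hq
    obtain ⟨h1, h2, h3⟩ := pr_mem Y q ζ υ hY hq
    have h4 : (q0 : ℝ) ≤ q := by linarith
    refine le_trans ?_ (hSq q h1 (by exact_mod_cast h4) (a i * M + s i) (Na * L))
    have h5 : ((Ioc M (M + L)).filter (fun K =>
        ((q ^ 2 : ℕ) : ℤ) ∣ G ((a i * K + s i : ℕ) : ℤ))).card ≤
        ((Icc 1 (Na * L)).filter (fun j : ℕ =>
          ((q ^ 2 : ℕ) : ℤ) ∣ G ((a i * M + s i + j : ℕ) : ℤ))).card := by
      apply card_le_card_of_injOn (fun K => a i * (K - M))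
      · intro K hK
        rw [mem_coe, mem_filter, mem_Ioc] at hK
        rw [mem_coe, mem_filter, mem_Icc]
        obtain ⟨⟨h6, h7⟩, h8⟩ := hK
        refine ⟨⟨Nat.mul_pos (ha i) (by omega), Nat.mul_le_mul (hN i) (by omega)⟩, ?_⟩
        have e : a i * M + s i + a i * (K - M) = a i * K + s i := by
          obtain ⟨d, rfl⟩ := Nat.exists_eq_add_of_le h6.le
          have : M + d - M = d := by omega
          rw [this]
          ring
        rw [e]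
        exact h8
      · intro K hK K' hK' h
        rw [mem_coe, mem_filter, mem_Ioc] at hK hK'
        have h6 := Nat.eq_of_mul_eq_mul_left (ha i) h
        omega
    exact_mod_cast h5
  calc ((((Ioc M (M + L)).filter (fun K => ∃ i, ∃ q ∈ pr Y ζ υ,
      ((q ^ 2 : ℕ) : ℤ) ∣ G ((a i * K + s i : ℕ) : ℤ))).card : ℕ) : ℝ) ≤
      ((∑ i : J, ∑ q ∈ pr Y ζ υ, ((Ioc M (M + L)).filter (fun K =>
        ((q ^ 2 : ℕ) : ℤ) ∣ G ((a i * K + s i : ℕ) : ℤ))).card : ℕ) : ℝ) := by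
        exact_mod_cast (card_le_card hsub).trans (card_biUnion_le.trans
          (sum_le_sum fun i _ => card_biUnion_le))
    _ = ∑ i : J, ∑ q ∈ pr Y ζ υ, ((((Ioc M (M + L)).filter (fun K =>
        ((q ^ 2 : ℕ) : ℤ) ∣ G ((a i * K + s i : ℕ) : ℤ))).card : ℕ) : ℝ) := by
        push_cast
        rfl
    _ ≤ ∑ _i : J, ∑ q ∈ pr Y ζ υ, KK * ((Na * L : ℕ) * (1 / (q : ℝ) ^ 2) + 1) :=
        sum_le_sum fun i _ => sum_le_sum fun q hq => hone i q hq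
    _ = Fintype.card J * (KK * ((Na * L : ℕ) * (∑ q ∈ pr Y ζ υ, 1 / (q : ℝ) ^ 2) +
        (pr Y ζ υ).card)) := by
        rw [sum_const, card_univ, nsmul_eq_mul, ← mul_sum, sum_add_distrib,
          ← mul_sum, sum_const, nsmul_eq_mul, mul_one]
    _ ≤ _ := by
        have h6 : ∑ q ∈ pr Y ζ υ, 1 / (q : ℝ) ^ 2 ≤ 2 / (Y : ℝ) ^ ζ :=
          Pool.Agent.Y882.MG.tail_sq _ _ (by linarith) (fun q hq => (pr_mem Y q ζ υ hY hq).2.1)
        have h7 : ((pr Y ζ υ).card : ℝ) ≤ (Y : ℝ) ^ υ :=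
          Pool.Agent.Y882.MG.card_lt _ _ (by positivity) (fun q hq =>
            ⟨(pr_mem Y q ζ υ hY hq).1.one_le, (pr_mem Y q ζ υ hY hq).2.2.le⟩)
        gcongr

/-- the parameters of the blocks -/
theorem exkb (R : ℝ) (hR : 0 < R) : ∃ (kb : ℕ → ℕ) (ub : ℕ → ℝ), (∀ t, 0 < ub t) ∧
    (∀ t, 2 ^ kb t * ub t ≤ R / 2) ∧
    (∀ t, 2 ^ kb t * (12 * ((kb t : ℝ) + 1) * ub t) = R / 8 * (1 / 2) ^ (t + 1)) ∧
    (∀ t, 1 ≤ 2 ^ kb t * (((kb t : ℝ) + 1) ^ 2 * ub t / 960)) := by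
  have h : ∀ t : ℕ, ∃ k : ℕ, 92160 * 2 ^ (t + 1) / R ≤ (k : ℝ) := fun t => exists_nat_ge _
  choose kb hkb using h
  refine ⟨kb, fun t => R / (96 * 2 ^ kb t * ((kb t : ℝ) + 1) * 2 ^ (t + 1)), ?_, ?_, ?_, ?_⟩
  · intro t
    positivity
  · intro t
    have h1 : (1 : ℝ) ≤ 2 ^ (t + 1) := one_le_pow₀ (by norm_num)
    have h2 : (0 : ℝ) ≤ kb t := Nat.cast_nonneg _
    have h3 : (2 : ℝ) ^ kb t * (R / (96 * 2 ^ kb t * ((kb t : ℝ) + 1) * 2 ^ (t + 1))) =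
        R / (96 * ((kb t : ℝ) + 1) * 2 ^ (t + 1)) := by field_simp
    rw [h3]
    apply div_le_div_of_nonneg_left hR.le (by norm_num)
    have h4 : (1 : ℝ) ≤ ((kb t : ℝ) + 1) * 2 ^ (t + 1) := by nlinarith
    calc (2 : ℝ) ≤ 96 * 1 := by norm_num
      _ ≤ 96 * (((kb t : ℝ) + 1) * 2 ^ (t + 1)) := by linarith
      _ = _ := by ring
  · intro t
    have h2 : (0 : ℝ) < (kb t : ℝ) + 1 := by positivity
    rw [one_div, inv_pow]
    field_simp
    norm_num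
  · intro t
    have h2 : (0 : ℝ) < (kb t : ℝ) + 1 := by positivity
    have h3 : (2 : ℝ) ^ kb t * (((kb t : ℝ) + 1) ^ 2 *
        (R / (96 * 2 ^ kb t * ((kb t : ℝ) + 1) * 2 ^ (t + 1))) / 960) =
        ((kb t : ℝ) + 1) * R / (92160 * 2 ^ (t + 1)) := by
      field_simp
      norm_num
    rw [h3, le_div_iff₀ (by positivity), one_mul]
    have h4 := hkb t
    rw [div_le_iff₀ hR] at h4
    nlinarith

/-- the offsets of the blocks -/
def offb (kb : ℕ → ℕ) (t : ℕ) : ℕ := ∑ s ∈ range t, 2 ^ kb s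

theorem offb_zero (kb : ℕ → ℕ) : offb kb 0 = 0 := by simp [offb]

theorem offb_succ (kb : ℕ → ℕ) (t : ℕ) : offb kb (t + 1) = offb kb t + 2 ^ kb t := by
  unfold offb
  rw [sum_range_succ]

theorem offb_strict (kb : ℕ → ℕ) : StrictMono (offb kb) := by
  apply strictMono_nat_of_lt_succ
  intro t
  rw [offb_succ]
  have : 0 < 2 ^ kb t := by positivity
  omega

/-- the slots of the first `T` blocks -/
abbrev JT (kb : ℕ → ℕ) (T : ℕ) : Type := Σ t : Fin T, Fin (2 ^ kb t)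

/-- the index of a slot -/
def idx (kb : ℕ → ℕ) (T : ℕ) (j : JT kb T) : ℕ := offb kb j.1 + j.2

theorem idx_mem (kb : ℕ → ℕ) (T : ℕ) (j : JT kb T) :
    idx kb T j ∈ Ico (offb kb j.1) (offb kb (j.1 + 1)) := by
  rw [mem_Ico, offb_succ]
  unfold idx
  have := j.2.2
  omega

theorem idx_lt (kb : ℕ → ℕ) (T : ℕ) (j : JT kb T) : idx kb T j < offb kb T :=
  (mem_Ico.1 (idx_mem kb T j)).2.trans_le ((offb_strict kb).monotone j.1.2)

theorem idx_inj (kb : ℕ → ℕ) (T : ℕ) : Function.Injective (idx kb T) := by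
  rintro ⟨t, i⟩ ⟨t', i'⟩ h
  have h1 := mem_Ico.1 (idx_mem kb T ⟨t, i⟩)
  have h2 := mem_Ico.1 (idx_mem kb T ⟨t', i'⟩)
  rw [h] at h1
  simp only at h1 h2
  have h3 : (t : ℕ) = t' := by
    by_contra hne
    rcases Nat.lt_or_gt_of_ne hne with h3 | h3
    · have := (offb_strict kb).monotone (show (t : ℕ) + 1 ≤ t' from h3)
      omega
    · have := (offb_strict kb).monotone (show (t' : ℕ) + 1 ≤ t from h3)
      omega
  have h4 : t = t' := Fin.ext h3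
  subst h4
  unfold idx at h
  simp only at h
  have h5 : i = i' := Fin.ext (by omega)
  rw [h5]

/-- a sum over all slots of a function of the block -/
theorem sum_JT (kb : ℕ → ℕ) (T : ℕ) (f : ℕ → ℝ) :
    ∑ j : JT kb T, f j.1 = ∑ t ∈ range T, 2 ^ kb t * f t := by
  rw [Fintype.sum_sigma, ← Fin.sum_univ_eq_sum_range (fun t => 2 ^ kb t * f t)]
  refine sum_congr rfl fun t _ => ?_
  show ∑ _y : Fin (2 ^ kb t), f t = _
  rw [sum_const, card_univ, Fintype.card_fin, nsmul_eq_mul]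
  push_cast
  rfl

theorem geom_le (T : ℕ) : ∑ t ∈ range T, (1 / 2 : ℝ) ^ (t + 1) ≤ 1 := by
  have h : ∀ T : ℕ, ∑ t ∈ range T, (1 / 2 : ℝ) ^ (t + 1) = 1 - (1 / 2) ^ T := by
    intro T
    induction T with
    | zero => simp
    | succ T ih =>
      rw [sum_range_succ, ih, pow_succ]
      ring
  rw [h]
  have : (0 : ℝ) ≤ (1 / 2) ^ T := by positivity
  linarith

open Classical in
/-- the good arguments -/
def gdW (G : ℤ → ℤ) (Y : ℕ) (ζ υ aw bw : ℝ) (x : ℕ) : Prop :=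
  0 < WW Y ζ υ aw bw (G (x : ℤ)).natAbs ∧ ∀ q ∈ pr Y ζ υ, ¬ ((q ^ 2 : ℕ) : ℤ) ∣ G (x : ℤ)

open Classical in
/-- **Blocks.** -/
theorem blockQ (G : ℤ → ℤ) (g : ℕ) (hG : Sys g G) (D : ℕ)
    (hGs : ∀ n : ℕ, G (n : ℤ) ≠ 0 ∧ (G (n : ℤ)).natAbs ≤ (n + 2) ^ D)
    (hMer : ∀ ε₁ υ η : ℝ, 0 < ε₁ → υ ≤ 1 → 0 < η → ∃ Y0 : ℕ, ∀ Y : ℕ, Y0 ≤ Y →
      Mer (pr Y ε₁ υ) (tt Y) (fun p => (rt G p : ℝ) / p) ε₁ υ η)
    (KK q0 : ℕ)
    (hSq : ∀ q : ℕ, q.Prime → q0 ≤ q → ∀ N H : ℕ,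
      ((((Icc 1 H).filter (fun j : ℕ => ((q ^ 2 : ℕ) : ℤ) ∣ G ((N + j : ℕ) : ℤ))).card : ℕ) : ℝ) ≤
        KK * (H * (1 / (q : ℝ) ^ 2) + 1))
    (τ ζ υ aw bw θ R : ℝ) (hζ : 0 < ζ) (h2 : 2 * ζ < τ) (h4 : τ ≤ 4 * ζ) (hτ : τ ≤ 1)
    (hζυ : ζ ≤ υ) (hυτ : υ < τ) (ha : 0 ≤ aw) (hb : 0 ≤ bw) (hab : bw * υ ≤ aw)
    (hJ0 : ∫ x in ζ..υ, (aw - bw * x) / (τ - x) / x < Real.log (τ / ζ - 1) / τ)
    (hR : 0 < R) (hRζ : 3 * R < ζ) (hR1 : 2 * R ≤ 1) (hRτ4 : 4 * R ≤ τ) (hRτ : 2 * R + τ < θ) :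
    ∃ (kb : ℕ → ℕ) (δ : ℝ), 0 < δ ∧ ∀ T : ℕ, ∃ (P₀ A : ℕ) (ε₁ Bb : ℝ), 0 < ε₁ ∧ 0 < Bb ∧
      ∀ (W : ℕ) (a s : ℕ → ℕ) (Bd : ℕ),
        SL G W (fun i : Fin (offb kb T) => a i) (fun i : Fin (offb kb T) => s i) Bd → 1 ≤ W →
        (∀ p : ℕ, p.Prime → p ≤ P₀ → p ∣ W) →
      ∃ Y₀ : ℕ, ∀ Y : ℕ, Y₀ ≤ Y → ∀ M L : ℕ, (Y : ℝ) ^ θ ≤ L → M + L ≤ Y →
        ∃ mu : ℕ → ℝ, (∀ K ∈ Ioc M (M + L), 0 ≤ mu K ∧ mu K * L ≤ Bb * Real.log Y ^ A) ∧
          (∀ K ∈ Ioc M (M + L), mu K ≠ 0 → ∀ i < offb kb T, ∀ p : ℕ, p.Prime →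
            (p : ℝ) < (Y : ℝ) ^ ε₁ → ¬ (p : ℤ) ∣ G ((a i * K + s i : ℕ) : ℤ)) ∧
          ∑ K ∈ Ioc M (M + L), mu K ≤ 2 ∧
          ∀ t < T, δ ≤ ∑ K ∈ (Ioc M (M + L)).filter (fun K =>
            ∃ i ∈ Ico (offb kb t) (offb kb (t + 1)), gdW G Y ζ υ aw bw (a i * K + s i)), mu K := by
  obtain ⟨f0, hf0, hcore⟩ := coreQ G g hG D hGs hMer τ ζ υ aw bw θ R hζ h2 h4 hτ hζυ hυτ ha hb hab
    hJ0 hR hRζ hR1 hRτ4 hRτ
  obtain ⟨kb, ub, hu0, hu1, hu2, hu3⟩ := exkb R hR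
  set c : ℝ := f0 / 8 with hc
  set C : ℝ := 200 / R ^ 2 with hCd
  have hc0 : 0 < c := by positivity
  have hC0 : 0 ≤ C := by positivity
  set δ : ℝ := (c ^ 2 / 4) / (c / 2 + C + 1) with hδ
  have hδ0 : 0 < δ := by positivity
  refine ⟨kb, δ / 2, by positivity, ?_⟩
  intro T
  rcases Nat.eq_zero_or_pos T with rfl | hT
  · refine ⟨0, 0, 1, 1, one_pos, one_pos, ?_⟩
    intro W a s Bd _ _ _
    refine ⟨0, fun Y _ M L _ _ => ⟨fun _ => 0, fun _ _ => ⟨le_rfl, by simp⟩,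
      fun _ _ h => absurd rfl h, ?_, fun t ht => absurd ht (by omega)⟩⟩
    rw [sum_const_zero]
    norm_num
  have : Nonempty (JT kb T) := ⟨⟨⟨0, hT⟩, ⟨0, by positivity⟩⟩⟩
  have hcJ : (1 : ℝ) ≤ (Fintype.card (JT kb T) : ℝ) := by exact_mod_cast Fintype.card_pos
  set cJ : ℝ := (Fintype.card (JT kb T) : ℝ) with hcJd
  set η : ℝ := min 1 (c / 2) / cJ ^ 2 with hη
  have hcJ2 : 1 ≤ cJ ^ 2 := one_le_pow₀ hcJ
  have hmin : 0 < min 1 (c / 2) := lt_min one_pos (by positivity)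
  have hη0 : 0 < η := by positivity
  have hη1 : η ≤ 1 := by
    rw [hη, div_le_one (by positivity)]
    exact (min_le_left _ _).trans hcJ2
  obtain ⟨P₀, A, ε₁, Bb, hε, hεζ, hBb, hcore⟩ := hcore (JT kb T) (fun j => kb j.1) (fun j => ub j.1)
    (fun j => hu0 _) (fun j => hu1 _) (by
      rw [sum_JT kb T (fun t => 12 * ((kb t : ℝ) + 1) * ub t)]
      rw [sum_congr rfl (fun t _ => hu2 t), ← mul_sum]
      have := geom_le T
      nlinarith) η hη0 hη1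
  refine ⟨P₀, A, ε₁, Bb, hε, hBb, ?_⟩
  intro W a s Bd hS hW1 hWp
  have hS' : SL G W (fun j : JT kb T => a (idx kb T j)) (fun j : JT kb T => s (idx kb T j)) Bd := by
    refine ⟨fun j => hS.a1 ⟨_, idx_lt kb T j⟩, fun p hp hpW j K => hS.loc p hp hpW
      ⟨_, idx_lt kb T j⟩ K, fun p hp hpW j => hS.pri p hp hpW ⟨_, idx_lt kb T j⟩, ?_⟩
    intro p hp hpB K i j h1 h2
    have h3 := hS.unq p hp hpB K ⟨_, idx_lt kb T i⟩ ⟨_, idx_lt kb T j⟩ h1 h2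
    exact idx_inj kb T (Fin.mk.inj h3)
  obtain ⟨Y₁, hcore⟩ := hcore W _ _ Bd hS' hW1 hWp
  obtain ⟨Na, hNa⟩ : ∃ N : ℕ, ∀ j : JT kb T, a (idx kb T j) ≤ N :=
    ⟨univ.sup (fun j : JT kb T => a (idx kb T j)),
      fun j => Finset.le_sup (f := fun j : JT kb T => a (idx kb T j)) (mem_univ j)⟩
  have ev1 : ∀ᶠ Y : ℕ in atTop, (q0 : ℝ) + 2 ≤ (Y : ℝ) ^ ζ :=
    ((tendsto_rpow_atTop hζ).comp tendsto_natCast_atTop_atTop).eventually_ge_atTop _
  have ev2 := ev_log A (8 * (Bb * cJ * KK * Na) / δ) ζ hζ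
  have ev3 := ev_log A (4 * (Bb * cJ * KK) / δ) (θ - υ) (by linarith)
  obtain ⟨Y₂, hY₂⟩ := eventually_atTop.1 (ev1.and (ev2.and (ev3.and (eventually_ge_atTop 3))))
  refine ⟨max Y₁ Y₂, ?_⟩
  intro Y hY M L hLY hMLY
  obtain ⟨wt, p, Z, hZ, hLZ, hO⟩ := hcore Y ((le_max_left _ _).trans hY) M L hLY hMLY
  obtain ⟨e1, e2, e3, e4⟩ := hY₂ Y ((le_max_right _ _).trans hY)
  have hYr : (3 : ℝ) ≤ Y := by exact_mod_cast e4
  have hY0 : (0 : ℝ) < Y := by linarith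
  have hlY : 0 < Real.log Y := Real.log_pos (by linarith)
  have hL0 : (0 : ℝ) < L := lt_of_lt_of_le (by positivity) hLY
  -- the bad arguments
  set Bs := (Ioc M (M + L)).filter (fun K => ∃ i : JT kb T, ∃ q ∈ pr Y ζ υ,
      ((q ^ 2 : ℕ) : ℤ) ∣ G ((a (idx kb T i) * K + s (idx kb T i) : ℕ) : ℤ)) with hBs
  have hbad : (Bs.card : ℝ) ≤ cJ * (KK * ((Na * L : ℕ) * (2 / (Y : ℝ) ^ ζ) + (Y : ℝ) ^ υ)) :=
    bad_leJ G KK q0 hSq (fun j : JT kb T => a (idx kb T j)) (fun j : JT kb T => s (idx kb T j)) Na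
      M L Y (fun j => hS'.a1 j) hNa ζ υ (by omega) e1
  have hbadm : ∑ K ∈ Bs, wt K ≤ Z * (δ / 2) := by
    have h1 : ∑ K ∈ Bs, wt K ≤ Bs.card * Bb := by
      calc ∑ K ∈ Bs, wt K ≤ ∑ _K ∈ Bs, Bb :=
            sum_le_sum fun K hK => (hO.w0 K (mem_filter.1 hK).1).2
        _ = _ := by rw [sum_const, nsmul_eq_mul]
    refine h1.trans ((mul_le_mul_of_nonneg_right hbad hBb.le).trans ?_)
    have hYζ : (0 : ℝ) < (Y : ℝ) ^ ζ := by positivity
    rw [div_mul_eq_mul_div, div_le_iff₀ hδ0] at e2 e3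
    have q1 : cJ * (KK * ((Na * L : ℕ) * (2 / (Y : ℝ) ^ ζ))) * Bb ≤ Z * (δ / 4) := by
      push_cast
      rw [show cJ * (KK * (Na * L * (2 / (Y : ℝ) ^ ζ))) * Bb =
        (2 * (Bb * cJ * KK * Na)) * L / (Y : ℝ) ^ ζ by ring, div_le_iff₀ hYζ]
      have e5 : 2 * (Bb * cJ * KK * Na) * L ≤ 2 * (Bb * cJ * KK * Na) * (Real.log Y ^ A * Z) :=
        mul_le_mul_of_nonneg_left hLZ (by positivity)
      have e6 : (8 * (Bb * cJ * KK * Na) * Real.log Y ^ A) * Z ≤ ((Y : ℝ) ^ ζ * δ) * Z :=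
        mul_le_mul_of_nonneg_right e2 hZ.le
      linarith
    have q2 : cJ * (KK * (Y : ℝ) ^ υ) * Bb ≤ Z * (δ / 4) := by
      have e5 : (Y : ℝ) ^ υ * (Y : ℝ) ^ (θ - υ) ≤ Real.log Y ^ A * Z := by
        rw [← Real.rpow_add hY0]
        refine le_trans (le_of_eq ?_) (hLY.trans hLZ)
        congr 1
        ring
      have hlA : 0 < Real.log Y ^ A := by positivity
      have e6 : (4 * (Bb * cJ * KK) * Real.log Y ^ A) * (Y : ℝ) ^ υ ≤
          ((Y : ℝ) ^ (θ - υ) * δ) * (Y : ℝ) ^ υ :=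
        mul_le_mul_of_nonneg_right e3 (by positivity)
      have e7 : ((Y : ℝ) ^ υ * (Y : ℝ) ^ (θ - υ)) * δ ≤ (Real.log Y ^ A * Z) * δ :=
        mul_le_mul_of_nonneg_right e5 hδ0.le
      have e8 : Real.log Y ^ A * (cJ * (KK * (Y : ℝ) ^ υ) * Bb) ≤ Real.log Y ^ A * (Z * (δ / 4)) := by
        linarith
      exact le_of_mul_le_mul_left e8 hlA
    rw [mul_add, mul_add, add_mul]
    linarith
  refine ⟨fun K => wt K / Z, ?_, ?_, ?_, ?_⟩
  · intro K hK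
    refine ⟨div_nonneg (hO.w0 K hK).1 hZ.le, ?_⟩
    rw [div_mul_eq_mul_div, div_le_iff₀ hZ]
    calc wt K * L ≤ Bb * (Real.log Y ^ A * Z) :=
          mul_le_mul (hO.w0 K hK).2 hLZ hL0.le hBb.le
      _ = _ := by ring
  · intro K hK hK0 i hi q hq hqY
    -- the slot of the index
    have hex : ∃ j : JT kb T, idx kb T j = i := by
      have hex : ∃ t, i < offb kb (t + 1) := ⟨T, hi.trans (offb_strict kb (by omega))⟩
      set t := Nat.find hex with ht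
      have h1 : i < offb kb (t + 1) := Nat.find_spec hex
      have h2 : offb kb t ≤ i := by
        by_contra hcon
        push Not at hcon
        rcases Nat.eq_zero_or_pos t with h0 | h0
        · rw [h0, offb_zero] at hcon
          omega
        · have := Nat.find_min hex (m := t - 1) (by omega)
          rw [show t - 1 + 1 = t by omega] at this
          exact this hcon
      have h3 : t < T := by
        by_contra hcon
        have := (offb_strict kb).monotone (not_lt.1 hcon)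
        omega
      rw [offb_succ] at h1
      refine ⟨⟨⟨t, h3⟩, ⟨i - offb kb t, by simp only; omega⟩⟩, ?_⟩
      unfold idx
      simp only
      omega
    obtain ⟨j, rfl⟩ := hex
    exact hO.ns K hK (fun h => hK0 (by
      show wt K / Z = 0
      rw [h, zero_div])) q hq hqY j
  · rw [← sum_div, div_le_iff₀ hZ]
    exact hO.tot
  · intro t ht
    set B : Finset (JT kb T) := univ.filter (fun j => (j.1 : ℕ) = t) with hB
    have hBc : (B.card : ℝ) ≤ cJ := by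
      rw [hcJd]
      exact_mod_cast card_le_univ B
    have hBs1 : 1 ≤ ∑ j ∈ B, p j := by
      have h5 : ∑ j ∈ B, (((kb j.1 : ℕ) : ℝ) + 1) ^ 2 * ub j.1 / 960 ≤ ∑ j ∈ B, p j :=
        sum_le_sum fun j _ => hO.plow j
      refine le_trans ?_ h5
      rw [hB, sum_filter]
      have h6 := sum_JT kb T (fun t' => if t' = t then ((kb t' : ℝ) + 1) ^ 2 * ub t' / 960 else 0)
      rw [h6]
      simp only [mul_ite, mul_zero]
      rw [sum_ite_eq' (range T) t]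
      rw [if_pos (mem_range.2 ht)]
      exact hu3 t
    have h5 := second_moment (Ioc M (M + L)) wt (fun K hK => (hO.w0 K hK).1) B
      (fun K j => 0 < WW Y ζ υ aw bw (G ((a (idx kb T j) * K + s (idx kb T j) : ℕ) : ℤ)).natAbs)
      p c C η Z hc0 hC0 hη0.le hZ (fun j _ => by
        refine le_trans ?_ (hO.plow j)
        have := hu0 j.1
        positivity) hBs1
      (by
        calc (B.card : ℝ) * η ≤ cJ ^ 2 * η := by
              apply mul_le_mul_of_nonneg_right _ hη0.le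
              nlinarith
          _ = min 1 (c / 2) := by rw [hη]; field_simp
          _ ≤ _ := min_le_right _ _)
      (by
        calc (B.card : ℝ) ^ 2 * η ≤ cJ ^ 2 * η := by
              apply mul_le_mul_of_nonneg_right _ hη0.le
              exact pow_le_pow_left₀ (Nat.cast_nonneg _) hBc 2
          _ = min 1 (c / 2) := by rw [hη]; field_simp
          _ ≤ _ := min_le_left _ _)
      (fun j _ => hO.one j _ (fun K => by rw [mem_filter]))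
      (fun i _ j _ hij => by
        refine (hO.two i j hij _ (fun K hK => ?_)).trans (le_of_eq (by ring))
        rw [mem_filter] at hK
        exact ⟨hK.1, hK.2.1, hK.2.2⟩)
    set GA := (Ioc M (M + L)).filter (fun K =>
            ∃ i ∈ Ico (offb kb t) (offb kb (t + 1)), gdW G Y ζ υ aw bw (a i * K + s i)) with hGA
    have h6 : (Ioc M (M + L)).filter (fun K => ∃ j ∈ B,
        0 < WW Y ζ υ aw bw (G ((a (idx kb T j) * K + s (idx kb T j) : ℕ) : ℤ)).natAbs) ⊆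
        GA ∪ Bs := by
      intro K hK
      rw [mem_filter] at hK
      obtain ⟨hK1, j, hj, hw⟩ := hK
      by_cases hKB : K ∈ Bs
      · exact mem_union_right _ hKB
      · apply mem_union_left
        rw [hGA, mem_filter]
        refine ⟨hK1, idx kb T j, ?_, hw, ?_⟩
        · have h7 := idx_mem kb T j
          rw [hB, mem_filter] at hj
          rw [hj.2] at h7
          exact h7
        · intro q hq hqd
          apply hKB
          rw [hBs, mem_filter]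
          exact ⟨hK1, j, q, hq, hqd⟩
    have h7 : ∑ K ∈ (Ioc M (M + L)).filter (fun K => ∃ j ∈ B,
        0 < WW Y ζ υ aw bw (G ((a (idx kb T j) * K + s (idx kb T j) : ℕ) : ℤ)).natAbs), wt K ≤
        ∑ K ∈ GA, wt K + ∑ K ∈ Bs, wt K := by
      have hnn : ∀ K ∈ GA ∪ Bs, 0 ≤ wt K := by
        intro K hK
        rcases mem_union.1 hK with h | h
        · exact (hO.w0 K (mem_filter.1 h).1).1
        · exact (hO.w0 K (mem_filter.1 h).1).1
      refine (sum_le_sum_of_subset_of_nonneg h6 fun K hK _ => hnn K hK).trans ?_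
      rw [← sum_union_inter]
      have : 0 ≤ ∑ K ∈ GA ∩ Bs, wt K := sum_nonneg fun K hK =>
        hnn K (mem_union_left _ (mem_inter.1 hK).1)
      linarith
    rw [← sum_div, le_div_iff₀ hZ]
    have h8 : Z * δ ≤ ∑ K ∈ GA, wt K + ∑ K ∈ Bs, wt K := by
      refine le_trans ?_ h7
      refine le_trans h5 (le_of_eq ?_)
      apply sum_congr _ (fun _ _ => rfl)
      ext K
      simp only [mem_filter]
    linarith

end Pool.Agent.J6H17.QP
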