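import Pool.Agent.R498.MT.C1z
import Pool.Agent.R498.MT.Count
import Pool.Agent.Y882.PX.LowX

set_option autoImplicit false
set_option linter.unusedSectionVars false

/-! The number of the arguments in the classes, for arbitrary residue classes. -/

namespace Pool.Agent.J6H17.QP

open Finset
open Pool.Agent.TH423.SH Pool.Agent.TH423.SH.FLIP
open Pool.Agent.Y677.RSZ Pool.Agent.Y852.RSZ
open Pool.Agent.R498.MT

theorem c1a : ∃ C : ℕ, 1 ≤ C ∧ ∀ κ b₀ W : ℕ, C * (κ + 1) ≤ b₀ → 1 ≤ W →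
  (∀ p : ℕ, p.Prime → p ≤ C * (κ + 1) → p ∣ W) → ∀ Om : ℕ → Finset ℕ,
  (∀ p : ℕ, p.Prime → ¬ p ∣ W → (Om p).card ≤ κ ∧ ∀ c ∈ Om p, c < p) →
  ∀ (J z D a M L : ℕ), z ≤ 2 ^ 2 ^ J → 1 ≤ D → (∀ p ∈ PS W z, ¬ p ∣ D) →
  ∀ s : Finset ℕ, (∀ K, K ∈ s ↔ (K ∈ Ioc M (M + L) ∧ (K % D = a % D ∧
        ∀ p ∈ PS W z, K % p ∉ Om p))) →
  |(s.card : ℝ) - (L : ℝ) / D * ∏ p ∈ PS W z, (1 - ((Om p).card : ℝ) / p)| ≤
    (1 / 2 : ℝ) ^ b₀ * ((L : ℝ) / D * ∏ p ∈ PS W z, (1 - ((Om p).card : ℝ) / p)) +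
      ((2 : ℝ) ^ 2 ^ J) ^ (C * b₀) := by
  classical
  obtain ⟨C0, hC0, hF⟩ := fll
  refine ⟨2 * C0 + 4, by omega, ?_⟩
  intro κ b W hb hW hWp Om hOm' J z q a M L hzJ hq hPq
  set P := PS W z with hP
  have hPmem0 : ∀ p ∈ P, ¬ p ∣ W := by
    intro p hp
    rw [hP, PS, mem_filter, mem_Icc] at hp
    exact hp.2.2
  have hPmem : ∀ p ∈ P, p.Prime ∧ (2 * C0 + 4) * (κ + 1) < p ∧ p ≤ 2 ^ 2 ^ J := by
    intro p hp
    rw [hP, PS, mem_filter, mem_Icc] at hp
    refine ⟨hp.2.1, ?_, hp.1.2.trans hzJ⟩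
    by_contra hcon
    exact hp.2.2 (hWp p hp.2.1 (not_lt.1 hcon))
  have hOm : ∀ p ∈ P, (Om p).card ≤ κ ∧ ∀ c ∈ Om p, c < p := by
    intro p hp
    exact hOm' p (hPmem p hp).1 (hPmem0 p hp)
  have hC : C0 * (κ + 1) ≤ (2 * C0 + 4) * (κ + 1) := Nat.mul_le_mul_right _ (by omega)
  have hq' : (0 : ℝ) < q := by exact_mod_cast hq
  have hA : 0 ≤ (L : ℝ) / q := div_nonneg (Nat.cast_nonneg L) hq'.le
  have h1 := hF κ b J ((2 * C0 + 4) * (κ + 1)) P (fun p => 1 / (p : ℝ)) Om
    (hC.trans hb) hC hPmem (fun p hp => (hOm p hp).1)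
    (by
      intro p hp
      have hp2 : (2 : ℝ) ≤ p := by exact_mod_cast (hPmem p hp).1.two_le
      refine ⟨by positivity, ?_⟩
      apply one_div_le_one_div_of_le (by linarith)
      linarith)
    ((Ioc M (M + L)).filter (fun n => n % q = a % q)) (fun _ => 1) ((L : ℝ) / q) (fun _ => 1)
    (fun _ _ => zero_le_one) hA (fun _ => zero_le_one)
    (by
      intro T hT _ c hc
      obtain ⟨r, hr⟩ := crt_set q a c T (fun p hp => ⟨(hPmem p (hT hp)).1, hPq p (hT hp)⟩)
        (fun p hp => (hOm p (hT hp)).2 _ (hc p hp))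
      rw [sum_const, nsmul_eq_mul, mul_one, filter_filter]
      have e1 : (Ioc M (M + L)).filter (fun n => n % q = a % q ∧ ∀ p ∈ T, n % p = c p) =
          (Ioc M (M + L)).filter (fun n => n ≡ r [MOD q * ∏ p ∈ T, p]) :=
        filter_congr fun n _ => hr n
      have hpos : 0 < q * ∏ p ∈ T, p :=
        Nat.mul_pos hq (Finset.prod_pos fun p hp => (hPmem p (hT hp)).1.pos)
      have h2 := cnt_Ioc M (M + L) (q * ∏ p ∈ T, p) r (by omega) hpos
      rw [e1]
      have e2 : (((M + L : ℕ) : ℝ) - M) / ((q * ∏ p ∈ T, p : ℕ) : ℝ) =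
          (L : ℝ) / q * ∏ p ∈ T, 1 / (p : ℝ) := by
        push_cast
        rw [← div_div, div_eq_mul_inv _ (∏ p ∈ T, (p : ℝ)), ← prod_inv_distrib,
          show ((M : ℝ) + L - M) = L by ring]
        simp only [one_div]
      rw [e2] at h2
      exact h2)
  have e3 : ∏ p ∈ P, (1 - ((Om p).card : ℝ) * (1 / (p : ℝ))) =
      ∏ p ∈ P, (1 - ((Om p).card : ℝ) / p) := by
    apply prod_congr rfl
    intro p _
    rw [mul_one_div]
  rw [e3, sum_const, nsmul_eq_mul, mul_one, filter_filter] at h1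
  set Y : ℕ := (2 ^ 2 ^ J) ^ (C0 * b) with hY
  suffices hs : ((J : ℝ) + 2) * ∑ T ∈ P.powerset.filter (fun T : Finset ℕ => ∏ p ∈ T, p ≤ Y),
      (κ : ℝ) ^ T.card * 1 ≤ ((2 : ℝ) ^ 2 ^ J) ^ ((2 * C0 + 4) * b) by
    have hgen : ∀ s : Finset ℕ, (∀ K, K ∈ s ↔ (K ∈ Ioc M (M + L) ∧ (K % q = a % q ∧
        ∀ p ∈ P, K % p ∉ Om p))) →
        |(s.card : ℝ) - (L : ℝ) / q * ∏ p ∈ P, (1 - ((Om p).card : ℝ) / p)| ≤
          (1 / 2 : ℝ) ^ b * ((L : ℝ) / q * ∏ p ∈ P, (1 - ((Om p).card : ℝ) / p)) +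
            ((2 : ℝ) ^ 2 ^ J) ^ ((2 * C0 + 4) * b) := by
      intro s hs'
      have e5 : s = (Ioc M (M + L)).filter (fun K => K % q = a % q ∧
          ∀ p ∈ P, K % p ∉ Om p) := by
        ext K
        rw [hs' K, mem_filter]
      rw [e5]
      exact h1.trans (add_le_add le_rfl hs)
    exact hgen
  have hterm : ∀ T ∈ P.powerset.filter (fun T : Finset ℕ => ∏ p ∈ T, p ≤ Y),
      ((κ : ℝ) ^ T.card * 1) ≤ (Y : ℝ) := by
    intro T hT
    rw [mem_filter, mem_powerset] at hT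
    rw [mul_one]
    have h2 : κ ^ T.card ≤ ∏ p ∈ T, p := by
      rw [← prod_const]
      apply prod_le_prod'
      intro p hp
      have h3 := (hPmem p (hT.1 hp)).2.1
      have h4 : κ + 1 ≤ (2 * C0 + 4) * (κ + 1) := Nat.le_mul_of_pos_left _ (by omega)
      omega
    exact_mod_cast h2.trans hT.2
  have hJ : (J : ℝ) + 2 ≤ ((2 : ℝ) ^ 2 ^ J) ^ 2 := by
    have h2 : J + 2 ≤ (2 ^ 2 ^ J) ^ 2 := by
      have h3 : J < 2 ^ J := Nat.lt_two_pow_self
      have h4 : 2 ^ J < 2 ^ 2 ^ J := Nat.lt_two_pow_self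
      have h5 : 2 ≤ 2 ^ 2 ^ J := by
        calc 2 = 2 ^ 1 := rfl
          _ ≤ 2 ^ 2 ^ J := Nat.pow_le_pow_right (by norm_num) (Nat.one_le_two_pow)
      nlinarith
    exact_mod_cast h2
  have hb4 : 4 ≤ 4 * b := by
    have : 1 ≤ (2 * C0 + 4) * (κ + 1) := Nat.mul_pos (by omega) (by omega)
    omega
  have hone : (1 : ℝ) ≤ (2 : ℝ) ^ 2 ^ J := one_le_pow₀ (by norm_num)
  calc ((J : ℝ) + 2) * ∑ T ∈ P.powerset.filter (fun T : Finset ℕ => ∏ p ∈ T, p ≤ Y),
        (κ : ℝ) ^ T.card * 1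
      ≤ ((J : ℝ) + 2) * ((Y : ℝ) ^ 2) := by
        apply mul_le_mul_of_nonneg_left _ (by positivity)
        calc ∑ T ∈ P.powerset.filter (fun T : Finset ℕ => ∏ p ∈ T, p ≤ Y), (κ : ℝ) ^ T.card * 1
            ≤ ∑ _T ∈ P.powerset.filter (fun T : Finset ℕ => ∏ p ∈ T, p ≤ Y), (Y : ℝ) :=
              sum_le_sum hterm
          _ = ((P.powerset.filter (fun T : Finset ℕ => ∏ p ∈ T, p ≤ Y)).card : ℝ) * Y := by
              rw [sum_const, nsmul_eq_mul]
          _ ≤ (Y : ℝ) * Y := by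
              apply mul_le_mul_of_nonneg_right _ (by positivity)
              exact_mod_cast Pool.Agent.TH423.SH.FLIP.card_le P (fun p hp => (hPmem p hp).1) Y
          _ = (Y : ℝ) ^ 2 := by ring
    _ ≤ ((2 : ℝ) ^ 2 ^ J) ^ 2 * (Y : ℝ) ^ 2 := by
        apply mul_le_mul_of_nonneg_right hJ (by positivity)
    _ = ((2 : ℝ) ^ 2 ^ J) ^ (2 + 2 * (C0 * b)) := by
        rw [hY]
        push_cast
        rw [pow_add, mul_comm 2 (C0 * b), pow_mul _ (C0 * b) 2]
    _ ≤ ((2 : ℝ) ^ 2 ^ J) ^ ((2 * C0 + 4) * b) := by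
        apply pow_le_pow_right₀ hone
        have : (2 * C0 + 4) * b = 2 * (C0 * b) + 4 * b := by ring
        omega

section count
variable {S J : Type} [Fintype S] [DecidableEq S] [Fintype J] [DecidableEq J]

open Classical in
/-- the Chinese remainder theorem -/
theorem crt_card (pp : S → ℕ) (hpr : ∀ s, (pp s).Prime) (hinj : Function.Injective pp)
    (Oms : S → Finset ℕ) (h : ∀ s, ∀ c ∈ Oms s, c < pp s) (A : Finset S) :
    ((range (∏ s ∈ A, pp s)).filter (fun r => ∀ s ∈ A, r % pp s ∈ Oms s)).card =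
      ∏ s ∈ A, (Oms s).card := by
  induction A using Finset.induction_on with
  | empty => simp
  | insert a A ha ih =>
    rw [prod_insert ha, prod_insert ha]
    have hcop : Nat.Coprime (pp a) (∏ s ∈ A, pp s) := by
      apply Nat.Coprime.prod_right
      intro s hs
      apply (Nat.coprime_primes (hpr a) (hpr s)).2
      intro h
      exact ha (by rw [hinj h]; exact hs)
    have h1 := Pool.Agent.Y833.RSZ.card_mul (hpr a).pos (prod_pos fun s _ => (hpr s).pos) hcop
      (fun r => r % pp a ∈ Oms a) (fun r => ∀ s ∈ A, r % pp s ∈ Oms s)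
      (fun r => by rw [Nat.mod_mod]) (fun r => by
        refine forall₂_congr fun s hs => ?_
        rw [Nat.mod_mod_of_dvd _ (dvd_prod_of_mem pp hs)])
    have h2 : ((range (pp a)).filter (fun r => r % pp a ∈ Oms a)).card = (Oms a).card := by
      congr 1
      ext r
      rw [mem_filter, mem_range]
      constructor
      · rintro ⟨h3, h4⟩
        rwa [Nat.mod_eq_of_lt h3] at h4
      · intro h3
        have h4 := h a r h3
        refine ⟨h4, ?_⟩
        rwa [Nat.mod_eq_of_lt h4]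
    have h1' : ((range (pp a * ∏ s ∈ A, pp s)).filter
        (fun r => r % pp a ∈ Oms a ∧ ∀ s ∈ A, r % pp s ∈ Oms s)).card =
        ((range (pp a)).filter (fun r => r % pp a ∈ Oms a)).card *
        ((range (∏ s ∈ A, pp s)).filter (fun r => ∀ s ∈ A, r % pp s ∈ Oms s)).card := by
      convert h1
    rw [h2, ih] at h1'
    rw [← h1']
    congr 1
    ext r
    rw [mem_filter, mem_filter]
    refine and_congr Iff.rfl ?_
    rw [Finset.forall_mem_insert]

variable (pp : S → ℕ) (hpr : ∀ s, (pp s).Prime) (hinj : Function.Injective pp)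

/-- the modulus of the conditions -/
def DTa (T : S → Option J) : ℕ := ∏ s, if T s = none then 1 else pp s

include hpr in
theorem DTa_pos (T : S → Option J) : 0 < DTa pp T := by
  unfold DTa
  apply prod_pos
  intro s _
  split_ifs
  · exact one_pos
  · exact (hpr s).pos

open Classical in
/-- the classes -/
noncomputable def CTa (Om : J → ℕ → Finset ℕ) (T : S → Option J) : Finset ℕ :=
  (range (DTa pp T)).filter (fun r : ℕ => ∀ s j, T s = some j → r % pp s ∈ Om j (pp s))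

include hpr hinj in
theorem CTa_card (Om : J → ℕ → Finset ℕ) (rho : S → ℕ)
    (hOm : ∀ j s, (Om j (pp s)).card = rho s ∧ ∀ c ∈ Om j (pp s), c < pp s) (T : S → Option J) :
    (CTa pp Om T).card = ∏ s, if T s = none then 1 else rho s := by
  classical
  set Oms : S → Finset ℕ := fun s => match T s with
    | none => ∅
    | some j => Om j (pp s) with hOms
  have h1 := crt_card pp hpr hinj Oms (by
    intro s c hc
    simp only [hOms] at hc
    rcases hT : T s with _ | j
    · rw [hT] at hc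
      simp at hc
    · rw [hT] at hc
      exact (hOm j s).2 c hc) (univ.filter (fun s => T s ≠ none))
  have e1 : ∏ s ∈ univ.filter (fun s => T s ≠ none), pp s = DTa pp T := by
    unfold DTa
    rw [prod_filter]
    refine prod_congr rfl fun s _ => ?_
    by_cases h : T s = none <;> simp [h]
  have e2 : ∏ s ∈ univ.filter (fun s => T s ≠ none), (Oms s).card =
      ∏ s, if T s = none then 1 else rho s := by
    rw [prod_filter]
    refine prod_congr rfl fun s _ => ?_
    rcases hT : T s with _ | j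
    · simp
    · simp only [hOms, hT, ne_eq, reduceCtorEq, not_false_eq_true, if_true, if_false]
      exact (hOm j s).1
  rw [e1, e2] at h1
  rw [← h1]
  unfold CTa
  congr 1
  ext r
  rw [mem_filter, mem_filter]
  refine and_congr Iff.rfl ?_
  constructor
  · intro h s hs
    rw [mem_filter] at hs
    rcases hT : T s with _ | j
    · exact absurd hT hs.2
    · simp only [hOms, hT]
      exact h s j hT
  · intro h s j hs
    have h2 := h s (by rw [mem_filter]; exact ⟨mem_univ _, by rw [hs]; simp⟩)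
    simp only [hOms, hs] at h2
    exact h2

include hpr in
theorem CTa_iff (Om : J → ℕ → Finset ℕ) (T : S → Option J) (K : ℕ) :
    K % DTa pp T ∈ CTa pp Om T ↔ ∀ s j, T s = some j → K % pp s ∈ Om j (pp s) := by
  classical
  unfold CTa
  rw [mem_filter, mem_range]
  have h0 := DTa_pos pp hpr T
  have h1 : ∀ s j, T s = some j → K % DTa pp T % pp s = K % pp s := by
    intro s j hs
    apply Nat.mod_mod_of_dvd
    unfold DTa
    have := dvd_prod_of_mem (fun s => if T s = none then 1 else pp s) (mem_univ s)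
    simpa [hs] using this
  constructor
  · rintro ⟨_, h⟩ s j hs
    rw [← h1 s j hs]
    exact h s j hs
  · intro h
    refine ⟨Nat.mod_lt _ h0, fun s j hs => ?_⟩
    rw [h1 s j hs]
    exact h s j hs

open Classical in
/-- the indicator of the presieved arguments -/
noncomputable def nua (Om : J → ℕ → Finset ℕ) (W z : ℕ) (K : ℕ) : ℝ :=
  if ∀ p ∈ PS W z, ∀ j, K % p ∉ Om j p then 1 else 0

/-- the classes of all slots -/
def OU (Om : J → ℕ → Finset ℕ) (p : ℕ) : Finset ℕ := univ.biUnion (fun j => Om j p)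

/-- the sieve product of the presieved arguments -/
noncomputable def Va (Om : J → ℕ → Finset ℕ) (W z : ℕ) : ℝ :=
  ∏ p ∈ PS W z, (1 - ((OU Om p).card : ℝ) / p)

theorem notMem_OU (Om : J → ℕ → Finset ℕ) (p r : ℕ) : r ∉ OU Om p ↔ ∀ j, r ∉ Om j p := by
  unfold OU
  simp

open Classical in
/-- the colour of a prime at an argument -/
noncomputable def xa (Om : J → ℕ → Finset ℕ) (K : ℕ) (s : S) : Option J :=
  if h : ∃ j, K % pp s ∈ Om j (pp s) then some h.choose else none

theorem xa_iff (Om : J → ℕ → Finset ℕ) (K : ℕ) (s : S)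
    (hU : ∀ i j, K % pp s ∈ Om i (pp s) → K % pp s ∈ Om j (pp s) → i = j) (j : J) :
    xa pp Om K s = some j ↔ K % pp s ∈ Om j (pp s) := by
  unfold xa
  split_ifs with h
  · rw [Option.some.injEq]
    constructor
    · rintro rfl
      exact h.choose_spec
    · intro h1
      exact hU _ _ h.choose_spec h1
  · simp only [reduceCtorEq, false_iff]
    intro h1
    exact h ⟨j, h1⟩

open Classical in
include hpr hinj in
theorem cnt_Ta (Om : J → ℕ → Finset ℕ) (rho : S → ℕ)
    (hOm : ∀ j s, (Om j (pp s)).card = rho s ∧ ∀ c ∈ Om j (pp s), c < pp s)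
    (hU : ∀ K s i j, K % pp s ∈ Om i (pp s) → K % pp s ∈ Om j (pp s) → i = j)
    (C b₀ W J' z M L : ℕ) (hW1 : 1 ≤ W) (hz : ∀ s, z < pp s)
    (hC : ∀ (D a : ℕ), 1 ≤ D → (∀ p ∈ PS W z, ¬ p ∣ D) →
      |(((Ioc M (M + L)).filter (fun K => K % D = a % D ∧
      ∀ p ∈ PS W z, K % p ∉ OU Om p)).card : ℝ) - (L : ℝ) / D * Va Om W z| ≤
      (1 / 2 : ℝ) ^ b₀ * ((L : ℝ) / D * Va Om W z) + ((2 : ℝ) ^ 2 ^ J') ^ (C * b₀))
    (T : S → Option J) :
    |∑ K ∈ Ioc M (M + L), nua Om W z K * (if Sub T (xa pp Om K) then 1 else 0) -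
      (L * Va Om W z) * ∏ s, rr (fun _ => (rho s : ℝ) / pp s) (T s)| ≤
    ((1 / 2 : ℝ) ^ b₀ * (L * Va Om W z) + DTa pp T * ((2 : ℝ) ^ 2 ^ J') ^ (C * b₀)) *
      ∏ s, rr (fun _ => (rho s : ℝ) / pp s) (T s) := by
  set D := DTa pp T with hD
  have hD0 : 0 < D := DTa_pos pp hpr T
  have hDr : (0 : ℝ) < D := by exact_mod_cast hD0
  -- the count by classes
  have h1 : ∑ K ∈ Ioc M (M + L), nua Om W z K * (if Sub T (xa pp Om K) then 1 else 0) =
      ∑ r ∈ CTa pp Om T, (((Ioc M (M + L)).filter (fun K => K % D = r % D ∧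
      ∀ p ∈ PS W z, K % p ∉ OU Om p)).card : ℝ) := by
    have e1 : ∀ K ∈ Ioc M (M + L), nua Om W z K * (if Sub T (xa pp Om K) then 1 else 0) =
        ∑ r ∈ CTa pp Om T, if (K % D = r % D ∧
          ∀ p ∈ PS W z, K % p ∉ OU Om p) then (1 : ℝ) else 0 := by
      intro K _
      by_cases hK : ∀ p ∈ PS W z, ∀ i, K % p ∉ Om i p
      · have hν : nua Om W z K = 1 := by unfold nua; rw [if_pos hK]
        have hK' : ∀ p ∈ PS W z, K % p ∉ OU Om p := fun p hp => (notMem_OU Om p _).2 (hK p hp)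
        rw [hν, one_mul]
        have hsub : Sub T (xa pp Om K) ↔ K % D ∈ CTa pp Om T := by
          rw [hD, CTa_iff pp hpr Om T K]
          constructor
          · intro h s j hs
            rcases h s with h2 | h2
            · rw [hs] at h2; simp at h2
            · rw [hs] at h2
              exact (xa_iff pp Om K s (hU K s) j).1 h2.symm
          · intro h s
            rcases hs : T s with _ | j
            · exact Or.inl rfl
            · exact Or.inr ((xa_iff pp Om K s (hU K s) j).2 (h s j hs)).symm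
        have e2 : ∀ r ∈ CTa pp Om T, (if (K % D = r % D ∧
          ∀ p ∈ PS W z, K % p ∉ OU Om p) then (1 : ℝ) else 0) =
            if r = K % D then 1 else 0 := by
          intro r hr
          have hr' : r % D = r := by
            unfold CTa at hr
            rw [mem_filter, mem_range] at hr
            exact Nat.mod_eq_of_lt hr.1
          rw [hr']
          apply if_congr _ rfl rfl
          constructor
          · rintro ⟨h2, _⟩; exact h2.symm
          · intro h2; exact ⟨h2.symm, hK'⟩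
        rw [sum_congr rfl e2, sum_ite_eq']
        exact if_congr hsub rfl rfl
      · have hν : nua Om W z K = 0 := by unfold nua; rw [if_neg hK]
        rw [hν, zero_mul]
        symm
        apply sum_eq_zero
        intro r _
        rw [if_neg]
        rintro ⟨_, h⟩
        exact hK fun p hp => (notMem_OU Om p _).1 (h p hp)
    rw [sum_congr rfl e1, sum_comm]
    refine sum_congr rfl fun r _ => ?_
    rw [← sum_filter]
    simp
  have hcard := CTa_card pp hpr hinj Om rho hOm T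
  have h2 : (((CTa pp Om T).card : ℕ) : ℝ) =
      D * ∏ s, rr (fun _ => (rho s : ℝ) / pp s) (T s) := by
    rw [hcard, hD]
    unfold DTa
    push_cast
    rw [← prod_mul_distrib]
    refine prod_congr rfl fun s _ => ?_
    rcases T s with _ | j
    · simp [rr]
    · have : (pp s : ℝ) ≠ 0 := by exact_mod_cast (hpr s).ne_zero
      simp only [reduceCtorEq, if_false, rr]
      field_simp
  set V := Va Om W z with hV
  have h3 : (L * V) * ∏ s, rr (fun _ => (rho s : ℝ) / pp s) (T s) =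
      ∑ r ∈ CTa pp Om T, ((L : ℝ) / D * V) := by
    rw [sum_const, nsmul_eq_mul, h2]
    field_simp
  rw [h1, h3, ← sum_sub_distrib]
  refine (abs_sum_le_sum_abs _ _).trans ?_
  have h4 : ∀ r ∈ CTa pp Om T, |((((Ioc M (M + L)).filter (fun K => K % D = r % D ∧
      ∀ p ∈ PS W z, K % p ∉ OU Om p)).card : ℕ) : ℝ) -
      (L : ℝ) / D * V| ≤ (1 / 2 : ℝ) ^ b₀ * ((L : ℝ) / D * V) + ((2 : ℝ) ^ 2 ^ J') ^ (C * b₀) := by
    intro r _
    have h5 := hC D r hD0 (by
      intro p hp hpd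
      have hpp : p.Prime ∧ p ≤ z := by
        unfold PS at hp
        rw [mem_filter, mem_Icc] at hp
        exact ⟨hp.2.1, hp.1.2⟩
      have h6 : p ∣ DTa pp T := hpd
      unfold DTa at h6
      obtain ⟨s, _, hs⟩ := (hpp.1.prime.dvd_finsetProd_iff _).1 h6
      split_ifs at hs
      · exact hpp.1.one_lt.ne' (Nat.dvd_one.1 hs)
      · have h7 := (Nat.prime_dvd_prime_iff_eq hpp.1 (hpr s)).1 hs
        have := hz s
        omega)
    refine le_trans (le_of_eq ?_) h5
    congr!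
  refine (sum_le_sum h4).trans ?_
  rw [sum_const, nsmul_eq_mul, h2]
  apply le_of_eq
  field_simp

end count

open Classical in
theorem Va_low (κ : ℕ) : ∃ c : ℝ, 0 < c ∧ ∀ (J : Type) [Fintype J] [DecidableEq J]
    (Om : J → ℕ → Finset ℕ) (W J' z : ℕ),
    (∀ p : ℕ, p.Prime → ¬ p ∣ W → (OU Om p).card ≤ κ) →
    (∀ p : ℕ, p.Prime → p ≤ κ + 1 → p ∣ W) → z < 2 ^ 2 ^ J' →
    c * (1 / 2 ^ J') ^ (2 * κ) ≤ Va Om W z := by
  obtain ⟨c, hc, H⟩ := Pool.Agent.Y882.PX.V_low κ
  refine ⟨c, hc, ?_⟩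
  intro J _ _ Om W J' z hOm hW hz
  have hr : ∀ p ∈ PS W z, p.Prime ∧ p ≤ z ∧ ¬ p ∣ W ∧ (OU Om p).card ≤ κ ∧ κ + 1 < p := by
    intro p hp
    unfold PS at hp
    rw [mem_filter, mem_Icc] at hp
    obtain ⟨⟨h1, h2⟩, h3, h4⟩ := hp
    refine ⟨h3, h2, h4, hOm p h3 h4, ?_⟩
    by_contra hcon
    exact h4 (hW p h3 (not_lt.1 hcon))
  apply H J' (PS W z) (fun p => ((OU Om p).card : ℝ))
  · intro p hp
    obtain ⟨h1, h2, -, -, -⟩ := hr p hp
    exact ⟨h1, by omega⟩
  · intro p hp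
    obtain ⟨-, -, -, h4, -⟩ := hr p hp
    exact_mod_cast h4
  · intro p hp
    obtain ⟨-, -, -, h4, h5⟩ := hr p hp
    have h6 : (OU Om p).card + 1 ≤ p := by omega
    have h7 : (((OU Om p).card : ℕ) : ℝ) + 1 ≤ p := by exact_mod_cast h6
    linarith

end Pool.Agent.J6H17.QP
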