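import Pool.Agent.J6H17.QP.Par
import Pool.Agent.J6H17.QP.Cnt2
import Pool.Agent.R498.MT.Core0

set_option autoImplicit false
set_option linter.unusedSectionVars false

/-! Weights for almost prime values: one and two slots. -/

namespace Pool.Agent.J6H17.QP

open Finset Filter
open Pool.Agent.R498.MT
open Pool.Agent.Y677.RSZ (rt Sys per_mod ev_log)
open Pool.Agent.TH423.SH (PS)
open Pool.Agent.W23.DC
open Pool.Agent.Y882
open Pool.Agent.Y882.PX
open Pool.Agent.Y882.KW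

/-- the tolerances exist -/
theorem exTol (K C C' : ℕ) (C₁ η β κ : ℝ) (hC₁ : 0 ≤ C₁) (hη : 0 < η) (hη1 : η ≤ 1) (hβ : 0 < β)
    (hβ1 : β ≤ 1) (hκ : 0 < κ) :
    ∃ (ε₁ ω : ℝ) (b₀ : ℕ), 0 < ε₁ ∧ ε₁ ≤ β ∧ C' ≤ b₀ ∧ Tol K C₁ ε₁ ω (2 * (1 / 2 : ℝ) ^ b₀) η ∧
      2 * ε₁ * (C * b₀) ≤ κ := by
  set A : ℕ := 16 * K ^ 2 + 1 with hA
  set β' : ℝ := η / (2 * ((1 + C₁) * Real.exp (16 * (K : ℝ) ^ 2))) with hβ'
  have hex : 0 < Real.exp (16 * (K : ℝ) ^ 2) := Real.exp_pos _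
  have hβ'0 : 0 < β' := by rw [hβ']; positivity
  have h1 : Tendsto (fun s : ℕ => (s : ℝ) * (1 / 2 : ℝ) ^ s) atTop (nhds 0) := by
    have := tendsto_pow_const_mul_const_pow_of_abs_lt_one 1 (show |(1 / 2 : ℝ)| < 1 by
      rw [abs_of_pos (by norm_num)]; norm_num)
    simpa using this
  have h2 : Tendsto (fun s : ℕ => (1 / 2 : ℝ) ^ s) atTop (nhds 0) :=
    tendsto_pow_atTop_nhds_zero_of_lt_one (by norm_num) (by norm_num)
  have h3 : Tendsto (fun s : ℕ => 2 * C * (A * ((s : ℝ) * (1 / 2 : ℝ) ^ s) +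
      (C' + 1) * (1 / 2 : ℝ) ^ s)) atTop (nhds (2 * C * (A * 0 + (C' + 1) * 0))) :=
    ((h1.const_mul _).add (h2.const_mul _)).const_mul _
  rw [show 2 * (C : ℝ) * (A * 0 + (C' + 1) * 0) = 0 by ring] at h3
  obtain ⟨s, hs1, hs2, hs3⟩ := ((h3.eventually_le_const hκ).and
    ((h2.eventually_le_const hβ).and (h2.eventually_le_const hβ'0))).exists
  set ε₁ : ℝ := (1 / 2 : ℝ) ^ s with hε₁
  have hε : 0 < ε₁ := by positivity
  have hε1 : ε₁ ≤ 1 := hs2.trans hβ1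
  have hAK := AK_one K ε₁ hε hε1
  have hAK0 : 0 < AK K ε₁ := by linarith
  have hK2 : (0 : ℝ) ≤ (K : ℝ) ^ 2 := sq_nonneg _
  set d : ℝ := 24 * ((1 + C₁) * AK K ε₁ ^ 2 * ((K : ℝ) ^ 2 + 1)) with hd
  have hC1' : 1 ≤ 1 + C₁ := by linarith
  have hAK2 : 1 ≤ AK K ε₁ ^ 2 := one_le_pow₀ hAK
  have hq : 1 ≤ (1 + C₁) * AK K ε₁ ^ 2 := by nlinarith
  have hd96 : 24 * ((K : ℝ) ^ 2 + 1) ≤ d := by
    rw [hd]
    nlinarith
  have hd0 : 0 < d := by linarith
  set ω : ℝ := η / (4 * d) with hω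
  have hω0 : 0 < ω := by rw [hω]; positivity
  have hω96 : ω ≤ 1 / (96 * ((K : ℝ) ^ 2 + 1)) := by
    rw [hω]
    calc η / (4 * d) ≤ 1 / (4 * d) := div_le_div_of_nonneg_right hη1 (by positivity)
      _ ≤ 1 / (96 * ((K : ℝ) ^ 2 + 1)) := by
          apply one_div_le_one_div_of_le (by positivity)
          linarith
  refine ⟨ε₁, ω, s * A + C' + 1, hε, hs2, by omega, ?_, ?_⟩
  · refine ⟨hω0, ?_, ?_, ?_, ?_, by positivity, hC₁, hη1⟩
    · refine hω96.trans ?_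
      rw [div_le_div_iff₀ (by positivity) (by norm_num)]
      linarith
    · calc (K : ℝ) ^ 2 * ω ≤ ((K : ℝ) ^ 2 + 1) * (1 / (96 * ((K : ℝ) ^ 2 + 1))) := by
            apply mul_le_mul (by linarith) hω96 hω0.le (by positivity)
        _ = 1 / 96 := by
            have : (K : ℝ) ^ 2 + 1 ≠ 0 := by positivity
            field_simp
    · have e1 : AK K ε₁ ≤ d := by
        rw [hd]
        have e2 : AK K ε₁ ≤ AK K ε₁ ^ 2 := by nlinarith
        have e3 : AK K ε₁ ^ 2 ≤ (1 + C₁) * AK K ε₁ ^ 2 := by nlinarith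
        nlinarith
      calc ω * AK K ε₁ ≤ ω * d := mul_le_mul_of_nonneg_left e1 hω0.le
        _ = η / 4 := by rw [hω]; field_simp
        _ ≤ 1 / 2 := by linarith
    · -- the main tolerance
      have hE : 2 * (1 / 2 : ℝ) ^ (s * A + C' + 1) ≤ ε₁ ^ A := by
        have e1 : ε₁ ^ A = (1 / 2 : ℝ) ^ (s * A) := by rw [hε₁, ← pow_mul]
        rw [e1, pow_add, pow_add]
        have h4 : (1 / 2 : ℝ) ^ C' ≤ 1 := pow_le_one₀ (by norm_num) (by norm_num)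
        have h5 : 0 < (1 / 2 : ℝ) ^ (s * A) := by positivity
        nlinarith
      have h4 : (1 + C₁) * AK K ε₁ ^ 2 * (2 * (1 / 2 : ℝ) ^ (s * A + C' + 1)) ≤ η / 2 := by
        have e1 : AK K ε₁ ^ 2 * ε₁ ^ A = Real.exp (16 * (K : ℝ) ^ 2) * ε₁ := by
          unfold AK
          rw [mul_pow, ← Real.exp_nat_mul, ← pow_mul, one_div, inv_pow]
          have e1 : 8 * K ^ 2 * 2 = 16 * K ^ 2 := by ring
          rw [e1, hA, pow_succ ε₁ (16 * K ^ 2)]
          have h4 : ε₁ ^ (16 * K ^ 2) ≠ 0 := pow_ne_zero _ hε.ne'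
          have e2 : ((2 : ℕ) : ℝ) * (8 * (K : ℝ) ^ 2) = 16 * (K : ℝ) ^ 2 := by
            push_cast; ring
          rw [e2]
          field_simp
        calc (1 + C₁) * AK K ε₁ ^ 2 * (2 * (1 / 2 : ℝ) ^ (s * A + C' + 1)) ≤
            (1 + C₁) * AK K ε₁ ^ 2 * ε₁ ^ A := mul_le_mul_of_nonneg_left hE (by positivity)
          _ = (1 + C₁) * (Real.exp (16 * (K : ℝ) ^ 2) * ε₁) := by rw [mul_assoc, e1]
          _ ≤ (1 + C₁) * (Real.exp (16 * (K : ℝ) ^ 2) * β') := by gcongr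
          _ = η / 2 := by
              rw [hβ']
              field_simp
      have h5 : (1 + C₁) * AK K ε₁ ^ 2 * (Real.exp (6 * (K : ℝ) ^ 2 * ω) - 1) ≤ η / 2 := by
        have hx0 : 0 ≤ 6 * (K : ℝ) ^ 2 * ω := by positivity
        have hx1 : 6 * (K : ℝ) ^ 2 * ω ≤ 1 := by
          have : (K : ℝ) ^ 2 * ω ≤ 1 / 96 := by
            calc (K : ℝ) ^ 2 * ω ≤ ((K : ℝ) ^ 2 + 1) * (1 / (96 * ((K : ℝ) ^ 2 + 1))) := by
                  apply mul_le_mul (by linarith) hω96 hω0.le (by positivity)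
              _ = 1 / 96 := by
                  have : (K : ℝ) ^ 2 + 1 ≠ 0 := by positivity
                  field_simp
          linarith
        have e1 : Real.exp (6 * (K : ℝ) ^ 2 * ω) - 1 ≤ 2 * (6 * (K : ℝ) ^ 2 * ω) := by
          have h3 := Real.abs_exp_sub_one_le (x := 6 * (K : ℝ) ^ 2 * ω) (by
            rw [abs_of_nonneg hx0]; exact hx1)
          rw [abs_of_nonneg hx0] at h3
          exact (le_abs_self _).trans h3
        have e2 : 0 ≤ (1 + C₁) * AK K ε₁ ^ 2 := by positivity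
        calc (1 + C₁) * AK K ε₁ ^ 2 * (Real.exp (6 * (K : ℝ) ^ 2 * ω) - 1) ≤
            (1 + C₁) * AK K ε₁ ^ 2 * (2 * (6 * (K : ℝ) ^ 2 * ω)) :=
              mul_le_mul_of_nonneg_left e1 e2
          _ ≤ (1 + C₁) * AK K ε₁ ^ 2 * (2 * (6 * ((K : ℝ) ^ 2 + 1) * ω)) := by
              apply mul_le_mul_of_nonneg_left _ e2
              have : (K : ℝ) ^ 2 * ω ≤ ((K : ℝ) ^ 2 + 1) * ω :=
                mul_le_mul_of_nonneg_right (by linarith) hω0.le
              linarith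
          _ = ω * d / 2 := by rw [hd]; ring
          _ = η / 8 := by rw [hω]; field_simp; norm_num
          _ ≤ η / 2 := by linarith
      rw [mul_add]
      linarith
  · push_cast
    refine le_trans (le_of_eq ?_) hs1
    rw [hε₁]
    ring

section slots
variable {J : Type}

/-- the classes of the slot `i` at `p` -/
def Omq (G : ℤ → ℤ) (a s : J → ℕ) (i : J) (p : ℕ) : Finset ℕ :=
  (range p).filter (fun K : ℕ => (p : ℤ) ∣ G ((a i * K + s i : ℕ) : ℤ))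

theorem Omq_iff {G : ℤ → ℤ} (hG : ∀ p : ℕ, p.Prime → ∀ n : ℤ, (p : ℤ) ∣ G (n + p) - G n)
    (a s : J → ℕ) (i : J) {p : ℕ} (hp : p.Prime) (K : ℕ) :
    K % p ∈ Omq G a s i p ↔ (p : ℤ) ∣ G ((a i * K + s i : ℕ) : ℤ) := by
  unfold Omq
  rw [mem_filter, mem_range]
  have h1 : K % p < p := Nat.mod_lt _ hp.pos
  simp only [h1, true_and]
  exact per_mod hG hp _ _ (((Nat.mod_modEq K p).mul_left _).add_right _)

/-- the conditions on the slots -/
structure SL (G : ℤ → ℤ) (W : ℕ) (a s : J → ℕ) (Bd : ℕ) : Prop where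
  a1 : ∀ i, 1 ≤ a i
  loc : ∀ p : ℕ, p.Prime → p ∣ W → ∀ i K, ¬ (p : ℤ) ∣ G ((a i * K + s i : ℕ) : ℤ)
  pri : ∀ p : ℕ, p.Prime → ¬ p ∣ W → ∀ i, p ∣ a i → ∀ K, ¬ (p : ℤ) ∣ G ((a i * K + s i : ℕ) : ℤ)
  unq : ∀ p : ℕ, p.Prime → Bd < p → ∀ K i j, (p : ℤ) ∣ G ((a i * K + s i : ℕ) : ℤ) →
    (p : ℤ) ∣ G ((a j * K + s j : ℕ) : ℤ) → i = j

theorem Omq_card_eq {g : ℕ} {G : ℤ → ℤ} (hG : Sys g G) (a s : J → ℕ) (i : J) {p : ℕ} (hp : p.Prime)
    (hpa : ¬ p ∣ a i) : (Omq G a s i p).card = rt G p := by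
  have h := Pool.Agent.Y833.RSZ.card_shift hp (hG.per p hp) (a i) (s i) 0 hpa
  simpa [Omq] using h

theorem Omq_card_le {g : ℕ} {G : ℤ → ℤ} (hG : Sys g G) {W : ℕ} {a s : J → ℕ} {Bd : ℕ}
    (hS : SL G W a s Bd) (i : J) {p : ℕ} (hp : p.Prime) (hpW : ¬ p ∣ W) :
    (Omq G a s i p).card ≤ g := by
  by_cases hpa : p ∣ a i
  · have : Omq G a s i p = ∅ := by
      unfold Omq
      rw [filter_eq_empty_iff]
      intro K _
      exact hS.pri p hp hpW i hpa K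
    rw [this]
    simp
  · rw [Omq_card_eq hG a s i hp hpa]
    exact (hG.root p hp).1

theorem Omq_lt (G : ℤ → ℤ) (a s : J → ℕ) (i : J) (p : ℕ) : ∀ c ∈ Omq G a s i p, c < p := by
  intro c hc
  unfold Omq at hc
  exact mem_range.1 (mem_filter.1 hc).1

end slots

open Classical in
/-- the weights of one slot -/
theorem slot_wJ {J : Type} (G : ℤ → ℤ)
    (hG : ∀ p : ℕ, p.Prime → ∀ n : ℤ, (p : ℤ) ∣ G (n + p) - G n)
    (Y : ℕ) (ε₁ υ : ℝ) (hY : 2 ≤ Y) (cL0 : Finset ℕ → ℝ) (n : ℕ) (i : J)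
    (ξ : Pg G Y ε₁ υ → Option J)
    (hξ : ∀ s, ξ s = some i ↔ ((s : ℕ) : ℤ) ∣ G (n : ℤ)) :
    ∑ T : Finset (Pg G Y ε₁ υ), cL0 (T.map (Function.Embedding.subtype _)) *
      (if ∀ t ∈ T, ξ t = some i then 1 else 0) =
    VV (pr Y ε₁ υ) cL0 (fun p => if p ∣ (G (n : ℤ)).natAbs then 1 else 0) := by
  have hPP : Pg G Y ε₁ υ ⊆ pr Y ε₁ υ := filter_subset _ _
  rw [VV_restrict (pr Y ε₁ υ) (Pg G Y ε₁ υ) hPP cL0
    (fun p => if p ∣ (G (n : ℤ)).natAbs then 1 else 0) (fun p hp hp' => by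
      rw [if_neg]
      intro h
      have h0 : rt G p = 0 := by
        by_contra h1
        exact hp' (mem_filter.2 ⟨hp, h1⟩)
      have hpp : p.Prime := (pr_mem Y p ε₁ υ hY hp).1
      exact rt_zero hG p hpp h0 n (Int.natCast_dvd.2 h))]
  refine sum_congr rfl fun T _ => ?_
  congr 1
  rw [Finset.prod_ite_zero]
  simp only [prod_const_one]
  apply if_congr _ rfl rfl
  refine forall₂_congr fun s _ => ?_
  rw [hξ s, Int.natCast_dvd]

/-- the weight of the arguments with few prime factors -/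
theorem Lam_finJ {S J : Type} [Fintype S] [DecidableEq S] [Fintype J] [DecidableEq J] [Nonempty J]
    {ε₁ R w ω : ℝ} (hε : 0 < ε₁) (hεw : ε₁ ≤ w)
    {q μ l : S → ℝ} (hd : Dat q μ l ε₁ R w ω) (y : (S → Option J) → ℝ) (hy : ∀ σ, |y σ| ≤ 1)
    (x : S → Option J) (c : ℕ)
    (hx : (univ.filter (fun t => x t ≠ none)).card ≤ c) :
    Lam none q μ y x ^ 2 ≤ (AK (Fintype.card J) ε₁ * 2 ^ c) ^ 2 := by
  have hmq : ∀ t, μ t * (q t - 1) ≤ 1 := by
    intro t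
    rcases hd.mq t with h | h
    · rw [h]; norm_num
    · exact h.le
  have h1 := Lam_bd (J := J) none q μ hd.q2 hd.m0 hmq y hy x
  have h2 : ∏ t, (1 + (Fintype.card J : ℝ) * μ t) ≤ AK (Fintype.card J) ε₁ := by
    refine le_trans ?_ (AA_AK (J := J) hd hε hεw)
    unfold AA
    apply Finset.prod_le_prod
    · intro t _
      have := hd.m0 t
      positivity
    · intro t _
      have h3 := hd.m0 t
      have h4 : (1 : ℝ) ≤ (Fintype.card J : ℝ) := by exact_mod_cast Fintype.card_pos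
      have h5 : (Fintype.card J : ℝ) * μ t ≤ 8 * (Fintype.card J : ℝ) ^ 2 * μ t := by
        apply mul_le_mul_of_nonneg_right _ h3
        nlinarith
      linarith
  have h3 : (2 : ℝ) ^ (univ.filter (fun t => x t ≠ none)).card ≤ 2 ^ c :=
    pow_le_pow_right₀ (by norm_num) hx
  have h4 : |Lam none q μ y x| ≤ AK (Fintype.card J) ε₁ * 2 ^ c := by
    refine h1.trans ?_
    have h5 : 0 ≤ ∏ t, (1 + (Fintype.card J : ℝ) * μ t) :=
      prod_nonneg fun t _ => by have := hd.m0 t; positivity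
    exact mul_le_mul h2 h3 (by positivity) (h5.trans h2)
  rw [← sq_abs]
  exact pow_le_pow_left₀ (abs_nonneg _) h4 2

open Classical in
/-- the number of the coloured primes -/
theorem few_cJ {J : Type} [Fintype J] [DecidableEq J] (G : ℤ → ℤ) (D : ℕ)
    (hGs : ∀ n : ℕ, G (n : ℤ) ≠ 0 ∧ (G (n : ℤ)).natAbs ≤ (n + 2) ^ D)
    (a s : J → ℕ) (Na c' Y K : ℕ) (ε₁ υ : ℝ) (hε : 0 < ε₁) (hN : ∀ i, a i + s i ≤ Na)
    (hc' : (Fintype.card J : ℝ) * (2 * D / ε₁) ≤ c') (hY2' : 2 ≤ Y) (e4 : Na + 2 ≤ Y) (hK : K ≤ Y)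
    (ξ : Pg G Y ε₁ υ → Option J)
    (hξ : ∀ r j, ξ r = some j ↔ ((r : ℕ) : ℤ) ∣ G ((a j * K + s j : ℕ) : ℤ)) :
    (univ.filter (fun r => ξ r ≠ none)).card ≤ c' := by
  have h3 : univ.filter (fun r => ξ r ≠ none) ⊆ univ.biUnion (fun i : J =>
      univ.filter (fun r : Pg G Y ε₁ υ => ((r : ℕ) : ℤ) ∣ G ((a i * K + s i : ℕ) : ℤ))) := by
    intro r hr
    rw [mem_filter] at hr
    rw [mem_biUnion]
    rcases h4 : ξ r with _ | i
    · exact absurd h4 hr.2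
    · exact ⟨i, mem_univ i, mem_filter.2 ⟨mem_univ r, (hξ r i).1 h4⟩⟩
  have h4 := (card_le_card h3).trans card_biUnion_le
  have h5 : ∀ i : J, ((univ.filter (fun r : Pg G Y ε₁ υ =>
      ((r : ℕ) : ℤ) ∣ G ((a i * K + s i : ℕ) : ℤ))).card : ℝ) ≤ 2 * D / ε₁ := by
    intro i
    apply few_t G Y ε₁ υ hY2' hε _ (hGs _).1
    have h6 := (hGs (a i * K + s i)).2
    have h7 : a i * K + s i + 2 ≤ Y ^ 2 := by
      have h8 := hN i
      have h9 : a i * K ≤ a i * Y := Nat.mul_le_mul_left _ hK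
      have h10 : (a i + s i + 2) * Y ≤ Y * Y := Nat.mul_le_mul_right _ (by omega)
      have h11 : s i ≤ s i * Y := Nat.le_mul_of_pos_right _ (by omega)
      have h12 : (a i + s i + 2) * Y = a i * Y + s i * Y + 2 * Y := by ring
      rw [sq]
      omega
    have h8 : ((G ((a i * K + s i : ℕ) : ℤ)).natAbs : ℝ) ≤ ((Y : ℝ) ^ 2) ^ D := by
      exact_mod_cast h6.trans (Nat.pow_le_pow_left h7 D)
    refine h8.trans (le_of_eq ?_)
    rw [← pow_mul, ← Real.rpow_natCast]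
    push_cast
    rfl
  have h6 : (((univ.filter (fun r => ξ r ≠ none)).card : ℕ) : ℝ) ≤ c' := by
    refine le_trans ?_ hc'
    calc (((univ.filter (fun r => ξ r ≠ none)).card : ℕ) : ℝ) ≤
        ∑ i : J, ((univ.filter (fun r : Pg G Y ε₁ υ =>
          ((r : ℕ) : ℤ) ∣ G ((a i * K + s i : ℕ) : ℤ))).card : ℝ) := by exact_mod_cast h4
      _ ≤ ∑ _i : J, 2 * D / ε₁ := sum_le_sum fun i _ => h5 i
      _ = _ := by rw [sum_const, card_univ, nsmul_eq_mul]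
  exact_mod_cast h6

/-- the output of the sieve at one place -/
structure Out {J : Type} (G : ℤ → ℤ) (a s : J → ℕ) (Y M L : ℕ) (ε₁ ζ υ aw bw c₀ C₂ η Bb : ℝ)
    (k : J → ℕ) (u : J → ℝ) (wt : ℕ → ℝ) (p : J → ℝ) (Z : ℝ) : Prop where
  w0 : ∀ K ∈ Ioc M (M + L), 0 ≤ wt K ∧ wt K ≤ Bb
  ns : ∀ K ∈ Ioc M (M + L), wt K ≠ 0 → ∀ p : ℕ, p.Prime → (p : ℝ) < (Y : ℝ) ^ ε₁ → ∀ i,
    ¬ (p : ℤ) ∣ G ((a i * K + s i : ℕ) : ℤ)
  tot : ∑ K ∈ Ioc M (M + L), wt K ≤ 2 * Z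
  plow : ∀ i, ((k i : ℝ) + 1) ^ 2 * u i / 960 ≤ p i
  one : ∀ i, ∀ A : Finset ℕ, (∀ K, K ∈ A ↔ K ∈ Ioc M (M + L) ∧
    0 < WW Y ζ υ aw bw (G ((a i * K + s i : ℕ) : ℤ)).natAbs) → Z * (c₀ * p i - η) ≤ ∑ K ∈ A, wt K
  two : ∀ i j, i ≠ j → ∀ A : Finset ℕ, (∀ K ∈ A, K ∈ Ioc M (M + L) ∧
    0 < WW Y ζ υ aw bw (G ((a i * K + s i : ℕ) : ℤ)).natAbs ∧
    0 < WW Y ζ υ aw bw (G ((a j * K + s j : ℕ) : ℤ)).natAbs) →
    ∑ K ∈ A, wt K ≤ Z * (C₂ * p i * p j + η)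

/-- positive weights: no small prime factor -/
theorem WW_ne (Y : ℕ) (ζ υ a b : ℝ) (N : ℕ) (h : 0 < WW Y ζ υ a b N) (p : ℕ) (hpY : p ≤ Y)
    (hp : p.Prime) (hpN : p ∣ N) : ζ ≤ tt Y p := by
  classical
  by_contra hcon
  push Not at hcon
  unfold WW at h
  rw [if_neg, zero_mul] at h
  · exact lt_irrefl _ h
  · intro h1
    refine h1 p ?_ hpN
    unfold PZ
    rw [mem_filter, mem_Icc]
    exact ⟨⟨hp.one_le, hpY⟩, hp, hcon⟩

open Classical in
/-- the sums at one place -/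
theorem coreQ1 {J : Type} [Fintype J] [DecidableEq J] [Nonempty J] (G : ℤ → ℤ) (g : ℕ)
    (hG : Sys g G) (D : ℕ)
    (hGs : ∀ n : ℕ, G (n : ℤ) ≠ 0 ∧ (G (n : ℤ)).natAbs ≤ (n + 2) ^ D)
    (W c' Na b₀ Y M L z : ℕ) (a s : J → ℕ) (Bd : ℕ) (hS : SL G W a s Bd)
    (τ ζ υ aw bw R f0 ε₁ ω η : ℝ) (hτ0 : 0 ≤ τ) (hτ : τ ≤ 1)
    (hυ : ε₁ ≤ υ) (ha : 0 ≤ aw) (hb : 0 ≤ bw) (hab : bw * υ ≤ aw)
    (hR : 0 < R) (hRζ : 3 * R < ζ) (hR1 : 2 * R ≤ 1) (hRτ : 4 * R ≤ τ) (hf0 : 0 < f0) (hε : 0 < ε₁)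
    (hε4 : 4 * ε₁ ≤ R)
    (k : J → ℕ) (u : J → ℝ) (hSP : SP k u ε₁ R)
    (hTol : Tol (Fintype.card J) (1 + aw) ε₁ ω (2 * (1 / 2 : ℝ) ^ b₀) η)
    (hc' : (Fintype.card J : ℝ) * (2 * D / ε₁) ≤ c') (hN : ∀ i, a i + s i ≤ Na)
    (e4 : Na + 2 ≤ Y) (hMY : M + L ≤ Y)
    (hz2 : (Y : ℝ) ^ ε₁ ≤ z + 1)
    (cL0 : Finset ℕ → ℝ) (hc1 : ∀ T, |cL0 T| ≤ 1 + aw)
    (hc2 : ∀ T ⊆ pr Y ε₁ υ, cL0 T ≠ 0 → ((∏ p ∈ T, p : ℕ) : ℝ) ≤ (Y : ℝ) ^ τ)
    (hc3 : ∀ N : ℕ, VV (pr Y ε₁ υ) cL0 (fun p => if p ∣ N then 1 else 0) ≤ WB Y ε₁ ζ υ aw bw N)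
    (hc4 : ε₁ * f0 ≤ VV (pr Y ε₁ υ) cL0 (fun p => (rt G p : ℝ) / p))
    (hd : Dat (qs G Y ε₁ υ) (mus G Y ε₁ υ) (ls G Y ε₁ υ) ε₁ R υ ω)
    (hU : ∀ (K : ℕ) (r : Pg G Y ε₁ υ) i j, ((r : ℕ) : ℤ) ∣ G ((a i * K + s i : ℕ) : ℤ) →
      ((r : ℕ) : ℤ) ∣ G ((a j * K + s j : ℕ) : ℤ) → i = j)
    (hV0 : 0 < Va (Omq G a s) W z)
    (hcnt : Cnt (Ioc M (M + L)) (nua (Omq G a s) W z)
      (xa (fun r : Pg G Y ε₁ υ => (r : ℕ)) (Omq G a s))
      (fun r _ => 1 / qs G Y ε₁ υ r) (L * Va (Omq G a s) W z) (2 * (1 / 2 : ℝ) ^ b₀)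
      (fun T => lt (ls G Y ε₁ υ) T ≤ 2 * R + τ)) :
    ∃ (wt : ℕ → ℝ) (p : J → ℝ) (Z : ℝ), L * Va (Omq G a s) W z ≤ Z ∧
      Out G a s Y M L ε₁ ζ υ aw bw (f0 / 8) (200 / R ^ 2) η ((AK (Fintype.card J) ε₁ * 2 ^ c') ^ 2)
        k u wt p Z := by
  have hY2' : 2 ≤ Y := by omega
  have hξ : ∀ K (r : Pg G Y ε₁ υ) j,
      xa (fun r : Pg G Y ε₁ υ => (r : ℕ)) (Omq G a s) K r = some j ↔
        ((r : ℕ) : ℤ) ∣ G ((a j * K + s j : ℕ) : ℤ) := by
    intro K r j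
    have hrp := (Pg_mem G Y ε₁ υ hY2' r).1
    have h1 := xa_iff (fun r : Pg G Y ε₁ υ => (r : ℕ)) (Omq G a s) K r (fun i j h1 h2 =>
      hU K r i j ((Omq_iff hG.per a s i hrp K).1 h1) ((Omq_iff hG.per a s j hrp K).1 h2)) j
    rw [h1]
    exact Omq_iff hG.per a s j hrp K
  have hX : 0 ≤ (L : ℝ) * Va (Omq G a s) W z := by positivity
  have hl0 : ∀ t, 0 ≤ ls G Y ε₁ υ t := fun t => hε.le.trans (hd.l1 t)
  have hI1 := Ik_one hd hε hSP
  set q := qs G Y ε₁ υ with hq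
  set μ := mus G Y ε₁ υ with hμ
  set l := ls G Y ε₁ υ with hl
  set ν := nua (Omq G a s) W z with hν
  set ξ := xa (fun r : Pg G Y ε₁ υ => (r : ℕ)) (Omq G a s) with hξd
  set X := (L : ℝ) * Va (Omq G a s) W z with hXd
  have hν0 : ∀ K, 0 ≤ ν K := by
    intro K
    rw [hν]
    unfold nua
    split_ifs <;> norm_num
  have hν1 : ∀ K, ν K ≤ 1 := by
    intro K
    rw [hν]
    unfold nua
    split_ifs <;> norm_num
  -- no small prime factors
  have hsmall : ∀ K, ν K ≠ 0 → ∀ p : ℕ, p.Prime → (p : ℝ) < (Y : ℝ) ^ ε₁ → ∀ i,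
      ¬ (p : ℤ) ∣ G ((a i * K + s i : ℕ) : ℤ) := by
    intro K hK p hp hpY i hdvd
    have h1 : ∀ p ∈ PS W z, ∀ j, K % p ∉ Omq G a s j p := by
      by_contra hcon
      apply hK
      rw [hν]
      unfold nua
      rw [if_neg hcon]
    by_cases hpW : p ∣ W
    · exact hS.loc p hp hpW i K hdvd
    · have hpz : p ≤ z := by
        have : (p : ℝ) < z + 1 := hpY.trans_le hz2
        have : p < z + 1 := by exact_mod_cast this
        omega
      refine h1 p ?_ i ((Omq_iff hG.per a s i hp K).2 hdvd)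
      unfold PS
      rw [mem_filter, mem_Icc]
      exact ⟨⟨hp.one_lt.le, hpz⟩, hp, hpW⟩
  have hyk : ∀ σ : Pg G Y ε₁ υ → Option J, |yk l k u R σ| ≤ 1 := fun σ => by
    have := yk_facts l hl0 k u ε₁ R hε hSP σ
    rw [abs_of_nonneg this.1]
    exact this.2.1
  refine ⟨fun K => ν K * Lam none q μ (yk l k u R) (ξ K) ^ 2,
    fun i => ε₁ * (Hk μ l k u i ^ 2 / I2k μ l k u i), X * Ik μ l k u, ?_, ?_⟩
  · nlinarith
  refine ⟨?_, ?_, ?_, ?_, ?_, ?_⟩
  · intro K hK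
    refine ⟨mul_nonneg (hν0 K) (sq_nonneg _), ?_⟩
    have h1 := Lam_finJ hε hυ hd (yk l k u R) hyk (ξ K) c'
      (few_cJ G D hGs a s Na c' Y K ε₁ υ hε hN hc' hY2' e4 (by
        rw [mem_Ioc] at hK
        omega) (ξ K) (fun r j => hξ K r j))
    calc ν K * Lam none q μ (yk l k u R) (ξ K) ^ 2 ≤ 1 * Lam none q μ (yk l k u R) (ξ K) ^ 2 :=
          mul_le_mul_of_nonneg_right (hν1 K) (sq_nonneg _)
      _ ≤ _ := by rw [one_mul]; exact h1
  · intro K _ hK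
    exact hsmall K (fun h => hK (by rw [h, zero_mul]))
  · have h1 := S1k hR hε hd hTol hSP (2 * R + τ) (by linarith) hX hcnt
    exact h1
  · intro i
    obtain ⟨c1, c2, -, -, -⟩ := sumsk (J := J) hR hε hTol.o1 hd hSP i
    have hu0 : 0 < u i := by have := hSP.u4 i; linarith
    have hI := I2k_one hd hε hSP i
    have hI0 : 0 < I2k μ l k u i := by linarith
    have h1 : ((k i : ℝ) + 1) ^ 2 * u i / 960 * I2k μ l k u i ≤ ε₁ * Hk μ l k u i ^ 2 := by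
      have h2 : ((k i : ℝ) + 1) ^ 2 * u i / 960 * I2k μ l k u i ≤
          ((k i : ℝ) + 1) ^ 2 * u i / 960 * (12 / 5 * (u i / ε₁)) :=
        mul_le_mul_of_nonneg_left c2 (by positivity)
      have h3 : (((k i : ℝ) + 1) / 2 * (u i / ε₁ / 10)) ^ 2 ≤ Hk μ l k u i ^ 2 := by
        apply pow_le_pow_left₀ (by positivity)
        refine le_trans ?_ c1
        apply mul_le_mul_of_nonneg_right _ (by positivity)
        linarith
      have h4 := mul_le_mul_of_nonneg_left h3 hε.le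
      refine h2.trans (le_trans (le_of_eq ?_) h4)
      field_simp
      ring
    rw [← mul_div_assoc, le_div_iff₀ hI0]
    exact h1
  · intro i A hA
    have hS2 := S2k hR hε hτ hf0.le hd hTol hSP i
      (fun T => cL0 (T.map (Function.Embedding.subtype _))) (fun T => hc1 _)
      (fun T hT => lz_le G Y ε₁ υ hY2' T τ (hc2 _ (by
        intro p hp
        rw [Finset.mem_map] at hp
        obtain ⟨r, _, rfl⟩ := hp
        exact (mem_filter.1 r.2).1) hT))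
      (fun t => by
        have h1 := hd.q2 t
        rw [hμ]
        unfold mus
        apply one_div_le_one_div_of_le (by linarith)
        linarith)
      (N := Ioc M (M + L)) (ν := ν) (ξ := ξ) (X := X) hX
      (by
        refine hc4.trans (le_of_eq ?_)
        rw [VV_restrict (pr Y ε₁ υ) (Pg G Y ε₁ υ) (filter_subset _ _) cL0
          (fun p => (rt G p : ℝ) / p) (fun p hp hp' => by
            have h0 : rt G p = 0 := by
              by_contra h1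
              exact hp' (mem_filter.2 ⟨hp, h1⟩)
            rw [h0]
            simp)]
        refine sum_congr rfl fun T _ => ?_
        congr 1
        refine prod_congr rfl fun r _ => ?_
        rw [hq]
        unfold qs
        rw [one_div, inv_div]) hcnt
    refine hS2.trans ?_
    have e1 : ∀ K ∈ Ioc M (M + L), ν K * (Lam (some i) q μ (yk l k u R) (ξ K) ^ 2 *
        ∑ T : Finset (Pg G Y ε₁ υ), cL0 (T.map (Function.Embedding.subtype _)) *
          (if ∀ t ∈ T, ξ K t = some i then 1 else 0)) ≤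
        if K ∈ A then ν K * Lam none q μ (yk l k u R) (ξ K) ^ 2 else 0 := by
      intro K hK
      have hnn : 0 ≤ ν K * Lam none q μ (yk l k u R) (ξ K) ^ 2 := mul_nonneg (hν0 K) (sq_nonneg _)
      by_cases hn0 : ν K = 0
      · rw [hn0]
        simp
      have h1 : ∑ T : Finset (Pg G Y ε₁ υ), cL0 (T.map (Function.Embedding.subtype _)) *
          (if ∀ t ∈ T, ξ K t = some i then 1 else 0) ≤
          WB Y ε₁ ζ υ aw bw (G ((a i * K + s i : ℕ) : ℤ)).natAbs := by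
        have h1 := slot_wJ G hG.per Y ε₁ υ hY2' cL0 (a i * K + s i) i (ξ K) (fun r => hξ K r i)
        have h2 := hc3 (G ((a i * K + s i : ℕ) : ℤ)).natAbs
        refine le_trans (le_of_eq ?_) h2
        refine Eq.trans ?_ h1
        refine sum_congr rfl fun T _ => ?_
        congr
      by_cases hw : WB Y ε₁ ζ υ aw bw (G ((a i * K + s i : ℕ) : ℤ)).natAbs ≤ 0
      · have h2 := mul_nonpos_of_nonneg_of_nonpos (sq_nonneg (Lam (some i) q μ (yk l k u R) (ξ K)))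
          (h1.trans hw)
        have h3 := mul_nonpos_of_nonneg_of_nonpos (hν0 K) h2
        refine h3.trans ?_
        split_ifs
        · exact hnn
        · exact le_rfl
      · push Not at hw
        have hKA : K ∈ A := by
          rw [hA K]
          exact ⟨hK, WB_pos Y ε₁ ζ υ aw bw _ hY2' (fun p hp hpY hpd =>
            hsmall K hn0 p hp hpY i (Int.natCast_dvd.2 hpd)) hw⟩
        rw [if_pos hKA]
        apply mul_le_mul_of_nonneg_left _ (hν0 K)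
        have h4 : Lam none q μ (yk l k u R) (ξ K) = Lam (some i) q μ (yk l k u R) (ξ K) :=
          Lam_slot q μ l R (yk l k u R)
            (fun σ hσ => (yk_facts l hl0 k u ε₁ R hε hSP σ).2.2 hσ) hl0 i (ξ K) (by
            intro r hr
            have h1 := (hξ K r i).1 hr
            have h2 := WB_ne Y ε₁ ζ υ aw bw _ hw.ne' (r : ℕ) ((mem_filter.1 r.2).1)
              (Int.natCast_dvd.1 h1)
            show R < tt Y (r : ℕ)
            linarith)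
        rw [h4]
        have h5 : ∑ T : Finset (Pg G Y ε₁ υ), cL0 (T.map (Function.Embedding.subtype _)) *
          (if ∀ t ∈ T, ξ K t = some i then 1 else 0) ≤ 1 :=
          h1.trans (WB_le_one Y ε₁ ζ υ aw bw hb hab _)
        calc Lam (some i) q μ (yk l k u R) (ξ K) ^ 2 * _ ≤
            Lam (some i) q μ (yk l k u R) (ξ K) ^ 2 * 1 :=
              mul_le_mul_of_nonneg_left h5 (sq_nonneg _)
          _ = _ := mul_one _
    refine (sum_le_sum e1).trans (le_of_eq ?_)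
    rw [← sum_filter]
    apply sum_congr _ (fun _ _ => rfl)
    ext K
    rw [mem_filter]
    constructor
    · exact fun h => h.2
    · exact fun h => ⟨((hA K).1 h).1, h⟩
  · intro i j hij A hA
    have h3 := S3k hR hR1 hε hε4 hd hTol hSP (2 * R + τ) (by linarith) (N := Ioc M (M + L)) (ν := ν)
      (ξ := ξ) hX (fun n _ => hν0 n) hcnt i j hij A (fun K hK => (hA K hK).1) (by
        intro K hK _ t ht
        obtain ⟨_, g1, g2⟩ := hA K hK
        have htm := Pg_mem G Y ε₁ υ hY2' t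
        have htY : (t : ℕ) ≤ Y := by
          have h5 := (mem_filter.1 t.2).1
          unfold pr at h5
          rw [mem_filter, mem_Icc] at h5
          exact h5.1.2
        have ht' : tt Y (t : ℕ) ≤ 3 * R := ht
        constructor
        · intro h
          have h1 := (hξ K t i).1 h
          have h2 := WW_ne Y ζ υ aw bw _ g1 (t : ℕ) htY htm.1 (Int.natCast_dvd.1 h1)
          linarith
        · intro h
          have h1 := (hξ K t j).1 h
          have h2 := WW_ne Y ζ υ aw bw _ g2 (t : ℕ) htY htm.1 (Int.natCast_dvd.1 h1)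
          linarith)
    refine h3.trans (le_of_eq ?_)
    ring

end Pool.Agent.J6H17.QP
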