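import Pool.Agent.J6H17.QP.CoreQ

set_option autoImplicit false
set_option linter.unusedSectionVars false

/-! Weights for almost prime values: the core. -/

namespace Pool.Agent.J6H17.QP

open Finset Filter
open Pool.Agent.R498.MT
open Pool.Agent.Y677.RSZ (rt Sys per_mod ev_log)
open Pool.Agent.TH423.SH (PS)
open Pool.Agent.W23.DC
open Pool.Agent.Y882
open Pool.Agent.Y882.PX
open Pool.Agent.Y882.KW

theorem DTa_rpow {J : Type} [Fintype J] [DecidableEq J] (G : ℤ → ℤ) (Y : ℕ) (ε₁ υ : ℝ) (hY : 2 ≤ Y)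
    (T : Pg G Y ε₁ υ → Option J) :
    (DTa (fun s : Pg G Y ε₁ υ => (s : ℕ)) T : ℝ) = (Y : ℝ) ^ lt (ls G Y ε₁ υ) T := by
  have hYr : (2 : ℝ) ≤ Y := by exact_mod_cast hY
  have hY0 : (0 : ℝ) < Y := by linarith
  have hlY : 0 < Real.log Y := Real.log_pos (by linarith)
  have hpos : 0 < DTa (fun s : Pg G Y ε₁ υ => (s : ℕ)) T :=
    DTa_pos _ (fun s => (Pg_mem G Y ε₁ υ hY s).1) T
  have hposr : (0 : ℝ) < DTa (fun s : Pg G Y ε₁ υ => (s : ℕ)) T := by exact_mod_cast hpos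
  have h1 : Real.log (DTa (fun s : Pg G Y ε₁ υ => (s : ℕ)) T) =
      lt (ls G Y ε₁ υ) T * Real.log Y := by
    unfold DTa lt ls
    push_cast
    rw [Real.log_prod, sum_mul]
    · refine sum_congr rfl fun s _ => ?_
      split_ifs
      · simp
      · unfold tt
        field_simp
    · intro s _
      split_ifs
      · exact one_ne_zero
      · exact_mod_cast (Pg_mem G Y ε₁ υ hY s).1.ne_zero
  rw [Real.rpow_def_of_pos hY0, mul_comm, ← h1, Real.exp_log hposr]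

theorem cnt_ofa {J : Type} [Fintype J] [DecidableEq J] (C b₀ W J' z M L : ℕ) (G : ℤ → ℤ)
    (Om : J → ℕ → Finset ℕ) (Y : ℕ) (hY : 2 ≤ Y) (ε₁ υ B : ℝ)
    (hOm : ∀ j (r : Pg G Y ε₁ υ), (Om j r).card = rt G r ∧ ∀ c ∈ Om j r, c < (r : ℕ))
    (hU : ∀ K (r : Pg G Y ε₁ υ) i j, K % (r : ℕ) ∈ Om i r → K % (r : ℕ) ∈ Om j r → i = j)
    (hW1 : 1 ≤ W) (hz : (z : ℝ) < (Y : ℝ) ^ ε₁)
    (hC : ∀ (D a : ℕ), 1 ≤ D → (∀ p ∈ PS W z, ¬ p ∣ D) →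
      ∀ s : Finset ℕ, (∀ K, K ∈ s ↔ (K ∈ Ioc M (M + L) ∧ (K % D = a % D ∧
        ∀ p ∈ PS W z, K % p ∉ OU Om p))) →
      |(s.card : ℝ) - (L : ℝ) / D * Va Om W z| ≤
      (1 / 2 : ℝ) ^ b₀ * ((L : ℝ) / D * Va Om W z) + ((2 : ℝ) ^ 2 ^ J') ^ (C * b₀))
    (hD : (Y : ℝ) ^ B * ((2 : ℝ) ^ 2 ^ J') ^ (C * b₀) ≤ (1 / 2 : ℝ) ^ b₀ * (L * Va Om W z)) :
    Cnt (Ioc M (M + L)) (nua Om W z) (xa (fun r : Pg G Y ε₁ υ => (r : ℕ)) Om)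
      (fun r _ => 1 / qs G Y ε₁ υ r) (L * Va Om W z) (2 * (1 / 2 : ℝ) ^ b₀)
      (fun T => lt (ls G Y ε₁ υ) T ≤ B) := by
  classical
  intro T hT
  have hYr : (2 : ℝ) ≤ Y := by exact_mod_cast hY
  have hY1 : (1 : ℝ) ≤ Y := by linarith
  have h1 := cnt_Ta (fun s : Pg G Y ε₁ υ => (s : ℕ)) (fun s => (Pg_mem G Y ε₁ υ hY s).1)
    (Subtype.val_injective) Om (fun s => rt G (s : ℕ)) hOm hU C b₀ W J' z M L hW1 (fun s => by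
      have h2 := (Pg_mem G Y ε₁ υ hY s).2.1
      have h3 := hz.trans_le h2
      exact_mod_cast h3) (fun D a hD1 hD2 => hC D a hD1 hD2 _ (fun K => by rw [mem_filter])) T
  have e1 : ∀ s : Pg G Y ε₁ υ, R498.MT.rr (fun _ : J => 1 / qs G Y ε₁ υ s) (T s) =
      R498.MT.rr (fun _ : J => (rt G (s : ℕ) : ℝ) / (s : ℕ)) (T s) := by
    intro s
    rcases T s with _ | j
    · rfl
    · simp only [R498.MT.rr]
      unfold qs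
      rw [one_div, inv_div]
  simp_rw [e1]
  refine h1.trans ?_
  have h2 : 0 ≤ ∏ s : Pg G Y ε₁ υ, R498.MT.rr (fun _ : J => (rt G (s : ℕ) : ℝ) / (s : ℕ)) (T s) := by
    apply prod_nonneg
    intro s _
    rcases T s with _ | j
    · simp [R498.MT.rr]
    · simp only [R498.MT.rr]
      positivity
  apply mul_le_mul_of_nonneg_right _ h2
  have h3 : (DTa (fun s : Pg G Y ε₁ υ => (s : ℕ)) T : ℝ) ≤ (Y : ℝ) ^ B := by
    rw [DTa_rpow G Y ε₁ υ hY T]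
    exact Real.rpow_le_rpow_of_exponent_le hY1 hT
  have h4 : (DTa (fun s : Pg G Y ε₁ υ => (s : ℕ)) T : ℝ) * ((2 : ℝ) ^ 2 ^ J') ^ (C * b₀) ≤
      (1 / 2 : ℝ) ^ b₀ * (L * Va Om W z) :=
    (mul_le_mul_of_nonneg_right h3 (by positivity)).trans hD
  linarith

/-- a common lower bound -/
theorem exmin {J : Type} [Fintype J] (u : J → ℝ) (hu : ∀ j, 0 < u j) :
    ∃ β : ℝ, 0 < β ∧ ∀ j, 4 * β ≤ u j := by
  classical
  by_cases h : Nonempty J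
  · obtain ⟨j0, -, hj0⟩ := exists_min_image (univ : Finset J) u
      (univ_nonempty_iff.2 h)
    refine ⟨u j0 / 4, by linarith [hu j0], fun j => ?_⟩
    have := hj0 j (mem_univ j)
    linarith
  · exact ⟨1, one_pos, fun j => absurd ⟨j⟩ h⟩

/-- **The core.** -/
theorem coreQ (G : ℤ → ℤ) (g : ℕ) (hG : Sys g G) (D : ℕ)
    (hGs : ∀ n : ℕ, G (n : ℤ) ≠ 0 ∧ (G (n : ℤ)).natAbs ≤ (n + 2) ^ D)
    (hMer : ∀ ε₁ υ η : ℝ, 0 < ε₁ → υ ≤ 1 → 0 < η → ∃ Y0 : ℕ, ∀ Y : ℕ, Y0 ≤ Y →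
      Mer (pr Y ε₁ υ) (tt Y) (fun p => (rt G p : ℝ) / p) ε₁ υ η)
    (τ ζ υ aw bw θ R : ℝ) (hζ : 0 < ζ) (h2 : 2 * ζ < τ) (h4 : τ ≤ 4 * ζ) (hτ : τ ≤ 1)
    (hζυ : ζ ≤ υ) (hυτ : υ < τ) (ha : 0 ≤ aw) (hb : 0 ≤ bw) (hab : bw * υ ≤ aw)
    (hJ0 : ∫ x in ζ..υ, (aw - bw * x) / (τ - x) / x < Real.log (τ / ζ - 1) / τ)
    (hR : 0 < R) (hRζ : 3 * R < ζ) (hR1 : 2 * R ≤ 1) (hRτ4 : 4 * R ≤ τ) (hRτ : 2 * R + τ < θ) :
    ∃ f0 : ℝ, 0 < f0 ∧ ∀ (J : Type) [Fintype J] [DecidableEq J] [Nonempty J] (k : J → ℕ)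
      (u : J → ℝ), (∀ j, 0 < u j) → (∀ j, 2 ^ k j * u j ≤ R / 2) →
      (∑ j, 12 * ((k j : ℝ) + 1) * u j ≤ R / 8) → ∀ η : ℝ, 0 < η → η ≤ 1 →
      ∃ (P₀ A : ℕ) (ε₁ Bb : ℝ), 0 < ε₁ ∧ ε₁ ≤ ζ ∧ 0 < Bb ∧
      ∀ (W : ℕ) (a s : J → ℕ) (Bd : ℕ), SL G W a s Bd → 1 ≤ W →
        (∀ p : ℕ, p.Prime → p ≤ P₀ → p ∣ W) →
      ∃ Y₀ : ℕ, ∀ Y : ℕ, Y₀ ≤ Y → ∀ M L : ℕ, (Y : ℝ) ^ θ ≤ L → M + L ≤ Y →
        ∃ (wt : ℕ → ℝ) (p : J → ℝ) (Z : ℝ), 0 < Z ∧ (L : ℝ) ≤ Real.log Y ^ A * Z ∧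
          Out G a s Y M L ε₁ ζ υ aw bw (f0 / 8) (200 / R ^ 2) η Bb k u wt p Z := by
  classical
  have hυ1 : υ ≤ 1 := by linarith
  obtain ⟨f0, F0, hf0, hF0, HL⟩ := lsw4 τ ζ υ aw bw hζ h2 h4 hτ hζυ hυτ ha hb hab hJ0
  obtain ⟨C, hC1, hC⟩ := c1a
  refine ⟨f0, hf0, ?_⟩
  intro J _ _ _ k u hu hus hss η hη hη1
  set κ : ℕ := g * Fintype.card J with hκ
  obtain ⟨β0, hβ0, hβu⟩ := exmin u hu
  obtain ⟨ε₁, ω, b₀, hε, hεβ, hb₀, hTol, hεb⟩ := exTol (Fintype.card J) C (C * (κ + 1)) (1 + aw) η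
    (min (min (min ζ (τ - υ)) (min β0 (R / 4))) 1) ((θ - (2 * R + τ)) / 2) (by linarith) hη hη1
    (lt_min (lt_min (lt_min hζ (by linarith)) (lt_min hβ0 (by linarith))) one_pos)
    (min_le_right _ _) (by linarith)
  have hε11 : ε₁ ≤ 1 := hεβ.trans (min_le_right _ _)
  have hεβ1 := hεβ.trans (min_le_left _ _)
  have hεζ : ε₁ ≤ ζ := hεβ1.trans ((min_le_left _ _).trans (min_le_left _ _))
  have hετ : ε₁ ≤ τ - υ := hεβ1.trans ((min_le_left _ _).trans (min_le_right _ _))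
  have hεu : ε₁ ≤ β0 := hεβ1.trans ((min_le_right _ _).trans (min_le_left _ _))
  have hεR : ε₁ ≤ R / 4 := hεβ1.trans ((min_le_right _ _).trans (min_le_right _ _))
  have hSP : SP k u ε₁ R := ⟨fun j => by linarith [hβu j], hus, hss⟩
  obtain ⟨η', hη', HL⟩ := HL ε₁ hε hεζ hετ
  obtain ⟨cV, hcV, hVlow⟩ := Va_low κ
  obtain ⟨c', hc'⟩ : ∃ c' : ℕ, (Fintype.card J : ℝ) * (2 * D / ε₁) ≤ c' := exists_nat_ge _
  have hAK := AK_one (Fintype.card J) ε₁ hε hε11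
  refine ⟨C * (κ + 1) + (κ + 1), 2 * κ + 1, ε₁, (AK (Fintype.card J) ε₁ * 2 ^ c') ^ 2, hε, hεζ,
    by positivity, ?_⟩
  intro W a s Bd hS hW1 hWp
  obtain ⟨Na, hNa⟩ : ∃ N : ℕ, ∀ i, a i + s i ≤ N :=
    ⟨univ.sup (fun i => a i + s i), fun i => Finset.le_sup (f := fun i => a i + s i) (mem_univ i)⟩
  obtain ⟨Y1, hY1⟩ := hMer ε₁ υ η' hε hυ1 hη'
  obtain ⟨Y2, hY2⟩ := dat_of g G (fun p hp => (hG.root p hp).1) ε₁ υ R ω hε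
    (by linarith) hυ1 hTol.o0 (hMer ε₁ υ (1 / 40) hε hυ1 (by norm_num))
  obtain ⟨Y3, hY3⟩ := exJ ε₁ hε
  have ev1 : ∀ᶠ Y : ℕ in atTop, ((Bd + Na + 2 : ℕ) : ℝ) ≤ (Y : ℝ) ^ ε₁ :=
    ((tendsto_rpow_atTop hε).comp tendsto_natCast_atTop_atTop).eventually_ge_atTop _
  have ev2 := ev_log (2 * κ) (2 ^ b₀ * 3 ^ (2 * κ) / cV)
    ((θ - (2 * R + τ)) / 2) (by linarith)
  have ev3 : ∀ᶠ Y : ℕ in atTop, 3 ^ (2 * κ) / cV ≤ Real.log (Y : ℝ) :=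
    (Real.tendsto_log_atTop.comp tendsto_natCast_atTop_atTop).eventually_ge_atTop _
  obtain ⟨Y4, hY4⟩ := eventually_atTop.1 (ev1.and (ev2.and (ev3.and (eventually_ge_atTop
    (Na + 3)))))
  refine ⟨max (max Y1 Y2) (max Y3 Y4), ?_⟩
  intro Y hY M L hLY hMLY
  have hM := hY1 Y (((le_max_left _ _).trans (le_max_left _ _)).trans hY)
  have hd := hY2 Y (((le_max_right _ _).trans (le_max_left _ _)).trans hY)
  obtain ⟨J', hJ1, hJ2⟩ := hY3 Y (((le_max_left _ _).trans (le_max_right _ _)).trans hY)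
  obtain ⟨e1, e2, e3, e4⟩ := hY4 Y (((le_max_right _ _).trans (le_max_right _ _)).trans hY)
  have hY3' : 3 ≤ Y := by omega
  have hY2' : 2 ≤ Y := by omega
  have hYr : (3 : ℝ) ≤ Y := by exact_mod_cast hY3'
  -- the sieving limit
  obtain ⟨z, hz⟩ : ∃ z : ℕ, z + 1 = ⌈(Y : ℝ) ^ ε₁⌉₊ := by
    have : 1 ≤ ⌈(Y : ℝ) ^ ε₁⌉₊ := Nat.ceil_pos.2 (by positivity)
    exact ⟨⌈(Y : ℝ) ^ ε₁⌉₊ - 1, by omega⟩
  have hz1 : (z : ℝ) < (Y : ℝ) ^ ε₁ := by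
    have h1 := Nat.ceil_lt_add_one (show 0 ≤ (Y : ℝ) ^ ε₁ by positivity)
    rw [← hz] at h1
    push_cast at h1
    linarith
  have hz2 : (Y : ℝ) ^ ε₁ ≤ z + 1 := by
    have h1 := Nat.le_ceil ((Y : ℝ) ^ ε₁)
    rw [← hz] at h1
    push_cast at h1
    exact h1
  have hzJ : z < 2 ^ 2 ^ J' := by
    have : (z : ℝ) < 2 ^ 2 ^ J' := hz1.trans_le hJ1
    exact_mod_cast this
  -- the classes
  have hOUc : ∀ p : ℕ, p.Prime → ¬ p ∣ W → (OU (Omq G a s) p).card ≤ κ := by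
    intro p hp hpW
    unfold OU
    refine card_biUnion_le.trans ?_
    refine (sum_le_sum fun i _ => Omq_card_le hG hS i hp hpW).trans (le_of_eq ?_)
    rw [sum_const, card_univ, smul_eq_mul, hκ, mul_comm]
  have hOUl : ∀ p : ℕ, ∀ c ∈ OU (Omq G a s) p, c < p := by
    intro p c hc
    unfold OU at hc
    rw [mem_biUnion] at hc
    obtain ⟨i, _, hi⟩ := hc
    exact Omq_lt G a s i p c hi
  have hV := hVlow J (Omq G a s) W J' z hOUc (fun p hp hpk => hWp p hp (by omega)) hzJ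
  have hV0 : 0 < Va (Omq G a s) W z := lt_of_lt_of_le (by positivity) hV
  obtain ⟨hV2, hV3⟩ := num1 Y J' (2 * κ) ε₁ cV (Va (Omq G a s) W z) hY3' hε11 hcV hJ2 hV e3
  have hD := num2 Y J' (2 * κ) C b₀ ε₁ cV (Va (Omq G a s) W z) L θ (2 * R + τ) hY3' hcV hJ2 hV2
    hεb hLY e2
  have hPgB : ∀ r : Pg G Y ε₁ υ, Bd + Na + 2 ≤ (r : ℕ) := by
    intro r
    have h1 := e1.trans (Pg_mem G Y ε₁ υ hY2' r).2.1
    exact_mod_cast h1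
  have hU : ∀ (K : ℕ) (r : Pg G Y ε₁ υ) i j, ((r : ℕ) : ℤ) ∣ G ((a i * K + s i : ℕ) : ℤ) →
      ((r : ℕ) : ℤ) ∣ G ((a j * K + s j : ℕ) : ℤ) → i = j := by
    intro K r i j h1 h2
    exact hS.unq (r : ℕ) (Pg_mem G Y ε₁ υ hY2' r).1 (by have := hPgB r; omega) K i j h1 h2
  have hcnt := cnt_ofa C b₀ W J' z M L G (Omq G a s) Y hY2' ε₁ υ (2 * R + τ)
    (fun j r => ⟨Omq_card_eq hG a s j (Pg_mem G Y ε₁ υ hY2' r).1 (fun h => by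
      have h1 := Nat.le_of_dvd (hS.a1 j) h
      have h2 := hPgB r
      have h3 := hNa j
      omega), Omq_lt G a s j r⟩)
    (fun K r i j h1 h2 => hU K r i j
      ((Omq_iff hG.per a s i (Pg_mem G Y ε₁ υ hY2' r).1 K).1 h1)
      ((Omq_iff hG.per a s j (Pg_mem G Y ε₁ υ hY2' r).1 K).1 h2)) hW1 hz1
    (fun D' a' hD1 hD2 s' hs' => hC κ b₀ W hb₀ hW1 (fun p hp hpk => hWp p hp (by omega))
      (OU (Omq G a s)) (fun p hp hpW => ⟨hOUc p hp hpW, hOUl p⟩) J' z D' a' M L hzJ.le hD1 hD2 s'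
      hs') hD
  obtain ⟨cU, cL0, hc1, hc2, hc3, hc4⟩ := HL Y hY2'
  obtain ⟨hc4, -⟩ := hc4 (fun p => (rt G p : ℝ) / p) (fun p _ => by positivity) hM
  obtain ⟨wt, p, Z, hZ, hOut⟩ := coreQ1 G g hG D hGs W c' Na b₀ Y M L z a s Bd hS τ ζ υ aw bw R f0
    ε₁ ω η (by linarith) hτ (hεζ.trans hζυ) ha hb hab hR hRζ hR1 hRτ4 hf0 hε (by linarith) k u hSP
    hTol hc' hNa (by omega) hMLY hz2 cL0 (fun T => (hc1 T).2)
    (fun T hT h => hc2 T hT (Or.inr h)) (fun N => (hc3 N).1) hc4 hd hU hV0 hcnt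
  have hL0 : (0 : ℝ) < L := lt_of_lt_of_le (by positivity) hLY
  have hlog : 0 < Real.log Y := Real.log_pos (by linarith)
  refine ⟨wt, p, Z, lt_of_lt_of_le (by positivity) hZ, ?_, hOut⟩
  calc (L : ℝ) = L * 1 := by ring
    _ ≤ L * (Real.log Y ^ (2 * κ + 1) * Va (Omq G a s) W z) :=
        mul_le_mul_of_nonneg_left hV3 hL0.le
    _ = Real.log Y ^ (2 * κ + 1) * (L * Va (Omq G a s) W z) := by ring
    _ ≤ _ := mul_le_mul_of_nonneg_left hZ (by positivity)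

end Pool.Agent.J6H17.QP
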