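import Pool.Agent.J6H17.QP.Meas
import Pool.Agent.H361R2.InfT1

set_option autoImplicit false

/-! Exact infinite patterns of almost prime values of quadratic polynomials. -/

namespace Pool.Agent.J6H17.QP

open Finset Filter Topology
open Pool.Agent.H361R2.Inf (FMeas T3_mono comb)

theorem PQ_mono (A B C : ℤ) {s : ℕ} {θ : ℝ} (hs : 3 ≤ s) (hθ : θ ≤ 9 / 50) (g : ℤ × ℤ) (n : ℕ)
    (hn : 1 ≤ n) (h : PQ A B C 3 (9 / 50) g n) : PQ A B C s θ g n := by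
  refine ⟨h.1.trans hs, fun p hp hpd => le_trans ?_ (h.2 p hp hpd)⟩
  exact Real.rpow_le_rpow_of_exponent_le (by exact_mod_cast hn) hθ

theorem fix_of_form (A B C : ℤ) (g : ℤ × ℤ) (hg : NoFix A B C g) (p : ℕ) (hp : p.Prime) :
    ∃ n : ℤ, ¬ (p : ℤ) ∣ Gq A B C n := by
  obtain ⟨n, hn⟩ := hg p hp
  exact ⟨_, hn⟩

/-- **Exact infinite patterns.** -/
theorem exact_inf (A B C : ℤ) (hA : A ≠ 0) (hΔ : ¬ IsSquare (B ^ 2 - 4 * A * C)) (F : Set (ℤ × ℤ))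
    (hF : F.Infinite) (hF1 : ∀ g ∈ F, 1 ≤ g.1 ∧ NoFix A B C g) (s : ℕ) (hs : 3 ≤ s) (θ : ℝ)
    (hθ : θ ≤ 9 / 50) (NN : ℕ → Finset ℕ) (hN1 : ∀ k, (NN k).Nonempty)
    (hN2 : ∀ b, ∀ᶠ k in atTop, ∀ N ∈ NN k, b ≤ N) :
    ∃ G ⊆ F, G.Infinite ∧ ∀ T : Finset (ℤ × ℤ), (∀ g ∈ T, 1 ≤ g.1) → ∃ ε : ℝ, 0 < ε ∧
      Often NN {n : ℕ | ∀ g ∈ T, (PQ A B C s θ g n ↔ g ∈ G) ∧ (g ∈ G → ∀ p : ℕ, p.Prime →
          (p : ℤ) ∣ Gq A B C (g.1 * n + g.2) → (n : ℝ) ^ ε ≤ p)} := by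
  classical
  obtain ⟨g0, hg0⟩ := hF.nonempty
  obtain ⟨off, δ, hoff, h0, hδ, hpack⟩ := pack A B C hA hΔ (fix_of_form A B C g0 (hF1 g0 hg0).2)
  obtain ⟨f, hfF, hf⟩ := exists_adm A B C F hF hF1
  obtain ⟨m, hm, hm2, hmt, hmS⟩ := hpack f hf s NN hN1 hN2
  obtain ⟨I, hI, hIN⟩ := comb m hm off hoff h0 (fun i => {n : ℕ | 1 ≤ n ∧ PQ A B C s θ (f i) n}) δ hδ
    (by
      intro t
      have h1 := hmt t
      have h2 : {n : ℕ | ∃ i ∈ Ico (off t) (off (t + 1)), PQ A B C 3 (9 / 50) (f i) n} ⊆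
          {n | ∃ i ∈ Ico (off t) (off (t + 1)), n ∈ {n : ℕ | 1 ≤ n ∧ PQ A B C s θ (f i) n}} ∪
            {0} := by
        rintro n ⟨i, hi, h⟩
        rcases Nat.eq_zero_or_pos n with h3 | h3
        · exact Or.inr h3
        · exact Or.inl ⟨i, hi, h3, PQ_mono A B C hs hθ (f i) n h3 h⟩
      have h3 := T3_mono hm h2
      have h4 : m ({n | ∃ i ∈ Ico (off t) (off (t + 1)),
          n ∈ {n : ℕ | 1 ≤ n ∧ PQ A B C s θ (f i) n}} ∪ {0}) =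
          m {n | ∃ i ∈ Ico (off t) (off (t + 1)), n ∈ {n : ℕ | 1 ≤ n ∧ PQ A B C s θ (f i) n}} +
          m {0} := by
        apply hm.add
        rw [Set.disjoint_left]
        rintro n ⟨i, _, h5, _⟩ h6
        rw [Set.mem_singleton_iff] at h6
        omega
      rw [h4, hm.fin _ (Set.finite_singleton 0), add_zero] at h3
      linarith)
  refine ⟨f '' I, ?_, hI.image hf.inj.injOn, ?_⟩
  · rintro _ ⟨i, _, rfl⟩
    exact hfF i
  · intro T hT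
    obtain ⟨N1, hNT⟩ : ∃ N : ℕ, ∀ i, f i ∈ T → i < N := by
      have h1 : (f ⁻¹' (T : Set (ℤ × ℤ))).Finite := T.finite_toSet.preimage hf.inj.injOn
      obtain ⟨N, hN⟩ := h1.bddAbove
      exact ⟨N + 1, fun i hi => Nat.lt_succ_of_le (hN hi)⟩
    set S1 : Set ℕ := {n | ∀ i < N1, (n ∈ {n : ℕ | 1 ≤ n ∧ PQ A B C s θ (f i) n} ↔ i ∈ I)} with hS1
    have hS2 : 0 < m (S1 ∩ {n | 1 ≤ n}) := by
      have h1 := hIN N1
      have h2 : S1 ⊆ (S1 ∩ {n | 1 ≤ n}) ∪ {0} := by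
        intro n hn
        rcases Nat.eq_zero_or_pos n with h3 | h3
        · exact Or.inr h3
        · exact Or.inl ⟨hn, h3⟩
      have h3 := T3_mono hm h2
      have h4 : m ((S1 ∩ {n | 1 ≤ n}) ∪ {0}) = m (S1 ∩ {n | 1 ≤ n}) + m {0} := by
        apply hm.add
        rw [Set.disjoint_left]
        rintro n ⟨_, h5⟩ h6
        rw [Set.mem_singleton_iff] at h6
        rw [Set.mem_ofPred_eq] at h5
        omega
      rw [h4, hm.fin _ (Set.finite_singleton 0), add_zero] at h3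
      linarith
    obtain ⟨ε, hε, hinf⟩ := hmS _ hS2 T hT
    refine ⟨ε, hε, hinf.mono ?_⟩
    rintro n ⟨⟨hn, hn1⟩, hg⟩ g hgT
    rw [Set.mem_ofPred_eq] at hn1
    obtain ⟨k1, k2⟩ := hg g hgT
    by_cases hgf : g ∈ Set.range f
    · obtain ⟨i, rfl⟩ := hgf
      rw [hf.inj.mem_set_image]
      refine ⟨?_, fun _ => k1 ⟨i, rfl⟩⟩
      have h1 := hn i (hNT i hgT)
      rw [← h1]
      constructor
      · exact fun h => ⟨hn1, h⟩
      · exact fun h => h.2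
    · have hgG : g ∉ f '' I := fun h => hgf (Set.image_subset_range _ _ h)
      refine ⟨iff_of_false ?_ hgG, fun h => absurd h hgG⟩
      intro h
      have := k2 hgf
      have := h.1
      omega

end Pool.Agent.J6H17.QP
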