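import Mathlib

set_option autoImplicit false

/-! Values of a quadratic polynomial at linear forms. -/

namespace Pool.Agent.J6H17.QP

open Finset Filter

/-- the quadratic polynomial -/
def Gq (A B C n : ℤ) : ℤ := A * n ^ 2 + B * n + C

theorem Gq_ne_zero (A B C : ℤ) (hΔ : ¬ IsSquare (B ^ 2 - 4 * A * C)) (n : ℤ) : Gq A B C n ≠ 0 := by
  intro h
  apply hΔ
  unfold Gq at h
  refine ⟨2 * A * n + B, ?_⟩
  linear_combination (-4 * A) * h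

theorem Gq_per (A B C : ℤ) (d n m : ℤ) (h : d ∣ n - m) : d ∣ Gq A B C n ↔ d ∣ Gq A B C m := by
  have e : Gq A B C n - Gq A B C m = (n - m) * (A * (n + m) + B) := by unfold Gq; ring
  have h1 : d ∣ Gq A B C n - Gq A B C m := by rw [e]; exact h.mul_right _
  exact dvd_iff_dvd_of_dvd_sub h1

/-- the resultant of the values at two linear forms -/
def Rs (A B C : ℤ) (f h : ℤ × ℤ) : ℤ :=
  ((h.1 ^ 2 - f.1 ^ 2) * (B ^ 2 - 4 * A * C) +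
      (2 * A * (h.1 * f.2 - f.1 * h.2) + B * (h.1 - f.1)) ^ 2) ^ 2 -
    4 * (2 * A * (h.1 * f.2 - f.1 * h.2) + B * (h.1 - f.1)) ^ 2 * h.1 ^ 2 * (B ^ 2 - 4 * A * C)

theorem Rs_dvd (A B C : ℤ) (f h : ℤ × ℤ) (d n : ℤ) (h1 : d ∣ Gq A B C (f.1 * n + f.2))
    (h2 : d ∣ Gq A B C (h.1 * n + h.2)) : d ∣ Rs A B C f h := by
  obtain ⟨α, β⟩ := f
  obtain ⟨α', β'⟩ := h
  simp only at h1 h2
  obtain ⟨D, hD⟩ : ∃ D : ℤ, D = B ^ 2 - 4 * A * C := ⟨_, rfl⟩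
  obtain ⟨e, he⟩ : ∃ e : ℤ, e = 2 * A * (α' * β - α * β') + B * (α' - α) := ⟨_, rfl⟩
  obtain ⟨X, hX⟩ : ∃ X : ℤ, X = 2 * A * (α * n + β) + B := ⟨_, rfl⟩
  obtain ⟨Y, hY⟩ : ∃ Y : ℤ, Y = 2 * A * (α' * n + β') + B := ⟨_, rfl⟩
  have gX : 4 * A * Gq A B C (α * n + β) = X ^ 2 - D := by rw [hX, hD]; unfold Gq; ring
  have gY : 4 * A * Gq A B C (α' * n + β') = Y ^ 2 - D := by rw [hY, hD]; unfold Gq; ring
  have hXY : α' * X - α * Y = e := by rw [hX, hY, he]; ring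
  have key : Rs A B C (α, β) (α', β') =
      (4 * A * Gq A B C (α' * n + β')) *
        (α ^ 2 * (((α' ^ 2 - α ^ 2) * D + e ^ 2) + 2 * e * α' * X)) +
      (4 * A * Gq A B C (α * n + β)) * (4 * e ^ 2 * α' ^ 2 -
        α' ^ 2 * (((α' ^ 2 - α ^ 2) * D + e ^ 2) + 2 * e * α' * X)) := by
    unfold Rs
    simp only
    rw [← hD, ← he, gX, gY]
    have e2 : e ^ 2 - 2 * e * α' * X = α ^ 2 * Y ^ 2 - α' ^ 2 * X ^ 2 := by
      rw [← hXY]; ring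
    linear_combination (((α' ^ 2 - α ^ 2) * D + e ^ 2) + 2 * e * α' * X) * e2
  rw [key]
  exact dvd_add ((h2.mul_left _).mul_right _) ((h1.mul_left _).mul_right _)

theorem Rs_ne (A B C : ℤ) (hA : A ≠ 0) (hΔ : ¬ IsSquare (B ^ 2 - 4 * A * C)) (f h : ℤ × ℤ)
    (hf : 1 ≤ f.1) (hh : 1 ≤ h.1) (hne : f ≠ h) : Rs A B C f h ≠ 0 := by
  obtain ⟨α, β⟩ := f
  obtain ⟨α', β'⟩ := h
  simp only at hf hh
  intro h0
  unfold Rs at h0
  simp only at h0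
  obtain ⟨D, hD⟩ : ∃ D : ℤ, D = B ^ 2 - 4 * A * C := ⟨_, rfl⟩
  obtain ⟨e, he⟩ : ∃ e : ℤ, e = 2 * A * (α' * β - α * β') + B * (α' - α) := ⟨_, rfl⟩
  rw [← hD, ← he] at h0
  rw [← hD] at hΔ
  have hD0 : D ≠ 0 := by
    rintro rfl
    exact hΔ ⟨0, by simp⟩
  by_cases he0 : e = 0
  · rw [he0] at h0
    have h1 : ((α' ^ 2 - α ^ 2) * D) ^ 2 = 0 := by linear_combination h0
    have h2 : (α' ^ 2 - α ^ 2) * D = 0 := by
      exact pow_eq_zero_iff (two_ne_zero) |>.1 h1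
    have h3 : α' ^ 2 - α ^ 2 = 0 := (mul_eq_zero.1 h2).resolve_right hD0
    have h4 : (α' - α) * (α' + α) = 0 := by linear_combination h3
    have h5 : α' - α = 0 := (mul_eq_zero.1 h4).resolve_right (by omega)
    have h6 : α' = α := by omega
    rw [he, h6] at he0
    have h7 : 2 * (A * (α * (β - β'))) = 0 := by linear_combination he0
    have h8 : A * (α * (β - β')) = 0 := by omega
    have h9 := (mul_eq_zero.1 h8).resolve_left hA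
    have h10 := (mul_eq_zero.1 h9).resolve_left (by omega)
    exact hne (by rw [h6, show β = β' by omega])
  · have h1 : ((α' ^ 2 - α ^ 2) * D + e ^ 2) ^ 2 = (2 * e * α') ^ 2 * D := by
      linear_combination h0
    have h2 : (2 * e * α') ^ 2 ∣ ((α' ^ 2 - α ^ 2) * D + e ^ 2) ^ 2 := ⟨D, h1⟩
    have h3 : (2 * e * α') ∣ ((α' ^ 2 - α ^ 2) * D + e ^ 2) := (Int.pow_dvd_pow_iff two_ne_zero).1 h2
    obtain ⟨k, hk⟩ := h3
    rw [hk] at h1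
    have hm : (2 * e * α') ^ 2 ≠ 0 := by
      apply pow_ne_zero
      apply mul_ne_zero (mul_ne_zero two_ne_zero he0)
      omega
    have h4 : (2 * e * α') ^ 2 * (k ^ 2) = (2 * e * α') ^ 2 * D := by linear_combination h1
    have h5 := mul_left_cancel₀ hm h4
    exact hΔ ⟨k, by rw [← h5]; ring⟩

/-- at most `s` prime factors, none below `n ^ θ` -/
def PQ (A B C : ℤ) (s : ℕ) (θ : ℝ) (f : ℤ × ℤ) (n : ℕ) : Prop :=
  (Gq A B C (f.1 * n + f.2)).natAbs.primeFactorsList.length ≤ s ∧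
    ∀ p : ℕ, p.Prime → (p : ℤ) ∣ Gq A B C (f.1 * n + f.2) → (n : ℝ) ^ θ ≤ p

/-- the conditions on the parameters -/
theorem numsQ (W r CC Y₀ : ℕ) (hW : 2 ≤ W) :
    ∀ᶠ N : ℕ in atTop, 2 ≤ N ∧ Y₀ ≤ N ∧ (CC : ℝ) ≤ (N : ℝ) ^ ((1 : ℝ) / 100) ∧
      (2 : ℝ) ≤ (N : ℝ) ^ ((1 : ℝ) / 400) ∧ ∃ L : ℕ, W * L + r ≤ ⌊(N : ℝ) ^ (3 / 4 : ℝ)⌋₊ ∧
        (N : ℝ) ^ (149 / 200 : ℝ) ≤ L ∧ N / W + L ≤ N ∧ ⌊(N : ℝ) ^ (3 / 4 : ℝ)⌋₊ ≤ N ∧
        (N : ℝ) ^ (3 / 4 : ℝ) ≤ 2 * W * L := by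
  have hT := tendsto_natCast_atTop_atTop (R := ℝ)
  have v1 : ∀ᶠ N : ℕ in atTop, (CC : ℝ) ≤ (N : ℝ) ^ ((1 : ℝ) / 100) :=
    ((tendsto_rpow_atTop (by norm_num)).comp hT).eventually_ge_atTop _
  have v2 : ∀ᶠ N : ℕ in atTop, (2 : ℝ) ≤ (N : ℝ) ^ ((1 : ℝ) / 400) :=
    ((tendsto_rpow_atTop (by norm_num)).comp hT).eventually_ge_atTop _
  have v3 : ∀ᶠ N : ℕ in atTop, ((2 * W + 2 * r + 2 : ℕ) : ℝ) ≤ (N : ℝ) ^ ((1 : ℝ) / 200) :=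
    ((tendsto_rpow_atTop (by norm_num)).comp hT).eventually_ge_atTop _
  filter_upwards [eventually_ge_atTop 2, eventually_ge_atTop Y₀, v1, v2, v3]
    with N e1 e2 w1 w2 w3
  have hNr : (2 : ℝ) ≤ N := by exact_mod_cast e1
  have hN0 : (0 : ℝ) < N := by linarith
  have hN1 : (1 : ℝ) ≤ N := by linarith
  refine ⟨e1, e2, w1, w2, ?_⟩
  set Q : ℕ := ⌊(N : ℝ) ^ (3 / 4 : ℝ)⌋₊ with hQ
  have hQ1 : (N : ℝ) ^ (3 / 4 : ℝ) - 1 < Q := by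
    have := Nat.lt_floor_add_one ((N : ℝ) ^ (3 / 4 : ℝ))
    linarith
  have hQ2 : (Q : ℝ) ≤ (N : ℝ) ^ (3 / 4 : ℝ) := Nat.floor_le (by positivity)
  have hsplit : (N : ℝ) ^ (3 / 4 : ℝ) = (N : ℝ) ^ ((149 : ℝ) / 200) * (N : ℝ) ^ ((1 : ℝ) / 200) := by
    rw [← Real.rpow_add hN0]
    norm_num
  have hT1 : (1 : ℝ) ≤ (N : ℝ) ^ ((149 : ℝ) / 200) := Real.one_le_rpow hN1 (by norm_num)
  push_cast at w3
  have hWr : (2 : ℝ) ≤ W := by exact_mod_cast hW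
  have hr0 : (0 : ℝ) ≤ r := Nat.cast_nonneg r
  have hQ3 : (W : ℝ) * (N : ℝ) ^ ((149 : ℝ) / 200) + (W + r + 1) ≤ Q := by
    have h1 : (N : ℝ) ^ ((149 : ℝ) / 200) * (2 * W + 2 * r + 2) ≤ (N : ℝ) ^ (3 / 4 : ℝ) := by
      rw [hsplit]
      exact mul_le_mul_of_nonneg_left w3 (by positivity)
    nlinarith
  have hQN : Q ≤ N := by
    have h1 : (Q : ℝ) ≤ N := by
      refine hQ2.trans ?_
      calc (N : ℝ) ^ (3 / 4 : ℝ) ≤ (N : ℝ) ^ (1 : ℝ) :=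
            Real.rpow_le_rpow_of_exponent_le hN1 (by norm_num)
        _ = N := Real.rpow_one _
    exact_mod_cast h1
  have hrQ : r ≤ Q := by
    have h1 : (r : ℝ) ≤ Q := by
      have : 0 ≤ (W : ℝ) * (N : ℝ) ^ ((149 : ℝ) / 200) := by positivity
      linarith
    exact_mod_cast h1
  obtain ⟨L, hL⟩ : ∃ L : ℕ, L = (Q - r) / W := ⟨_, rfl⟩
  have hWL : W * L ≤ Q - r := by rw [hL]; exact Nat.mul_div_le _ _
  have hWL2 : Q - r < W * (L + 1) := by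
    rw [hL]
    exact Nat.lt_mul_div_succ _ (by omega)
  refine ⟨L, by omega, ?_, ?_, hQN, ?_⟩
  · have h1 : ((Q - r : ℕ) : ℝ) < W * (L + 1) := by exact_mod_cast hWL2
    rw [Nat.cast_sub hrQ] at h1
    have h2 : (W : ℝ) * (N : ℝ) ^ ((149 : ℝ) / 200) < W * L := by nlinarith
    exact (lt_of_mul_lt_mul_left h2 (by linarith)).le
  · have h1 : N / W ≤ N / 2 := Nat.div_le_div_left hW (by norm_num)
    have h2 : 2 * L ≤ W * L := Nat.mul_le_mul_right _ hW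
    omega
  · have h1 : ((Q - r : ℕ) : ℝ) < W * (L + 1) := by exact_mod_cast hWL2
    rw [Nat.cast_sub hrQ] at h1
    have h2 : (2 * W + 2 * r + 2 : ℝ) * 1 ≤
        (N : ℝ) ^ ((1 : ℝ) / 200) * (N : ℝ) ^ ((149 : ℝ) / 200) :=
      mul_le_mul w3 hT1 zero_le_one (by positivity)
    rw [mul_comm ((N : ℝ) ^ ((1 : ℝ) / 200)), ← hsplit] at h2
    linarith

end Pool.Agent.J6H17.QP
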