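import Pool.Agent.J6H17.QP.Block
import Pool.Agent.J6H17.QP.Quad
import Pool.Agent.R498.MT.QGen

set_option autoImplicit false
set_option linter.unusedSectionVars false

/-! Weights in short intervals: quadratic polynomials. -/

namespace Pool.Agent.J6H17.QP

open Finset Filter Polynomial
open Pool.Agent.R498.MT
open Pool.Agent.Y677.RSZ (rt Sys per_mod ev_log)
open Pool.Agent.W23.DC
open Pool.Agent.Y882
open Pool.Agent.Y882.PX
open Pool.Agent.Y882.KW

theorem Gq_eq (A B C : ℤ) : (fun n : ℤ => (QG A B C).eval n) = Gq A B C := by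
  funext n
  rw [QG_eval]
  rfl

/-- the slots -/
theorem SL_of (A B C : ℤ) (hA : A ≠ 0) (hΔ : ¬ IsSquare (B ^ 2 - 4 * A * C)) (K₀ : ℕ)
    (f : ℕ → ℤ × ℤ) (hf1 : ∀ i < K₀, 1 ≤ (f i).1)
    (hfi : ∀ i < K₀, ∀ j < K₀, f i = f j → i = j)
    (hfp : ∀ i < K₀, ∀ p : ℕ, p.Prime → (p : ℤ) ∣ (f i).1 → ¬ (p : ℤ) ∣ Gq A B C (f i).2)
    (W r : ℕ) (hW : 1 ≤ W)
    (hWr : ∀ p : ℕ, p.Prime → p ∣ W → ∀ i < K₀, ¬ (p : ℤ) ∣ Gq A B C ((f i).1 * r + (f i).2)) :
    ∃ (r' Na Bd : ℕ) (a s : ℕ → ℕ), r' ≡ r [MOD W] ∧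
      (∀ i < K₀, ∀ K : ℕ, ((a i * K + s i : ℕ) : ℤ) = (f i).1 * ((W * K + r' : ℕ) : ℤ) + (f i).2) ∧
      (∀ i < K₀, (f i).1.natAbs + (f i).2.natAbs ≤ Na) ∧
      SL (Gq A B C) W (fun i : Fin K₀ => a i) (fun i : Fin K₀ => s i) Bd := by
  set m0 : ℕ := ∑ i ∈ range K₀, (f i).2.natAbs with hm0
  set r' : ℕ := r + W * m0 with hr'
  have hpos : ∀ i < K₀, 0 ≤ (f i).1 * (r' : ℤ) + (f i).2 := by
    intro i hi
    have h1 : (f i).2.natAbs ≤ m0 :=
      Finset.single_le_sum (f := fun i => (f i).2.natAbs) (fun _ _ => Nat.zero_le _)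
        (mem_range.2 hi)
    have h2 : m0 ≤ r' := by
      have : m0 ≤ W * m0 := Nat.le_mul_of_pos_left _ hW
      omega
    have h3 : (((f i).2.natAbs : ℕ) : ℤ) ≤ (r' : ℤ) := by exact_mod_cast h1.trans h2
    have h4 : -(((f i).2.natAbs : ℕ) : ℤ) ≤ (f i).2 := by omega
    have h5 : (r' : ℤ) ≤ (f i).1 * (r' : ℤ) := by
      have h6 := hf1 i hi
      have h7 : (0 : ℤ) ≤ (r' : ℤ) := Int.natCast_nonneg _
      nlinarith
    linarith
  have hcast : ∀ i < K₀, ∀ K : ℕ,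
      (((f i).1.toNat * W * K + ((f i).1 * (r' : ℤ) + (f i).2).toNat : ℕ) : ℤ) =
      (f i).1 * ((W * K + r' : ℕ) : ℤ) + (f i).2 := by
    intro i hi K
    push_cast
    rw [Int.toNat_of_nonneg (hpos i hi), Int.toNat_of_nonneg (by have := hf1 i hi; omega)]
    ring
  refine ⟨r', ∑ i ∈ range K₀, ((f i).1.natAbs + (f i).2.natAbs),
    ∑ i ∈ range K₀, ∑ j ∈ range K₀, (Rs A B C (f i) (f j)).natAbs,
    fun i => (f i).1.toNat * W, fun i => ((f i).1 * (r' : ℤ) + (f i).2).toNat, ?_, hcast, ?_, ?_⟩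
  · rw [hr']
    exact (Nat.modEq_iff_dvd' (by omega)).2 (by
      rw [Nat.add_sub_cancel_left]
      exact Dvd.intro _ rfl) |>.symm
  · intro i hi
    exact Finset.single_le_sum (f := fun i => (f i).1.natAbs + (f i).2.natAbs)
      (fun _ _ => Nat.zero_le _) (mem_range.2 hi)
  · refine ⟨?_, ?_, ?_, ?_⟩
    · intro i
      have h1 := hf1 i i.2
      have h2 : 1 ≤ (f i).1.toNat := by omega
      exact Nat.mul_pos h2 hW
    · intro p hp hpW i K hd
      simp only at hd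
      rw [hcast i i.2 K] at hd
      apply hWr p hp hpW i i.2
      refine (Gq_per A B C p _ _ ?_).1 hd
      have e : (f i).1 * ((W * K + r' : ℕ) : ℤ) + (f i).2 - ((f i).1 * (r : ℤ) + (f i).2) =
          (W : ℤ) * ((f i).1 * (K + m0)) := by
        rw [hr']
        push_cast
        ring
      rw [e]
      exact (Int.natCast_dvd_natCast.2 hpW).mul_right _
    · intro p hp hpW i hpa K hd
      simp only at hd hpa
      rw [hcast i i.2 K] at hd
      have h1 : p ∣ (f i).1.toNat := (hp.dvd_mul.1 hpa).resolve_right hpW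
      have h2 : (p : ℤ) ∣ (f i).1 := by
        have := Int.natCast_dvd_natCast.2 h1
        rwa [Int.toNat_of_nonneg (by have := hf1 i i.2; omega)] at this
      apply hfp i i.2 p hp h2
      refine (Gq_per A B C p _ _ ?_).1 hd
      rw [add_sub_cancel_right]
      exact h2.mul_right _
    · intro p hp hpB K i j h1 h2
      simp only at h1 h2
      rw [hcast i i.2 K] at h1
      rw [hcast j j.2 K] at h2
      by_contra hij
      have hne : f i ≠ f j := fun h => hij (Fin.ext (hfi i i.2 j j.2 h))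
      have h3 := Rs_dvd A B C (f i) (f j) p _ h1 h2
      have h4 := Rs_ne A B C hA hΔ (f i) (f j) (hf1 i i.2) (hf1 j j.2) hne
      have h5 := Nat.le_of_dvd (Int.natAbs_pos.2 h4) (Int.natCast_dvd.1 h3)
      have h6 : (Rs A B C (f i) (f j)).natAbs ≤
          ∑ j ∈ range K₀, (Rs A B C (f i) (f j)).natAbs :=
        Finset.single_le_sum (f := fun j : ℕ => (Rs A B C (f i) (f j)).natAbs)
          (fun _ _ => Nat.zero_le _) (mem_range.2 j.2)
      have h7 : ∑ j ∈ range K₀, (Rs A B C (f i) (f j)).natAbs ≤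
          ∑ i ∈ range K₀, ∑ j ∈ range K₀, (Rs A B C (f i) (f j)).natAbs :=
        Finset.single_le_sum (f := fun i : ℕ => ∑ j ∈ range K₀, (Rs A B C (f i) (f j)).natAbs)
          (fun _ _ => Nat.zero_le _) (mem_range.2 i.2)
      omega

open Classical in
/-- **Weights in short intervals.** -/
theorem finQ (A B C : ℤ) (hA : A ≠ 0) (hΔ : ¬ IsSquare (B ^ 2 - 4 * A * C))
    (hfix : ∀ p : ℕ, p.Prime → ∃ n : ℤ, ¬ (p : ℤ) ∣ Gq A B C n) :
    ∃ (kb : ℕ → ℕ) (δ : ℝ), 0 < δ ∧ ∀ T : ℕ, ∃ (P₀ D : ℕ) (ε : ℝ), 0 < ε ∧ ∀ f : ℕ → ℤ × ℤ,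
      (∀ i < offb kb T, 1 ≤ (f i).1) →
      (∀ i < offb kb T, ∀ j < offb kb T, f i = f j → i = j) →
      (∀ i < offb kb T, ∀ p : ℕ, p.Prime → (p : ℤ) ∣ (f i).1 → ¬ (p : ℤ) ∣ Gq A B C (f i).2) →
      ∀ W r : ℕ, 1 ≤ W → (∀ p : ℕ, p.Prime → p ≤ P₀ → p ∣ W) →
      (∀ p : ℕ, p.Prime → p ∣ W → ∀ i < offb kb T,
        ¬ (p : ℤ) ∣ Gq A B C ((f i).1 * r + (f i).2)) →
      ∃ cm : ℝ, 0 < cm ∧ ∀ᶠ N : ℕ in atTop, ∃ (Sf : Finset ℕ) (mu : ℕ → ℝ),
        (∀ n ∈ Sf, 0 ≤ mu n ∧ mu n * (N : ℝ) ^ (3 / 4 : ℝ) ≤ cm * Real.log N ^ D ∧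
          N < n ∧ (n : ℝ) ≤ N + (N : ℝ) ^ (3 / 4 : ℝ) ∧ n ≡ r [MOD W] ∧
          ∀ i < offb kb T, ∀ p : ℕ, p.Prime → (p : ℤ) ∣ Gq A B C ((f i).1 * n + (f i).2) →
            (n : ℝ) ^ ε ≤ p) ∧
        ∑ n ∈ Sf, mu n ≤ 2 ∧
        ∀ t < T, δ ≤ ∑ n ∈ Sf.filter (fun n => ∃ i ∈ Ico (offb kb t) (offb kb (t + 1)),
          PQ A B C 3 (9 / 50) (f i) n), mu n := by
  set τ : ℝ := 73 / 100 with hτ
  set υ : ℝ := 24 / 25 * τ with hυ
  have hυ' : υ = 438 / 625 := by rw [hυ, hτ]; norm_num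
  have hcond : ∫ x in (73 / 400 : ℝ)..υ, ((8 / 9 : ℝ) - (8 / 9) / υ * x) / (τ - x) / x <
      Real.log (τ / (73 / 400) - 1) / τ := by
    have h := cond_A τ (8 / 9) (by rw [hτ]; norm_num) (by norm_num) (by norm_num)
    have e : τ / 4 = 73 / 400 := by rw [hτ]; norm_num
    rw [e] at h
    exact h
  -- the system
  have hGne : QG A B C ≠ 0 := by
    intro h
    have := congrArg (fun Q : ℤ[X] => Q.eval 0) h
    simp only [QG_eval, eval_zero] at this
    exact QG_ne_zero A B C hΔ 0 this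
  obtain ⟨g, hg⟩ := Pool.Agent.Y677.RSZ.poly_all (QG A B C) hGne (fun p hp => by
    obtain ⟨n, hn⟩ := hfix p hp
    refine ⟨n, fun h => hn ?_⟩
    rw [QG_eval] at h
    exact h)
  rw [Gq_eq] at hg
  set CG : ℕ := A.natAbs + B.natAbs + C.natAbs with hCG
  have hGs0 : ∀ n : ℕ, Gq A B C (n : ℤ) ≠ 0 ∧
      (Gq A B C (n : ℤ)).natAbs ≤ CG * (n + 1) ^ 2 := by
    intro n
    refine ⟨Gq_ne_zero A B C hΔ _, ?_⟩
    have h1 : (Gq A B C (n : ℤ)).natAbs ≤ A.natAbs * n ^ 2 + B.natAbs * n + C.natAbs := by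
      unfold Gq
      calc (A * (n : ℤ) ^ 2 + B * n + C).natAbs ≤ (A * (n : ℤ) ^ 2 + B * n).natAbs + C.natAbs :=
            Int.natAbs_add_le _ _
        _ ≤ (A * (n : ℤ) ^ 2).natAbs + (B * n).natAbs + C.natAbs := by
            have := Int.natAbs_add_le (A * (n : ℤ) ^ 2) (B * n)
            omega
        _ = _ := by rw [Int.natAbs_mul, Int.natAbs_mul, Int.natAbs_pow, Int.natAbs_natCast]
    refine h1.trans ?_
    nlinarith [Nat.zero_le (A.natAbs * n), Nat.zero_le (B.natAbs * n ^ 2),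
      Nat.zero_le (B.natAbs * n), Nat.zero_le (C.natAbs * n), Nat.zero_le (C.natAbs * n ^ 2),
      Nat.zero_le A.natAbs, Nat.zero_le B.natAbs, Nat.zero_le C.natAbs]
  have hGs' : ∀ n : ℕ, Gq A B C (n : ℤ) ≠ 0 ∧ (Gq A B C (n : ℤ)).natAbs ≤ (n + 2) ^ (CG + 2) := by
    intro n
    refine ⟨(hGs0 n).1, (hGs0 n).2.trans ?_⟩
    rw [pow_add]
    apply Nat.mul_le_mul
    · calc CG ≤ 2 ^ CG := Nat.lt_two_pow_self.le
        _ ≤ (n + 2) ^ CG := Nat.pow_le_pow_left (by omega) _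
    · exact Nat.pow_le_pow_left (by omega) _
  obtain ⟨kb, δ, hδ, hblock⟩ := blockQ (Gq A B C) g hg (CG + 2) hGs'
    (fun ε₁ υ η hε hυ hη => by
      have h := mer_QG A B C hA hΔ ε₁ υ η hε hυ hη
      rwa [Gq_eq] at h)
    2 (A.natAbs + (B ^ 2 - 4 * A * C).natAbs + 3)
    (fun q hq hqa N H => by
      have h := sq_QG A B C hA hΔ q hq (by omega) (by omega) N H
      simp only [QG_eval] at h
      refine le_trans (le_of_eq ?_) h
      congr)
    τ (73 / 400) υ (8 / 9) ((8 / 9) / υ) (149 / 200) (1 / 200) (by norm_num) (by rw [hτ]; norm_num)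
    (by rw [hτ]; norm_num) (by rw [hτ]; norm_num) (by rw [hυ']; norm_num)
    (by rw [hυ', hτ]; norm_num) (by norm_num) (by rw [hυ']; norm_num)
    (by rw [div_mul_cancel₀]; rw [hυ']; norm_num) hcond (by norm_num) (by norm_num)
    (by norm_num) (by rw [hτ]; norm_num) (by rw [hτ]; norm_num)
  refine ⟨kb, δ, hδ, fun T => ?_⟩
  obtain ⟨P₀, D, ε₁, Bb, hε, hBb, hblock⟩ := hblock T
  refine ⟨max P₀ 2, D, ε₁ / 2, by positivity, ?_⟩
  intro f hf1 hfi hfp W r hW hWp hWr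
  have hW2 : 2 ≤ W := Nat.le_of_dvd hW (hWp 2 Nat.prime_two (le_max_right _ _))
  obtain ⟨r', Na, Bd, a, s, hr', hcast, hNa, hSL⟩ :=
    SL_of A B C hA hΔ (offb kb T) f hf1 hfi hfp W r hW hWr
  obtain ⟨Y₀, hblock⟩ := hblock W a s Bd hSL hW (fun p hp hpP => hWp p hp (hpP.trans (le_max_left _ _)))
  have hWr0 : (0 : ℝ) < W := by exact_mod_cast hW
  refine ⟨2 * W * Bb, by positivity, ?_⟩
  filter_upwards [numsQ W r' (16 * CG * (Na + 1) ^ 2) Y₀ hW2] with N hN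
  obtain ⟨n1, n2, n3, n4, L, l1, l2, l3, l4, l5⟩ := hN
  have hNr : (2 : ℝ) ≤ N := by exact_mod_cast n1
  have hN0 : (0 : ℝ) < N := by linarith
  have hN1 : (1 : ℝ) ≤ N := by linarith
  obtain ⟨M, hM⟩ : ∃ M : ℕ, M = N / W := ⟨_, rfl⟩
  obtain ⟨mu, m1, m2, m3, m4⟩ := hblock N n2 M L l2 (by rw [hM]; exact l3)
  have hinj : Function.Injective (fun K : ℕ => W * K + r') := by
    intro K K' h
    simp only [add_left_inj] at h
    exact Nat.eq_of_mul_eq_mul_left hW h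
  have hbds : ∀ K ∈ Ioc M (M + L), N < W * K + r' ∧ W * K + r' ≤ N + ⌊(N : ℝ) ^ (3 / 4 : ℝ)⌋₊ := by
    intro K hK
    rw [mem_Ioc] at hK
    have h1 : N < W * (M + 1) := by
      rw [hM]
      exact Nat.lt_mul_div_succ N hW
    have h2 : W * (M + 1) ≤ W * K := Nat.mul_le_mul_left _ (by omega)
    have h3 : W * K ≤ W * (M + L) := Nat.mul_le_mul_left _ hK.2
    have h4 : W * M ≤ N := by rw [hM]; exact Nat.mul_div_le _ _
    have h5 : W * (M + L) = W * M + W * L := by ring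
    omega
  have hdiv : ∀ K : ℕ, (W * K + r' - r') / W = K := by
    intro K
    rw [Nat.add_sub_cancel]
    exact Nat.mul_div_cancel_left K hW
  set S0 : Finset ℕ := (Ioc M (M + L)).filter (fun K => mu K ≠ 0) with hS0
  refine ⟨S0.image (fun K => W * K + r'), fun n => mu ((n - r') / W), ?_, ?_, ?_⟩
  · intro n hn
    rw [mem_image] at hn
    obtain ⟨K, hK, rfl⟩ := hn
    rw [hS0, mem_filter] at hK
    obtain ⟨hK, hK0⟩ := hK
    have hb := hbds K hK
    refine ⟨?_, ?_, hb.1, ?_, ?_, ?_⟩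
    · simp only [hdiv]
      exact (m1 K hK).1
    · simp only [hdiv]
      calc mu K * (N : ℝ) ^ (3 / 4 : ℝ) ≤ mu K * (2 * W * L) :=
            mul_le_mul_of_nonneg_left l5 (m1 K hK).1
        _ = 2 * W * (mu K * L) := by ring
        _ ≤ 2 * W * (Bb * Real.log N ^ D) :=
            mul_le_mul_of_nonneg_left (m1 K hK).2 (by positivity)
        _ = _ := by ring
    · have h1 : ((W * K + r' : ℕ) : ℝ) ≤ ((N + ⌊(N : ℝ) ^ (3 / 4 : ℝ)⌋₊ : ℕ) : ℝ) := by
        exact_mod_cast hb.2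
      refine h1.trans ?_
      push_cast
      have := Nat.floor_le (show 0 ≤ (N : ℝ) ^ (3 / 4 : ℝ) by positivity)
      linarith
    · have h1 : W * K + r' ≡ r' [MOD W] := by
        have : W * K ≡ 0 [MOD W] := (Nat.modEq_zero_iff_dvd).2 (Dvd.intro _ rfl)
        simpa using this.add_right r'
      exact h1.trans hr'
    · intro i hi p hp hpd
      by_contra hcon
      push Not at hcon
      rw [← hcast i hi K] at hpd
      refine m2 K hK hK0 i hi p hp (hcon.trans_le ?_) hpd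
      have h1 : ((W * K + r' : ℕ) : ℝ) ≤ (N : ℝ) ^ (2 : ℝ) := by
        have h2 : W * K + r' ≤ N ^ 2 := by
          have h3 := hb.2
          nlinarith
        have h3 : ((W * K + r' : ℕ) : ℝ) ≤ ((N ^ 2 : ℕ) : ℝ) := by exact_mod_cast h2
        refine h3.trans (le_of_eq ?_)
        push_cast
        rw [← Real.rpow_natCast]
        norm_num
      calc ((W * K + r' : ℕ) : ℝ) ^ (ε₁ / 2) ≤ ((N : ℝ) ^ (2 : ℝ)) ^ (ε₁ / 2) :=
            Real.rpow_le_rpow (by positivity) h1 (by positivity)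
        _ = (N : ℝ) ^ ε₁ := by
            rw [← Real.rpow_mul hN0.le]
            congr 1
            ring
  · rw [sum_image (fun K _ K' _ h => hinj h)]
    simp only [hdiv]
    rw [hS0, sum_filter_ne_zero]
    exact m3
  · intro t ht
    refine (m4 t ht).trans ?_
    rw [filter_image, sum_image (fun K _ K' _ h => hinj h)]
    simp only [hdiv]
    have e1 : ∑ K ∈ S0.filter (fun K => ∃ i ∈ Ico (offb kb t) (offb kb (t + 1)),
        PQ A B C 3 (9 / 50) (f i) (W * K + r')), mu K = ∑ K ∈ (Ioc M (M + L)).filter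
        (fun K => ∃ i ∈ Ico (offb kb t) (offb kb (t + 1)),
        PQ A B C 3 (9 / 50) (f i) (W * K + r')), mu K := by
      rw [hS0, filter_filter, ← sum_filter_ne_zero (s := (Ioc M (M + L)).filter
        (fun K => ∃ i ∈ Ico (offb kb t) (offb kb (t + 1)),
        PQ A B C 3 (9 / 50) (f i) (W * K + r'))), filter_filter]
      apply sum_congr _ (fun _ _ => rfl)
      ext K
      simp only [mem_filter]
      tauto
    refine le_trans ?_ (le_of_eq e1.symm)
    apply sum_le_sum_of_subset_of_nonneg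
    swap
    · intro K hK _
      exact (m1 K (mem_filter.1 hK).1).1
    intro K hK
    rw [mem_filter] at hK ⊢
    obtain ⟨hK, i, hi, hw, hsq⟩ := hK
    refine ⟨hK, i, hi, ?_⟩
    have hb := hbds K hK
    have hiT : i < offb kb T := (mem_Ico.1 hi).2.trans_le ((offb_strict kb).monotone ht)
    have hval := hcast i hiT K
    have hx : ((a i * K + s i : ℕ) : ℤ) + 1 ≤ 4 * (Na + 1) * N := by
      rw [hval]
      have h1 := hNa i hiT
      have h2 : ((W * K + r' : ℕ) : ℤ) ≤ 2 * N := by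
        have : W * K + r' ≤ 2 * N := by omega
        exact_mod_cast this
      have h3 : (f i).1 ≤ Na := by omega
      have h4 : (f i).2 ≤ Na := by omega
      have h5 : (f i).1 * ((W * K + r' : ℕ) : ℤ) ≤ Na * (2 * N) := by
        apply mul_le_mul h3 h2 (Int.natCast_nonneg _)
        omega
      have h6 : (1 : ℤ) ≤ N := by exact_mod_cast (by omega : 1 ≤ N)
      have h7 : (0 : ℤ) ≤ Na := Int.natCast_nonneg _
      nlinarith
    have hx' : a i * K + s i + 1 ≤ 4 * (Na + 1) * N := by exact_mod_cast hx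
    have hsize : (((Gq A B C ((a i * K + s i : ℕ) : ℤ)).natAbs : ℕ) : ℝ) ≤
        (N : ℝ) ^ ((201 : ℝ) / 100) := by
      have h1 := (hGs0 (a i * K + s i)).2
      have h2 : (((Gq A B C ((a i * K + s i : ℕ) : ℤ)).natAbs : ℕ) : ℝ) ≤
          CG * ((a i * K + s i + 1 : ℕ) : ℝ) ^ 2 := by exact_mod_cast h1
      have h3 : ((a i * K + s i + 1 : ℕ) : ℝ) ≤ 4 * (Na + 1) * N := by exact_mod_cast hx'
      have h4 : ((a i * K + s i + 1 : ℕ) : ℝ) ^ 2 ≤ (4 * (Na + 1) * N) ^ 2 :=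
        pow_le_pow_left₀ (by positivity) h3 2
      push_cast at n3
      calc (((Gq A B C ((a i * K + s i : ℕ) : ℤ)).natAbs : ℕ) : ℝ) ≤ CG * (4 * (Na + 1) * N) ^ 2 :=
            h2.trans (mul_le_mul_of_nonneg_left h4 (Nat.cast_nonneg _))
        _ = (16 * CG * (Na + 1) ^ 2) * (N : ℝ) ^ 2 := by ring
        _ ≤ (N : ℝ) ^ ((1 : ℝ) / 100) * (N : ℝ) ^ 2 :=
            mul_le_mul_of_nonneg_right n3 (by positivity)
        _ = _ := by
            rw [← Real.rpow_natCast (N : ℝ) 2, ← Real.rpow_add hN0]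
            congr 1
            push_cast
            norm_num
    have halm := almost N n1 (73 / 400) υ (8 / 9) (201 / 100) 3 (by rw [hυ']; norm_num)
      (by rw [hυ']; norm_num) (by rw [hυ']; norm_num) (by norm_num)
      (by rw [hυ']; norm_num) (Gq A B C ((a i * K + s i : ℕ) : ℤ)).natAbs
      (Int.natAbs_ne_zero.2 (hGs0 _).1) hsize hw (fun q hq hqd => hsq q hq (Int.natCast_dvd.2 hqd))
    rw [hval] at halm
    refine ⟨halm.1, fun p hp hpd => ?_⟩
    refine le_trans ?_ (halm.2 p hp (Int.natCast_dvd.1 hpd))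
    have h1 : ((W * K + r' : ℕ) : ℝ) ≤ 2 * N := by
      have : W * K + r' ≤ 2 * N := by omega
      exact_mod_cast this
    calc ((W * K + r' : ℕ) : ℝ) ^ (9 / 50 : ℝ) ≤ (2 * N : ℝ) ^ (9 / 50 : ℝ) :=
          Real.rpow_le_rpow (by positivity) h1 (by norm_num)
      _ = (2 : ℝ) ^ (9 / 50 : ℝ) * (N : ℝ) ^ (9 / 50 : ℝ) := Real.mul_rpow (by norm_num) hN0.le
      _ ≤ 2 * (N : ℝ) ^ (9 / 50 : ℝ) := by
          apply mul_le_mul_of_nonneg_right _ (by positivity)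
          calc (2 : ℝ) ^ (9 / 50 : ℝ) ≤ 2 ^ (1 : ℝ) :=
                Real.rpow_le_rpow_of_exponent_le (by norm_num) (by norm_num)
            _ = 2 := Real.rpow_one _
      _ ≤ (N : ℝ) ^ ((1 : ℝ) / 400) * (N : ℝ) ^ (9 / 50 : ℝ) :=
          mul_le_mul_of_nonneg_right n4 (by positivity)
      _ = (N : ℝ) ^ (73 / 400 : ℝ) := by
          rw [← Real.rpow_add hN0]
          norm_num

end Pool.Agent.J6H17.QP
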