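import Pool.Agent.J6H17.QP.PatM
import Pool.Agent.J6H17.TA.Core

set_option autoImplicit false

/-! Infinite matrices of linear forms: the game in which rows and columns are chosen with respect to an
ultrafilter, for almost prime values of quadratic polynomials. -/

namespace Pool.Agent.J6H17.QP

open Finset Filter
open Pool.Agent.N790.IA (hits blocks blocks_unique)
open Pool.Agent.J6H17.TA (lim_val diag2 Bad good_of_not next_col next_row strat res)

/-- avoiding the roots of few forms modulo a prime -/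
theorem avoidForms (A B C : ℤ) {p : ℕ} (hp : p.Prime) (D : Finset (ℤ × ℤ))
    (hD : ∀ g ∈ D, NoFix A B C g) (hc : 2 * D.card < p ∨ D.card ≤ 1) :
    ∃ y : ℕ, ∀ g ∈ D, ¬ (p : ℤ) ∣ Gq A B C (g.1 * y + g.2) := by
  classical
  rcases hc with hc | hc
  · set bad := D.biUnion (fun g => (range p).filter
      (fun y : ℕ => (p : ℤ) ∣ Gq A B C (g.1 * y + g.2))) with hbad
    have hcard : bad.card < p := by
      calc bad.card ≤ ∑ g ∈ D, ((range p).filter
            (fun y : ℕ => (p : ℤ) ∣ Gq A B C (g.1 * y + g.2))).card := card_biUnion_le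
        _ ≤ ∑ _g ∈ D, 2 := sum_le_sum fun g hg => roots_le A B C g (hD g hg) p hp
        _ = 2 * D.card := by rw [sum_const, smul_eq_mul, mul_comm]
        _ < p := hc
    obtain ⟨y, hy, hyb⟩ : ∃ y ∈ range p, y ∉ bad := by
      by_contra hcon
      push Not at hcon
      have := card_le_card (show range p ⊆ bad from hcon)
      rw [card_range] at this
      omega
    refine ⟨y, fun g hg hd => hyb ?_⟩
    rw [hbad, mem_biUnion]
    exact ⟨g, hg, mem_filter.2 ⟨hy, hd⟩⟩
  · rcases D.eq_empty_or_nonempty with rfl | ⟨g, hg⟩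
    · exact ⟨0, by simp⟩
    · have hDg : ∀ g' ∈ D, g' = g := fun g' hg' => card_le_one.1 hc g' hg' g hg
      obtain ⟨n, hn⟩ := hD g hg p hp
      have hp0 : (0 : ℤ) < p := by exact_mod_cast hp.pos
      refine ⟨(n % p).toNat, fun g' hg' h => hn ?_⟩
      rw [hDg g' hg'] at h
      refine (Gq_per A B C p _ _ ?_).1 h
      rw [Int.toNat_of_nonneg (Int.emod_nonneg _ hp0.ne')]
      have e : g.1 * (n % p) + g.2 - (g.1 * n + g.2) = g.1 * (n % p - n) := by ring
      rw [e]
      apply Dvd.dvd.mul_left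
      have := Int.dvd_self_sub_emod (x := n) (m := (p : ℤ))
      rw [← neg_sub]
      exact (dvd_neg).2 this

theorem res_iff (A B C : ℤ) {m : ℕ} {g g' : ℤ × ℤ} (h : res m g = res m g') (y : ℤ) :
    ((m + 1 : ℕ) : ℤ) ∣ Gq A B C (g.1 * y + g.2) ↔ ((m + 1 : ℕ) : ℤ) ∣ Gq A B C (g'.1 * y + g'.2) := by
  have h1 : (g.1 : ZMod (m + 1)) = g'.1 := (Prod.ext_iff.1 h).1
  have h2 : (g.2 : ZMod (m + 1)) = g'.2 := (Prod.ext_iff.1 h).2
  have h3 : g.1 ≡ g'.1 [ZMOD ((m + 1 : ℕ) : ℤ)] := (ZMod.intCast_eq_intCast_iff _ _ _).1 h1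
  have h4 : g.2 ≡ g'.2 [ZMOD ((m + 1 : ℕ) : ℤ)] := (ZMod.intCast_eq_intCast_iff _ _ _).1 h2
  apply Gq_per
  exact Int.modEq_iff_dvd.1 ((h3.mul_right _).add h4).symm

/-- the entries of `F` have almost prime values, all forms of any given finite set `T` which are not entries of `F`
having no such values, if all the columns which contain a form of `T` are related to the
columns of `F` or to the rows in `R` -/
def GdQ {ι : Type} {n : ℕ} (A B C : ℤ) (s : ℕ) (θ : ℝ) (NN : ℕ → Finset ℕ) (V Q : ι → ι → Prop)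
    (P : ι → ι → Fin n → ℤ × ℤ) (R : Finset ι) (F : Finset (ι × ι × Fin n)) : Prop :=
  ∀ T : Finset (ℤ × ℤ), (∀ t ∈ T, 1 ≤ t.1 ∧ ∀ j r a, V j r → t = P j r a →
      (∃ q ∈ F, Q q.1 j) ∨ ∃ r' ∈ R, Q r' j) →
    Often NN {x : ℕ | (∀ q ∈ F, PQ A B C s θ (P q.1 q.2.1 q.2.2) x) ∧
      ∀ t ∈ T, PQ A B C s θ t x → ∃ q ∈ F, t = P q.1 q.2.1 q.2.2}

/-- conditions for a row -/
structure RowQ {ι : Type} {n : ℕ} (A B C : ℤ) (U : Ultrafilter ι) (V : ι → ι → Prop)
    (P : ι → ι → Fin n → ℤ × ℤ) (r : ι) : Prop where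
  val : ∀ᶠ j in (U : Filter ι), V j r
  prim : ∀ a, ∀ᶠ j in (U : Filter ι), 1 ≤ (P j r a).1 ∧ NoFix A B C (P j r a)
  esc : ∀ a t, ∀ᶠ j in (U : Filter ι), P j r a ≠ t

/-- conditions for the matrices -/
structure ArrQ {ι : Type} (A B C : ℤ) (n : ℕ) (U : Ultrafilter ι) (V Q : ι → ι → Prop)
    (P : ι → ι → Fin n → ℤ × ℤ) : Prop where
  row : ∀ᶠ r in (U : Filter ι), RowQ A B C U V P r
  sep : ∀ j', ∀ᶠ j in (U : Filter ι), ¬ Q j' j ∧ ¬ Q j j'
  adm : ∀ p : ℕ, p.Prime → p < 2 * n → ∃ c : ℤ, ∀ᶠ r in (U : Filter ι), ∀ a,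
    ∀ᶠ j in (U : Filter ι), ¬ (p : ℤ) ∣ Gq A B C ((P j r a).1 * c + (P j r a).2)

/-- **the empty pattern is not bad**, for a large set of kinds of rows -/
theorem notBadQ (A B C : ℤ) (hA : A ≠ 0) (hΔ : ¬ IsSquare (B ^ 2 - 4 * A * C))
    (hfix : ∀ p : ℕ, p.Prime → ∃ n : ℤ, ¬ (p : ℤ) ∣ Gq A B C n) :
    ∃ K : ℕ, ∀ (s : ℕ) (θ : ℝ), 3 ≤ s → θ ≤ 9 / 50 → ∀ NN : ℕ → Finset ℕ,
      (∀ k, (NN k).Nonempty) → (∀ b, ∀ᶠ k in atTop, ∀ N ∈ NN k, b ≤ N) →
      ∀ (ι : Type) [DecidableEq ι] (n : ℕ), 1 ≤ n → ∀ (U : Ultrafilter ι) (V Q : ι → ι → Prop)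
      (P : ι → ι → Fin n → ℤ × ℤ), ArrQ A B C n U V Q P →
      ∃ S : Finset (Fin n), n ≤ K * S.card ∧ ∀ α, ¬ Bad U (GdQ A B C s θ NN V Q P) S α ∅ ∅ := by
  classical
  obtain ⟨K, off, hoff, h0, hcl⟩ := rowPatternQ A B C hA hΔ hfix
  refine ⟨K, fun s θ hs3 hθ NN hN1 hN2 ι _ n hn U V Q P h => ?_⟩
  by_contra hcon
  push Not at hcon
  choose sr sa sX hsX hs using fun (S : Finset (Fin n)) (R : Finset ι) (F : Finset (ι × ι × Fin n)) =>
    strat (U := U) (G := GdQ A B C s θ NN V Q P) hn S R F
  -- the residues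
  choose v hv using fun (m : ℕ) (r : ι) (a : Fin n) => lim_val U (fun j => res m (P j r a))
  choose vs hvs using fun (m : ℕ) (a : Fin n) => lim_val U (fun r => v m r a)
  set M : ℕ → ℕ := fun i => 2 * (n + (i + 1) * (n + 1)) with hM
  obtain ⟨r, j, hrj⟩ := diag2 U
    (fun i Sr Sc => {r | (∀ S : Finset (Fin n), ∀ R ∈ Sr.powerset, ∀ F ∈ (Sc ×ˢ Sr ×ˢ univ).powerset,
      r ∈ sX S R F) ∧ RowQ A B C U V P r ∧ (∀ j' ∈ Sc, ¬ Q j' r ∧ ¬ Q r j') ∧
      ∀ m ∈ range (M i), ∀ a, v m r a = vs m a})
    (fun i Sr Sc => {j | (∀ S : Finset (Fin n), ∀ R ∈ Sr.powerset, ∀ F ∈ (Sc ×ˢ Sr ×ˢ univ).powerset,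
      j ∈ sX S R F) ∧ (∀ r ∈ Sr, RowQ A B C U V P r →
        V j r ∧ ∀ a, 1 ≤ (P j r a).1 ∧ NoFix A B C (P j r a)) ∧
      (∀ r ∈ Sr, RowQ A B C U V P r → ∀ a, ∀ q ∈ (Sc ×ˢ Sr ×ˢ univ : Finset (ι × ι × Fin n)),
        P j r a ≠ P q.1 q.2.1 q.2.2) ∧ (∀ j' ∈ Sc ∪ Sr, ¬ Q j' j ∧ ¬ Q j j') ∧
      ∀ m ∈ range (M i), ∀ r ∈ Sr, ∀ a, res m (P j r a) = v m r a})
    (by
      intro i Sr Sc
      refine Filter.Eventually.and ?_ (Filter.Eventually.and h.row (Filter.Eventually.and ?_ ?_))
      · rw [Filter.eventually_all]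
        intro S
        rw [Filter.eventually_all_finset]
        intro R _
        rw [Filter.eventually_all_finset]
        intro F _
        exact hsX S R F
      · rw [Filter.eventually_all_finset]
        intro j' _
        exact h.sep j'
      · rw [Filter.eventually_all_finset]
        intro m _
        rw [Filter.eventually_all]
        intro a
        exact hvs m a)
    (by
      intro i Sr Sc
      refine Filter.Eventually.and ?_ (Filter.Eventually.and ?_ (Filter.Eventually.and ?_
        (Filter.Eventually.and ?_ ?_)))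
      · rw [Filter.eventually_all]
        intro S
        rw [Filter.eventually_all_finset]
        intro R _
        rw [Filter.eventually_all_finset]
        intro F _
        exact hsX S R F
      · rw [Filter.eventually_all_finset]
        intro r _
        by_cases hr : RowQ A B C U V P r
        · have h1 : ∀ᶠ j in (U : Filter ι), ∀ a,
              1 ≤ (P j r a).1 ∧ NoFix A B C (P j r a) := by
            rw [Filter.eventually_all]
            intro a
            exact hr.prim a
          filter_upwards [hr.val, h1] with j h2 h3 _ using ⟨h2, h3⟩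
        · filter_upwards with j h2 using absurd h2 hr
      · rw [Filter.eventually_all_finset]
        intro r _
        by_cases hr : RowQ A B C U V P r
        · have h1 : ∀ᶠ j in (U : Filter ι), ∀ a,
              ∀ q ∈ (Sc ×ˢ Sr ×ˢ univ : Finset (ι × ι × Fin n)), P j r a ≠ P q.1 q.2.1 q.2.2 := by
            rw [Filter.eventually_all]
            intro a
            rw [Filter.eventually_all_finset]
            intro q _
            exact hr.esc a _
          filter_upwards [h1] with j h2 _ using h2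
        · filter_upwards with j h2 using absurd h2 hr
      · rw [Filter.eventually_all_finset]
        intro j' _
        exact h.sep j'
      · rw [Filter.eventually_all_finset]
        intro m _
        rw [Filter.eventually_all_finset]
        intro r _
        rw [Filter.eventually_all]
        intro a
        exact hv m r a)
  choose blk hblk1 hblk2 using blocks hoff h0
  have hblk3 : ∀ i, blk i ≤ i := fun i => (hoff.id_le (blk i)).trans (hblk1 i)
  set rw' : ℕ → ℕ := fun i => (Nat.unpair (blk i / n)).1 with hrw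
  set ty : ℕ → Fin n := fun i => ⟨blk i % n, Nat.mod_lt _ hn⟩ with hty
  have hrwi : ∀ i, rw' i ≤ i := fun i =>
    (Nat.unpair_left_le _).trans ((Nat.div_le_self _ _).trans (hblk3 i))
  set f : ℕ → ℤ × ℤ := fun i => P (j i) (r (rw' i)) (ty i) with hf
  have hmem : ∀ {k i : ℕ}, k < i → r k ∈ (range i).image r := fun hk =>
    mem_image_of_mem _ (mem_range.2 hk)
  have hmem2 : ∀ {k i : ℕ}, k < i → j k ∈ (range i).image j := fun hk =>
    mem_image_of_mem _ (mem_range.2 hk)
  have hne : ∀ i' i, i' < i → f i ≠ f i' := by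
    intro i' i hi
    refine (hrj i).2.2.2.1 (r (rw' i)) (hmem (by have := hrwi i; omega)) (hrj _).1.2.1 (ty i)
      (j i', r (rw' i'), ty i') ?_
    simp only [Finset.mem_product, Finset.mem_univ, and_true]
    exact ⟨hmem2 hi, hmem (by have := hrwi i'; omega)⟩
  have hfinj : Function.Injective f := by
    intro i i' he
    rcases lt_trichotomy i i' with h1 | h1 | h1
    · exact absurd he.symm (hne _ _ h1)
    · exact h1
    · exact absurd he (hne _ _ h1)
  have hjinj : ∀ i i', Q (j i) (j i') → i = i' := by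
    intro i i' he
    rcases lt_trichotomy i i' with h1 | h1 | h1
    · exact absurd he ((hrj i').2.2.2.2.1 _ (mem_union_left _ (hmem2 h1))).1
    · exact h1
    · exact absurd he ((hrj i).2.2.2.2.1 _ (mem_union_left _ (hmem2 h1))).2
  have hrj' : ∀ k i, ¬ Q (r k) (j i) := by
    intro k i
    rcases Nat.lt_or_ge i k with h1 | h1
    · exact ((hrj k).1.2.2.1 _ (hmem2 h1)).2
    · exact ((hrj i).2.2.2.2.1 _ (mem_union_right _ (hmem (by omega)))).1
  have hprim : ∀ i, V (j i) (r (rw' i)) ∧ 1 ≤ (f i).1 ∧ NoFix A B C (f i) := by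
    intro i
    have h1 := (hrj i).2.2.1 (r (rw' i)) (hmem (by have := hrwi i; omega)) (hrj _).1.2.1
    exact ⟨h1.1, h1.2 (ty i)⟩
  have hres : ∀ m i, m < M i → res m (f i) = v m (r (rw' i)) (ty i) := by
    intro m i hmi
    exact (hrj i).2.2.2.2.2 m (mem_range.2 hmi) _ (hmem (by have := hrwi i; omega)) _
  have hresr : ∀ m k, m < M k → ∀ a, v m (r k) a = vs m a := by
    intro m k hmk a
    exact (hrj k).1.2.2.2 m (mem_range.2 hmk) a
  have hvrep : ∀ m r, RowQ A B C U V P r → ∀ a, ∃ g, NoFix A B C g ∧ res m g = v m r a := by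
    intro m r hr a
    obtain ⟨j', h1, h2⟩ := ((hv m r a).and (hr.prim a)).exists
    exact ⟨_, h2.2, h1⟩
  have hvsrep : ∀ m a, ∃ g, NoFix A B C g ∧ res m g = vs m a := by
    intro m a
    obtain ⟨r', h1, h2⟩ := ((hvs m a).and h.row).exists
    obtain ⟨g, hg1, hg2⟩ := hvrep m r' h2 a
    exact ⟨g, hg1, hg2.trans h1⟩
  choose G1 hG1 hG1' using fun (m k : ℕ) (a : Fin n) => hvrep m (r k) (hrj k).1.2.1 a
  choose G2 hG2 hG2' using hvsrep
  -- the local conditions
  have hadm' : ∀ p : ℕ, p.Prime → ∃ x : ℕ, ∀ i, ¬ (p : ℤ) ∣ Gq A B C ((f i).1 * x + (f i).2) := by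
    intro p hp
    obtain ⟨m, rfl⟩ : ∃ m, p = m + 1 := ⟨p - 1, by have := hp.pos; omega⟩
    rcases Nat.lt_or_ge (m + 1) (2 * n) with hmn | hmn
    · obtain ⟨c, hc⟩ := h.adm (m + 1) hp hmn
      have hp0 : (0 : ℤ) < ((m + 1 : ℕ) : ℤ) := by exact_mod_cast hp.pos
      refine ⟨(c % ((m + 1 : ℕ) : ℤ)).toNat, fun i hi => ?_⟩
      obtain ⟨r', h1, h2⟩ := ((hvs m (ty i)).and hc).exists
      obtain ⟨j', h3, h4⟩ := ((hv m r' (ty i)).and (h2 (ty i))).exists
      apply h4
      have h5 : res m (f i) = res m (P j' r' (ty i)) := by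
        rw [hres m i (by simp only [hM]; nlinarith), hresr m _ (by simp only [hM]; nlinarith), h3, h1]
      rw [← res_iff A B C h5]
      refine (Gq_per A B C _ _ _ ?_).1 hi
      rw [Int.toNat_of_nonneg (Int.emod_nonneg _ hp0.ne')]
      have e : (f i).1 * (c % ((m + 1 : ℕ) : ℤ)) + (f i).2 - ((f i).1 * c + (f i).2) =
          (f i).1 * (c % ((m + 1 : ℕ) : ℤ) - c) := by ring
      rw [e]
      apply Dvd.dvd.mul_left
      have := Int.dvd_self_sub_emod (x := c) (m := ((m + 1 : ℕ) : ℤ))
      rw [← neg_sub]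
      exact (dvd_neg).2 this
    · set κ := (m / 2 - n) / (n + 1) with hκ
      set D : Finset (ℤ × ℤ) := ((range κ).image f) ∪
          (((range κ ×ˢ univ).image (fun q : ℕ × Fin n => G1 m q.1 q.2)) ∪
            univ.image (G2 m)) with hD
      have hDc : D.card ≤ κ * (n + 1) + n := by
        have h2 : ((range κ).image f).card ≤ κ := by
          refine card_image_le.trans ?_
          rw [card_range]
        have h3 : ((range κ ×ˢ univ).image (fun q : ℕ × Fin n => G1 m q.1 q.2)).card ≤ κ * n := by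
          refine card_image_le.trans ?_
          rw [card_product, card_range, card_univ, Fintype.card_fin]
        have h4 : (univ.image (G2 m)).card ≤ n := by
          refine card_image_le.trans ?_
          rw [card_univ, Fintype.card_fin]
        have h5 := card_union_le ((range κ).image f)
          (((range κ ×ˢ univ).image (fun q : ℕ × Fin n => G1 m q.1 q.2)) ∪ univ.image (G2 m))
        have h6 := card_union_le ((range κ ×ˢ univ).image (fun q : ℕ × Fin n => G1 m q.1 q.2))
          (univ.image (G2 m))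
        have h7 : κ * (n + 1) = κ + κ * n := by ring
        rw [hD]
        omega
      have h1 : κ * (n + 1) ≤ m / 2 - n := Nat.div_mul_le_self _ _
      obtain ⟨y, hy⟩ := avoidForms A B C hp D (by
        intro d hd
        rw [hD, mem_union, mem_union, mem_image, mem_image, mem_image] at hd
        rcases hd with ⟨i, _, rfl⟩ | ⟨q, _, rfl⟩ | ⟨a, _, rfl⟩
        · exact (hprim i).2.2
        · exact hG1 _ _ _
        · exact hG2 _ _) (by
        rcases hp.eq_two_or_odd with h2 | h2
        · right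
          have hm1 : m = 1 := by omega
          have hn1 : n = 1 := by omega
          have h3 : κ * (n + 1) = 0 := by
            have : m / 2 - n = 0 := by rw [hm1, hn1]
            omega
          omega
        · left
          omega)
      refine ⟨y, fun i => ?_⟩
      have hlt : ∀ i, κ ≤ i → m < M i := by
        intro i hi
        have h1 : (m / 2 - n) < (i + 1) * (n + 1) := (Nat.div_lt_iff_lt_mul (by omega)).1 (by omega)
        simp only [hM]
        omega
      by_cases hi : i < κ
      · exact hy _ (by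
          rw [hD]
          exact mem_union_left _ (mem_image_of_mem _ (mem_range.2 hi)))
      · by_cases hk : rw' i < κ
        · have h5 : res m (f i) = res m (G1 m (rw' i) (ty i)) := by
            rw [hres m i (hlt i (by omega)), hG1']
          rw [res_iff A B C h5]
          refine hy _ ?_
          rw [hD]
          refine mem_union_right _ (mem_union_left _ (mem_image.2 ⟨(rw' i, ty i), ?_, rfl⟩))
          simp [hk]
        · have h5 : res m (f i) = res m (G2 m (ty i)) := by
            rw [hres m i (hlt i (by omega)), hresr m _ (hlt _ (by omega)), hG2']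
          rw [res_iff A B C h5]
          refine hy _ ?_
          rw [hD]
          exact mem_union_right _ (mem_union_right _ (mem_image_of_mem _ (mem_univ _)))
  have hfA : AdmQ A B C f := ⟨fun i => (hprim i).2.1, hfinj, fun i => (hprim i).2.2.pr, hadm'⟩
  obtain ⟨I, hPR, hI⟩ := hcl n hn f hfA s θ hs3 hθ NN hN1 hN2
  -- a set of kinds of rows which occurs infinitely often
  obtain ⟨S, hS, hSf⟩ : ∃ S : Finset (Fin n), n ≤ K * S.card ∧
      ∃ᶠ k in atTop, ∀ a ∈ S, ∃ᶠ w in atTop, hits off I (n * Nat.pair k w + (a : ℕ)) := by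
    by_contra hcon2
    have h1 : ∀ᶠ k in atTop, ∀ S : Finset (Fin n), n ≤ K * S.card →
        ¬ ∀ a ∈ S, ∃ᶠ w in atTop, hits off I (n * Nat.pair k w + (a : ℕ)) := by
      rw [Filter.eventually_all]
      intro S
      by_cases h : n ≤ K * S.card
      · have h2 : ¬ ∃ᶠ k in atTop, ∀ a ∈ S, ∃ᶠ w in atTop, hits off I (n * Nat.pair k w + (a : ℕ)) :=
          fun h3 => hcon2 ⟨S, h, h3⟩
        rw [Filter.not_frequently] at h2
        filter_upwards [h2] with β hβ _ using hβ
      · filter_upwards with β h3 using absurd h3 h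
    obtain ⟨k, hk1, hk2⟩ := (hPR.and_eventually h1).exists
    refine hk2 (univ.filter (fun a : Fin n => ∃ᶠ w in atTop, hits off I (n * Nat.pair k w + (a : ℕ))))
      ?_ (fun a ha => (mem_filter.1 ha).2)
    have h3 : (univ.filter (fun a : Fin n => ∃ᶠ w in atTop,
          hits off I (n * Nat.pair k w + (a : ℕ)))).map Fin.valEmbedding =
        (range n).filter (fun a => ∃ᶠ w in atTop, hits off I (n * Nat.pair k w + a)) := by
      ext a
      simp only [Finset.mem_map, mem_filter, mem_univ, true_and, mem_range, Fin.valEmbedding_apply]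
      constructor
      · rintro ⟨b, hb, rfl⟩
        exact ⟨b.2, hb⟩
      · rintro ⟨ha, hb⟩
        exact ⟨⟨a, ha⟩, hb, rfl⟩
    rw [← card_map Fin.valEmbedding, h3]
    exact hk1
  obtain ⟨α, hα⟩ := hcon S hS
  -- descent
  have key : ∀ ρ : Ordinal.{0}, ∀ (R : Finset ι) (F : Finset (ι × ι × Fin n)) (N : ℕ),
      Bad U (GdQ A B C s θ NN V Q P) S ρ R F →
      (∀ g ∈ R, ∃ k < N, (∀ a ∈ S, ∃ᶠ w in atTop, hits off I (n * Nat.pair k w + (a : ℕ))) ∧
        g = r k) →
      (∀ g ∈ F, ∃ i ∈ I, i < N ∧ g = (j i, r (rw' i), ty i)) → False := by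
    intro ρ
    induction ρ using WellFoundedLT.induction with
    | ind ρ ih =>
      intro R F N hB hR hF
      by_cases hmin : ∃ ρ' < ρ, Bad U (GdQ A B C s θ NN V Q P) S ρ' R F
      · obtain ⟨ρ', h1, h2⟩ := hmin
        exact ih ρ' h1 R F N h2 hR hF
      · push Not at hmin
        have hG : GdQ A B C s θ NN V Q P R F := by
          intro T hT
          refine (hI ((F.image fun q => P q.1 q.2.1 q.2.2) ∪ T) ?_).mono ?_
          · intro g hg
            rcases mem_union.1 hg with h | h
            · obtain ⟨q, hq, rfl⟩ := mem_image.1 h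
              obtain ⟨i, _, _, rfl⟩ := hF q hq
              exact (hprim i).2.1
            · exact (hT g h).1
          · intro x hx
            refine ⟨fun q hq => ?_, fun t ht hp => ?_⟩
            · obtain ⟨i, hi, _, hqi⟩ := hF q hq
              refine (hx _ (mem_union_left _ (mem_image_of_mem _ hq))).2 ⟨i, hi, ?_⟩
              rw [hqi]
            · obtain ⟨i, hi, hti⟩ := (hx t (mem_union_right _ ht)).1 hp
              rcases (hT t ht).2 _ _ _ (hprim i).1 hti with ⟨q, hq, hqj⟩ | ⟨r', hr', hrj''⟩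
              · refine ⟨q, hq, ?_⟩
                obtain ⟨i', _, _, rfl⟩ := hF q hq
                have h1 : i' = i := hjinj _ _ hqj
                rw [h1]
                exact hti
              · obtain ⟨k, _, _, rfl⟩ := hR r' hr'
                exact absurd hrj'' (hrj' k i)
        have hRp : ∀ i, N ≤ i → R ∈ ((range i).image r).powerset := by
          intro i hi
          rw [mem_powerset]
          intro g hg
          obtain ⟨k, hk, _, rfl⟩ := hR g hg
          exact hmem (by omega)
        have hFp : ∀ i i', N ≤ i → N ≤ i' →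
            F ∈ (((range i).image j) ×ˢ ((range i').image r) ×ˢ (univ : Finset (Fin n))).powerset := by
          intro i i' hi hi'
          rw [mem_powerset]
          intro g hg
          obtain ⟨k, _, hk, rfl⟩ := hF g hg
          simp only [Finset.mem_product, Finset.mem_univ, and_true]
          exact ⟨hmem2 (by omega), hmem (by have := hrwi k; omega)⟩
        rcases hs S R F ρ hB hmin hG with ⟨hr', ha, hX⟩ | hX
        · obtain ⟨k, hkN, hk, hrk⟩ := hR _ hr'
          obtain ⟨w, hwN, hw⟩ := (Filter.frequently_atTop.1 (hk _ ha)) N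
          obtain ⟨i, hi, hiI⟩ := hw
          rw [mem_Ico] at hi
          have hNi : N ≤ i := by
            have h1 : n * Nat.pair k w + (sa S R F : ℕ) ≤ off (n * Nat.pair k w + (sa S R F : ℕ)) :=
              hoff.id_le _
            have h2 : Nat.pair k w ≤ n * Nat.pair k w := Nat.le_mul_of_pos_left _ hn
            have h3 : w ≤ Nat.pair k w := Nat.right_le_pair k w
            omega
          have hbi : blk i = n * Nat.pair k w + (sa S R F : ℕ) :=
            blocks_unique hoff (hblk1 i) (hblk2 i) hi.1 hi.2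
          have hrwi' : rw' i = k := by
            simp only [hrw, hbi]
            rw [Nat.mul_add_div hn, Nat.div_eq_of_lt (sa S R F).2, add_zero, Nat.unpair_pair]
          have htyi : ty i = sa S R F := by
            apply Fin.ext
            simp only [hty, hbi]
            rw [Nat.mul_add_mod, Nat.mod_eq_of_lt (sa S R F).2]
          have hjX : j i ∈ sX S R F := (hrj i).2.1 S R (hRp _ (by omega)) F (hFp _ _ hNi (by omega))
          obtain ⟨ρ', hρ', hB'⟩ := hX _ hjX
          refine ih ρ' hρ' _ _ (i + 1) hB' ?_ ?_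
          · intro g hg
            obtain ⟨k', h1, h2, h3⟩ := hR g hg
            exact ⟨k', by omega, h2, h3⟩
          · intro g hg
            rcases mem_insert.1 hg with rfl | hg
            · refine ⟨i, hiI, by omega, ?_⟩
              rw [hrwi', htyi, hrk]
            · obtain ⟨i', h1, h2, h3⟩ := hF g hg
              exact ⟨i', h1, by omega, h3⟩
        · obtain ⟨k, hkN, hk⟩ := (Filter.frequently_atTop.1 hSf) N
          have hrX : r k ∈ sX S R F := (hrj k).1.1 S R (hRp _ hkN) F (hFp _ _ hkN hkN)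
          obtain ⟨ρ', hρ', hB'⟩ := hX _ hrX
          refine ih ρ' hρ' _ _ (k + 1) hB' ?_ ?_
          · intro g hg
            rcases mem_insert.1 hg with rfl | hg
            · exact ⟨k, by omega, hk, rfl⟩
            · obtain ⟨k', h1, h2, h3⟩ := hR g hg
              exact ⟨k', by omega, h2, h3⟩
          · intro g hg
            obtain ⟨i', h1, h2, h3⟩ := hF g hg
            exact ⟨i', h1, by omega, h3⟩
  exact key α ∅ ∅ 0 hα (by simp) (by simp)

end Pool.Agent.J6H17.QP
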