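import Pool.Agent.R498.MT.Main2

set_option autoImplicit false
set_option linter.unusedSectionVars false

/-! The main terms for weights which depend on the slot (adapted from `Pool/Agent/R498/MT/Main2.lean`). -/

namespace Pool.Agent.J6H17.QP

open Finset
open Pool.Agent.R498.MT
open Pool.Agent.H410R2 (fib mem_fib sum_tuple_le sum_tuple_ge)

section main
variable {S J : Type} [Fintype S] [DecidableEq S] [Fintype J] [DecidableEq J]

/-- the weights, one function for every slot -/
noncomputable def yG (l : S → ℝ) (G : J → Finset S → ℝ) (R : ℝ) (σ : S → Option J) : ℝ :=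
  if lt l σ ≤ R then ∏ j, G j (fib σ j) else 0

theorem yG_nonneg (l : S → ℝ) (G : J → Finset S → ℝ) (hG0 : ∀ j a, 0 ≤ G j a) (R : ℝ)
    (σ : S → Option J) : 0 ≤ yG l G R σ := by
  unfold yG
  split_ifs
  · exact prod_nonneg fun _ _ => hG0 _ _
  · exact le_rfl

theorem yG_le (l : S → ℝ) (G : J → Finset S → ℝ) (hG0 : ∀ j a, 0 ≤ G j a) (R : ℝ)
    (σ : S → Option J) : yG l G R σ ≤ ∏ j, G j (fib σ j) := by
  unfold yG
  split_ifs
  · exact le_rfl
  · exact prod_nonneg fun _ _ => hG0 _ _

/-- the first main term of arbitrary weights -/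
theorem S1_gen (q μ : S → ℝ) (hq : ∀ t, 2 ≤ q t) (hμ : ∀ t, 0 ≤ μ t)
    (hμq : ∀ t, μ t * (q t - 1) ≤ 1) (y : (S → Option J) → ℝ) :
    ∑ σ, ∑ τ, cw μ y σ * cw μ y τ * ∏ t, VM none (q t) (σ t) (τ t) ≤ ∑ s, R498.MT.mt μ s * y s ^ 2 := by
  rw [main_eq]
  have h1 : ∀ s : S → Option J, ∑ σ, cw μ y σ * ∏ t, kk none (s t) (σ t) = cw μ y s := by
    intro s
    rw [sum_eq_single s]
    · have : ∏ t, kk none (s t) (s t) = 1 := by
        apply prod_eq_one
        intro t _
        rcases s t with _ | k <;> simp [kk]
      rw [this, mul_one]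
    · intro σ _ hne
      have : ∃ t, s t ≠ σ t := by
        by_contra hcon
        push Not at hcon
        exact hne (funext fun t => (hcon t).symm)
      obtain ⟨t, ht⟩ := this
      rw [prod_eq_zero (mem_univ t), mul_zero]
      rcases hs : s t with _ | k
      · rcases hσ : σ t with _ | j
        · rw [hs, hσ] at ht; exact absurd rfl ht
        · simp [kk]
      · rcases hσ : σ t with _ | j
        · simp [kk]
        · rw [hs, hσ] at ht
          have : ¬ j = k := fun h => ht (by rw [h])
          simp [kk, this]
    · intro h; exact absurd (mem_univ _) h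
  simp_rw [h1]
  apply sum_le_sum
  intro s _
  unfold cw
  rw [mul_pow, ← mul_assoc]
  apply mul_le_mul_of_nonneg_right _ (sq_nonneg _)
  rw [← prod_pow, ← prod_mul_distrib]
  unfold R498.MT.mt
  apply prod_le_prod
  · intro t _
    rcases s t with _ | k
    · simp [dd, cf]
    · simp only [dd, cf]
      have := hq t
      apply mul_nonneg (by linarith) (sq_nonneg _)
  · intro t _
    rcases s t with _ | k
    · simp [dd, cf]
    · simp only [dd, cf, reduceCtorEq, if_false]
      have h3 := hμq t
      have h4 := hμ t
      nlinarith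

theorem mt_nonneg (μ : S → ℝ) (hμ : ∀ t, 0 ≤ μ t) (s : S → Option J) : 0 ≤ R498.MT.mt μ s := by
  unfold R498.MT.mt
  apply prod_nonneg
  intro t _
  split_ifs
  · norm_num
  · exact hμ t

/-- upper bound for the first main term -/
theorem S1_mainG (q μ l : S → ℝ) (hq : ∀ t, 2 ≤ q t) (hμ : ∀ t, 0 ≤ μ t)
    (hμq : ∀ t, μ t * (q t - 1) ≤ 1) (G : J → Finset S → ℝ) (hG0 : ∀ j a, 0 ≤ G j a) (R : ℝ) :
    ∑ σ, ∑ τ, cw μ (yG l G R) σ * cw μ (yG l G R) τ *
      ∏ t, VM none (q t) (σ t) (τ t) ≤ ∏ j, ∑ a, ms μ a * G j a ^ 2 := by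
  refine (S1_gen q μ hq hμ hμq _).trans ?_
  have h2 : ∀ s : S → Option J, R498.MT.mt μ s * yG l G R s ^ 2 ≤
      ∏ j, (ms μ (fib s j) * G j (fib s j) ^ 2) := by
    intro s
    rw [prod_mul_distrib, ← mt_eq, prod_pow]
    exact mul_le_mul_of_nonneg_left
      (pow_le_pow_left₀ (yG_nonneg l G hG0 R s) (yG_le l G hG0 R s) 2) (mt_nonneg μ hμ s)
  exact (sum_le_sum fun s _ => h2 s).trans
    (sum_tuple_le (fun j a => ms μ a * G j a ^ 2) (fun j a =>
          mul_nonneg (prod_nonneg fun t _ => hμ t) (sq_nonneg _)))

/-- **The second main term.** -/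
theorem S2_mainG (i : J) (q μ l : S → ℝ) (hq : ∀ t, 2 ≤ q t) (hμ : ∀ t, 0 ≤ μ t)
    (hμq : ∀ t, μ t = 0 ∨ μ t * (q t - 1) = 1) (hl : ∀ t, 0 ≤ l t)
    (G : J → Finset S → ℝ) (hG0 : ∀ j a, 0 ≤ G j a) (hGa : ∀ j a b, a ⊆ b → G j b ≤ G j a)
    (hG1 : ∀ j, G j ∅ = 1)
    (R U : ℝ) (hUR : U < R) (hGU : ∀ j a, G j a ≠ 0 → lz l a ≤ U) (ω : ℝ)
    (hω : ∀ s : S → Option J, lt l s ≤ R → ∑ t, (if s t = none then 0 else μ t) ≤ ω)
    (hH : ω * ∏ t, (1 + μ t) ≤ ∑ a, ms μ a * G i a) :
    (∑ a, ms μ a * G i a - ω * ∏ t, (1 + μ t)) ^ 2 *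
      ((1 - (Fintype.card J : ℝ) ^ 2 * ∑ t, μ t ^ 2) -
        (∑ j, (∑ a, lz l a * (ms μ a * G j a ^ 2)) / ∑ a, ms μ a * G j a ^ 2) / (R - U)) *
      ((∏ j, ∑ a, ms μ a * G j a ^ 2) / ∑ a, ms μ a * G i a ^ 2) ≤
    ∑ σ, ∑ τ, cw μ (yG l G R) σ * cw μ (yG l G R) τ *
      ∏ t, VM (some i) (q t) (σ t) (τ t) := by
  classical
  set H : ℝ := ∑ a, ms μ a * G i a with hHd
  set I2 : J → ℝ := fun j => ∑ a, ms μ a * G j a ^ 2 with hI2
  set IE : J → ℝ := fun j => ∑ a, lz l a * (ms μ a * G j a ^ 2) with hIE
  set A1 : ℝ := ∏ t, (1 + μ t) with hA1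
  have hms := ms_nonneg μ hμ
  have hI21 : ∀ j, 1 ≤ I2 j := by
    intro j
    have h1 : ms μ ∅ * G j ∅ ^ 2 = 1 := by rw [hG1]; simp [ms]
    rw [← h1]
    exact single_le_sum (f := fun a => ms μ a * G j a ^ 2)
      (fun a _ => mul_nonneg (hms a) (sq_nonneg _)) (mem_univ ∅)
  have hI20 : ∀ j, 0 < I2 j := fun j => by linarith [hI21 j]
  have hlz : ∀ a, 0 ≤ lz l a := fun a => sum_nonneg fun t _ => hl t
  have hIE0 : ∀ j, 0 ≤ IE j := fun j =>
    sum_nonneg fun a _ => mul_nonneg (hlz a) (mul_nonneg (hms a) (sq_nonneg _))
  have hGsq : ∀ j a b, a ⊆ b → G j b ^ 2 ≤ G j a ^ 2 := fun j a b h =>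
    pow_le_pow_left₀ (hG0 j b) (hGa j a b h) 2
  -- the set of the `s`
  set 𝒢 : Finset (S → Option J) := univ.filter (fun s => (∀ t, s t ≠ some i) ∧ lt l s ≤ R - U)
    with h𝒢
  set F : J → Finset S → ℝ := fun j a => if j = i then (if a = ∅ then 1 else 0) else
    ms μ a * G j a ^ 2 with hF
  have hF0 : ∀ j a, 0 ≤ F j a := by
    intro j a
    simp only [hF]
    split_ifs
    · norm_num
    · norm_num
    · exact mul_nonneg (hms a) (sq_nonneg _)
  set Y : (S → Option J) → ℝ := fun s => ∏ j, (if j = i then 1 else G j (fib s j)) with hY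
  have hY0 : ∀ s, 0 ≤ Y s := fun s => prod_nonneg fun j _ => by
    split_ifs
    · norm_num
    · exact hG0 _ _
  have hsumF : ∀ j, ∑ a, F j a = if j = i then 1 else I2 j := by
    intro j
    by_cases h : j = i
    · simp [hF, h]
    · simp only [hF, if_neg h, hI2]
  set P : ℝ := ∏ j : J, (if j = i then 1 else I2 j) with hP
  have hPI : I2 i * P = ∏ j, I2 j := by
    have h1 : ∏ j : J, (if j = i then I2 j else 1) = I2 i := by
      rw [prod_ite_eq' univ i]
      simp
    have h2 : P * ∏ j : J, (if j = i then I2 j else 1) = ∏ j : J, I2 j := by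
      rw [hP, ← prod_mul_distrib]
      refine prod_congr rfl fun j _ => ?_
      split_ifs <;> ring
    rw [h1] at h2
    rw [← h2]; ring
  have hP0 : 0 ≤ P := prod_nonneg fun j _ => by
    split_ifs
    · norm_num
    · exact (hI20 j).le
  have hFY : ∀ s : S → Option J, (∀ t, s t ≠ some i) → R498.MT.mt μ s * Y s ^ 2 = ∏ j, F j (fib s j) := by
    intro s hs
    rw [mt_eq, hY]
    simp only
    rw [← prod_pow, ← prod_mul_distrib]
    refine prod_congr rfl fun j _ => ?_
    by_cases h : j = i
    · subst h
      have h1 : fib s j = ∅ := by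
        ext t
        rw [mem_fib]
        simp only [notMem_empty, iff_false]
        exact hs t
      simp [hF, h1, ms]
    · simp only [hF, if_neg h]
  have hFn : ∀ s : S → Option J, (∃ t, s t = some i) → ∏ j, F j (fib s j) = 0 := by
    rintro s ⟨t, ht⟩
    apply prod_eq_zero (mem_univ i)
    simp only [hF, if_true]
    rw [if_neg]
    intro h
    have : t ∈ fib s i := (mem_fib _ _ _).2 ht
    rw [h] at this
    exact absurd this (notMem_empty t)
  -- step (3)
  have hRU : 0 < R - U := by linarith
  have step3 : ((1 - (Fintype.card J : ℝ) ^ 2 * ∑ t, μ t ^ 2) -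
        (∑ j, IE j / I2 j) / (R - U)) * P ≤ ∑ s ∈ 𝒢, R498.MT.mt μ s * Y s ^ 2 := by
    have a1 : (1 - (Fintype.card J : ℝ) ^ 2 * ∑ t, μ t ^ 2) * P ≤
        ∑ s : S → Option J, ∏ j, F j (fib s j) := by
      have h1 := sum_tuple_ge F hF0 μ hμ (by
        intro j t
        by_cases h : j = i
        · have e : ∑ a ∈ univ.filter (fun a : Finset S => t ∈ a), F j a = 0 := by
            apply sum_eq_zero
            intro a ha
            have h2 := (mem_filter.1 ha).2
            simp only [hF, if_pos h]
            rw [if_neg]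
            rintro rfl
            exact absurd h2 (notMem_empty t)
          rw [e]
          exact mul_nonneg (hμ t) (sum_nonneg fun a _ => hF0 j a)
        · simp only [hF, if_neg h]
          exact sum_mem_le μ hμ (fun a => G j a ^ 2) (fun a => sq_nonneg _) (hGsq j) t)
      rw [prod_congr rfl (fun j _ => hsumF j)] at h1
      exact h1
    have a2 : ∑ s : S → Option J, lt l s * ∏ j, F j (fib s j) ≤
        (∑ j, IE j / I2 j) * P := by
      have e1 : ∀ s : S → Option J, lt l s * ∏ j, F j (fib s j) =
          ∑ m, lz l (fib s m) * ∏ j, F j (fib s j) := by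
        intro s
        rw [lt_eq, sum_mul]
      rw [sum_congr rfl (fun s _ => e1 s), sum_comm, sum_mul]
      apply sum_le_sum
      intro m _
      set F' : J → Finset S → ℝ := fun j a => if j = m then lz l a * F j a else F j a with hF'
      have hF'0 : ∀ j a, 0 ≤ F' j a := by
        intro j a
        simp only [hF']
        split_ifs
        · exact mul_nonneg (hlz a) (hF0 j a)
        · exact hF0 j a
      have e2 : ∀ s : S → Option J, lz l (fib s m) * ∏ j, F j (fib s j) =
          ∏ j, F' j (fib s j) := by
        intro s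
        have e3 : ∏ j : J, (if j = m then lz l (fib s m) else 1) = lz l (fib s m) := by
          rw [prod_ite_eq' univ m]
          simp
        rw [← e3, ← prod_mul_distrib]
        refine prod_congr rfl fun j _ => ?_
        simp only [hF']
        by_cases h : j = m
        · subst h; simp [e3]
        · simp [h]
      rw [sum_congr rfl (fun s _ => e2 s)]
      refine (sum_tuple_le F' hF'0).trans ?_
      by_cases hmi : m = i
      · have e4 : ∑ a, F' m a = 0 := by
          apply sum_eq_zero
          intro a _
          simp only [hF', hF, if_true, hmi]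
          by_cases h : a = ∅
          · subst h; simp [lz]
          · simp [h]
        rw [prod_eq_zero (mem_univ m) e4]
        exact mul_nonneg (div_nonneg (hIE0 m) (hI20 m).le) hP0
      · have e5 : ∀ j, ∑ a, F' j a = (if j = m then IE m / I2 m else 1) *
            (if j = i then 1 else I2 j) := by
          intro j
          by_cases h : j = m
          · subst h
            simp only [hF', hF, if_true, if_neg hmi]
            rw [div_mul_cancel₀ _ (hI20 j).ne']
          · simp only [hF', if_neg h, one_mul]
            exact hsumF j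
        rw [prod_congr rfl (fun j _ => e5 j), prod_mul_distrib, prod_ite_eq' univ m]
        simp only [mem_univ, if_true]
        exact le_rfl
    have a3 : ∑ s : S → Option J, (1 - lt l s / (R - U)) * ∏ j, F j (fib s j) ≤
        ∑ s ∈ 𝒢, R498.MT.mt μ s * Y s ^ 2 := by
      have e1 : ∑ s ∈ 𝒢, R498.MT.mt μ s * Y s ^ 2 =
          ∑ s, (if (∀ t, s t ≠ some i) ∧ lt l s ≤ R - U then R498.MT.mt μ s * Y s ^ 2 else 0) := by
        rw [h𝒢, sum_filter]
      rw [e1]
      apply sum_le_sum
      intro s _
      by_cases hs : ∀ t, s t ≠ some i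
      · rw [← hFY s hs]
        have h0 : 0 ≤ R498.MT.mt μ s * Y s ^ 2 := by
          rw [hFY s hs]
          exact prod_nonneg fun j _ => hF0 _ _
        have hlt0 : 0 ≤ lt l s := by
          unfold lt
          apply sum_nonneg
          intro t _
          split_ifs
          · exact le_rfl
          · exact hl t
        by_cases h : lt l s ≤ R - U
        · rw [if_pos ⟨hs, h⟩]
          have : 0 ≤ lt l s / (R - U) := div_nonneg hlt0 hRU.le
          nlinarith
        · rw [if_neg (fun h' => h h'.2)]
          push Not at h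
          have : 1 < lt l s / (R - U) := by rw [lt_div_iff₀ hRU]; linarith
          nlinarith
      · push Not at hs
        rw [hFn s hs, mul_zero]
        split_ifs with h
        · obtain ⟨t, ht⟩ := hs
          exact absurd ht (h.1 t)
        · exact le_rfl
    have a4 : ∑ s : S → Option J, (1 - lt l s / (R - U)) * ∏ j, F j (fib s j) =
        ∑ s : S → Option J, ∏ j, F j (fib s j) -
          (∑ s : S → Option J, lt l s * ∏ j, F j (fib s j)) / (R - U) := by
      rw [sum_div, ← sum_sub_distrib]
      refine sum_congr rfl fun s _ => ?_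
      ring
    rw [a4] at a3
    have a5 : (∑ s : S → Option J, lt l s * ∏ j, F j (fib s j)) / (R - U) ≤
        (∑ j, IE j / I2 j) / (R - U) * P := by
      rw [div_le_iff₀ hRU]
      refine a2.trans (le_of_eq ?_)
      field_simp
    have a6 : ((1 - (Fintype.card J : ℝ) ^ 2 * ∑ t, μ t ^ 2) -
        (∑ j, IE j / I2 j) / (R - U)) * P =
        (1 - (Fintype.card J : ℝ) ^ 2 * ∑ t, μ t ^ 2) * P -
        (∑ j, IE j / I2 j) / (R - U) * P := by ring
    rw [a6]
    linarith
  -- step (2)
  have step2 : ∀ s ∈ 𝒢, (H - ω * A1) ^ 2 * (R498.MT.mt μ s * Y s ^ 2) ≤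
      R498.MT.mt μ s * (∑ a ∈ (univ.filter (fun t => s t = none)).powerset,
        ms μ a * yG l G R (ext s i a)) ^ 2 := by
    intro s hs
    rw [h𝒢, mem_filter] at hs
    obtain ⟨-, hs1, hs2⟩ := hs
    have hm0 : 0 ≤ R498.MT.mt μ s := mt_nonneg μ hμ s
    have b1 : ∀ a ∈ (univ.filter (fun t => s t = none)).powerset,
        Y s * (ms μ a * G i a) ≤ ms μ a * yG l G R (ext s i a) := by
      intro a ha
      rw [mem_powerset] at ha
      by_cases h : G i a = 0
      · rw [h, mul_zero, mul_zero]
        exact mul_nonneg (hms a) (yG_nonneg l G hG0 R _)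
      · have h1 := hGU i a h
        have h2 : ∏ j, G j (fib (ext s i a) j) = G i a * Y s := by
          have e3 : ∏ j : J, (if j = i then G i a else 1) = G i a := by
            rw [prod_ite_eq' univ i]
            simp
          rw [← e3, hY, ← prod_mul_distrib]
          refine prod_congr rfl fun j _ => ?_
          rw [fib_ext s i hs1 a ha j]
          by_cases h : j = i
          · simp [h]
          · simp [h]
        have h3 : lt l (ext s i a) ≤ R := by
          rw [lt_eq]
          have e4 : ∀ j, lz l (fib (ext s i a) j) = (if j = i then lz l a else 0) +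
              lz l (fib s j) := by
            intro j
            rw [fib_ext s i hs1 a ha j]
            by_cases h : j = i
            · subst h
              have h1 : fib s j = ∅ := by
                ext t
                rw [mem_fib]
                simp only [notMem_empty, iff_false]
                exact hs1 t
              simp [h1, lz]
            · simp [h]
          rw [sum_congr rfl (fun j _ => e4 j), sum_add_distrib, ← lt_eq, sum_ite_eq' univ i]
          simp only [mem_univ, if_true]
          linarith
        unfold yG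
        rw [if_pos h3, h2]
        apply le_of_eq
        ring
    have b2 : Y s * (H - ω * A1) ≤ ∑ a ∈ (univ.filter (fun t => s t = none)).powerset,
        ms μ a * yG l G R (ext s i a) := by
      refine le_trans ?_ (sum_le_sum b1)
      rw [← mul_sum]
      apply mul_le_mul_of_nonneg_left _ (hY0 s)
      -- the sets that meet the support
      have c1 : H ≤ ∑ a ∈ (univ.filter (fun t => s t = none)).powerset, ms μ a * G i a +
          ∑ t, (if s t = none then 0 else
            ∑ a ∈ univ.filter (fun a : Finset S => t ∈ a), ms μ a * G i a) := by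
        have c2 : ∀ a : Finset S, ms μ a * G i a ≤
            (if a ∈ (univ.filter (fun t => s t = none)).powerset then ms μ a * G i a else 0) +
            ∑ t, (if s t = none then 0 else (if t ∈ a then ms μ a * G i a else 0)) := by
          intro a
          have h0 : 0 ≤ ms μ a * G i a := mul_nonneg (hms a) (hG0 i a)
          have hs0 : ∀ t ∈ (univ : Finset S), 0 ≤
              (if s t = none then 0 else (if t ∈ a then ms μ a * G i a else 0)) := by
            intro t _
            split_ifs
            · exact le_rfl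
            · exact h0
            · exact le_rfl
          by_cases h : a ∈ (univ.filter (fun t => s t = none)).powerset
          · rw [if_pos h]
            have := sum_nonneg hs0
            linarith
          · rw [if_neg h, zero_add]
            rw [mem_powerset, not_subset] at h
            obtain ⟨t, ht, ht'⟩ := h
            have h5 : s t ≠ none := fun h => ht' (by rw [mem_filter]; exact ⟨mem_univ _, h⟩)
            have h6 := single_le_sum hs0 (mem_univ t)
            rw [if_neg h5, if_pos ht] at h6
            exact h6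
        calc H = ∑ a, ms μ a * G i a := rfl
          _ ≤ ∑ a, ((if a ∈ (univ.filter (fun t => s t = none)).powerset then ms μ a * G i a
              else 0) + ∑ t, (if s t = none then 0 else (if t ∈ a then ms μ a * G i a else 0))) :=
              sum_le_sum fun a _ => c2 a
          _ = _ := by
              rw [sum_add_distrib, sum_comm]
              congr 1
              · rw [sum_ite_mem]
                simp
              · refine sum_congr rfl fun t _ => ?_
                split_ifs
                · simp
                · rw [sum_filter]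
      have c3 : ∑ t, (if s t = none then 0 else
            ∑ a ∈ univ.filter (fun a : Finset S => t ∈ a), ms μ a * G i a) ≤ ω * A1 := by
        have c4 : ∀ t, (if s t = none then 0 else
            ∑ a ∈ univ.filter (fun a : Finset S => t ∈ a), ms μ a * G i a) ≤
            (if s t = none then 0 else μ t) * A1 := by
          intro t
          split_ifs
          · simp
          · refine (sum_mem_le μ hμ (G i) (hG0 i) (hGa i) t).trans ?_
            apply mul_le_mul_of_nonneg_left _ (hμ t)
            rw [hA1, ← sum_ms]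
            apply sum_le_sum
            intro a _
            have h1 : G i a ≤ 1 := by
              rw [← hG1 i]
              exact hGa i ∅ a (empty_subset a)
            have := mul_le_mul_of_nonneg_left h1 (hms a)
            linarith
        refine (sum_le_sum fun t _ => c4 t).trans ?_
        rw [← sum_mul]
        apply mul_le_mul_of_nonneg_right
        · apply hω s
          have hGU1 : 0 ≤ U := by
            have := hGU i ∅ (by rw [hG1]; norm_num)
            simpa [lz] using this
          linarith
        · exact prod_nonneg fun t _ => by linarith [hμ t]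
      linarith
    have b3 : 0 ≤ Y s * (H - ω * A1) := mul_nonneg (hY0 s) (by linarith)
    have b4 := pow_le_pow_left₀ b3 b2 2
    calc (H - ω * A1) ^ 2 * (R498.MT.mt μ s * Y s ^ 2) = R498.MT.mt μ s * (Y s * (H - ω * A1)) ^ 2 := by ring
      _ ≤ _ := mul_le_mul_of_nonneg_left b4 hm0
  -- step (1)
  rw [main_eq]
  have step1 : ∑ s ∈ 𝒢, (H - ω * A1) ^ 2 * (R498.MT.mt μ s * Y s ^ 2) ≤
      ∑ s : S → Option J, (∏ t, dd (q t) (s t)) *
        (∑ σ, cw μ (yG l G R) σ * ∏ t, kk (some i) (s t) (σ t)) ^ 2 := by
    refine le_trans ?_ (sum_le_sum_of_subset_of_nonneg (subset_univ 𝒢) ?_)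
    · apply sum_le_sum
      intro s hs
      refine (step2 s hs).trans ?_
      rw [h𝒢, mem_filter] at hs
      exact sq_lower i q μ hμ hμq (yG l G R) (yG_nonneg l G hG0 R) s hs.2.1
    · intro s _ _
      apply mul_nonneg _ (sq_nonneg _)
      apply prod_nonneg
      intro t _
      rcases s t with _ | k
      · simp [dd]
      · simp only [dd]
        linarith [hq t]
  refine le_trans ?_ step1
  rw [← mul_sum, mul_assoc]
  apply mul_le_mul_of_nonneg_left _ (sq_nonneg _)
  have hPe : (∏ j, I2 j) / I2 i = P := by
    rw [← hPI]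
    field_simp [(hI20 i).ne']
  rw [hPe]
  exact step3

end main

end Pool.Agent.J6H17.QP
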