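import Pool.Agent.J6H17.QP.Quad
import Pool.Agent.H361R2.InfA6

set_option autoImplicit false

/-! Selection of admissible sequences of linear forms; residue classes. -/

namespace Pool.Agent.J6H17.QP

open Finset Filter
open scoped Nat

/-- the values at the form have no fixed prime divisor -/
def NoFix (A B C : ℤ) (g : ℤ × ℤ) : Prop :=
  ∀ p : ℕ, p.Prime → ∃ n : ℤ, ¬ (p : ℤ) ∣ Gq A B C (g.1 * n + g.2)

/-- an admissible sequence of linear forms -/
structure AdmQ (A B C : ℤ) (f : ℕ → ℤ × ℤ) : Prop where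
  one : ∀ i, 1 ≤ (f i).1
  inj : Function.Injective f
  pr : ∀ i, ∀ p : ℕ, p.Prime → (p : ℤ) ∣ (f i).1 → ¬ (p : ℤ) ∣ Gq A B C (f i).2
  adm : ∀ p : ℕ, p.Prime → ∃ n : ℕ, ∀ i, ¬ (p : ℤ) ∣ Gq A B C ((f i).1 * n + (f i).2)

theorem NoFix.pr {A B C : ℤ} {g : ℤ × ℤ} (h : NoFix A B C g) (p : ℕ) (hp : p.Prime)
    (hpg : (p : ℤ) ∣ g.1) : ¬ (p : ℤ) ∣ Gq A B C g.2 := by
  intro h1
  obtain ⟨n, hn⟩ := h p hp
  apply hn
  refine (Gq_per A B C p _ _ ?_).2 h1
  rw [add_sub_cancel_right]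
  exact hpg.mul_right _

theorem three_roots (A B C : ℤ) (p : ℕ) (hp : p.Prime) (x y z : ℤ) (hx : (p : ℤ) ∣ Gq A B C x)
    (hy : (p : ℤ) ∣ Gq A B C y) (hz : (p : ℤ) ∣ Gq A B C z) (hxy : ¬ (p : ℤ) ∣ x - y)
    (hxz : ¬ (p : ℤ) ∣ x - z) (hyz : ¬ (p : ℤ) ∣ y - z) (n : ℤ) : (p : ℤ) ∣ Gq A B C n := by
  have hpZ : Prime (p : ℤ) := Nat.prime_iff_prime_int.1 hp
  have h1 : (p : ℤ) ∣ A * (x + y) + B := by
    have h2 := dvd_sub hx hy
    have e : Gq A B C x - Gq A B C y = (x - y) * (A * (x + y) + B) := by unfold Gq; ring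
    rw [e] at h2
    exact (hpZ.dvd_or_dvd h2).resolve_left hxy
  have h3 : (p : ℤ) ∣ A * (x + z) + B := by
    have h2 := dvd_sub hx hz
    have e : Gq A B C x - Gq A B C z = (x - z) * (A * (x + z) + B) := by unfold Gq; ring
    rw [e] at h2
    exact (hpZ.dvd_or_dvd h2).resolve_left hxz
  have h4 : (p : ℤ) ∣ A := by
    have h5 := dvd_sub h1 h3
    have e : A * (x + y) + B - (A * (x + z) + B) = A * (y - z) := by ring
    rw [e] at h5
    exact (hpZ.dvd_or_dvd h5).resolve_right hyz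
  have h6 : (p : ℤ) ∣ B := by
    have h7 := dvd_sub h1 (h4.mul_right (x + y))
    rwa [add_sub_cancel_left] at h7
  have h8 : (p : ℤ) ∣ C := by
    have h9 := dvd_sub hx (dvd_add (h4.mul_right (x ^ 2)) (h6.mul_right x))
    have e : Gq A B C x - (A * x ^ 2 + B * x) = C := by unfold Gq; ring
    rwa [e] at h9
  unfold Gq
  exact dvd_add (dvd_add (h4.mul_right _) (h6.mul_right _)) h8

theorem roots_le (A B C : ℤ) (g : ℤ × ℤ) (hg : NoFix A B C g) (p : ℕ) (hp : p.Prime) :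
    ((range p).filter (fun n : ℕ => (p : ℤ) ∣ Gq A B C (g.1 * n + g.2))).card ≤ 2 := by
  classical
  have hpZ : Prime (p : ℤ) := Nat.prime_iff_prime_int.1 hp
  by_contra hcon
  push Not at hcon
  obtain ⟨x, hx, y, hy, z, hz, hxy, hxz, hyz⟩ := Finset.two_lt_card.1 hcon
  rw [mem_filter, mem_range] at hx hy hz
  obtain ⟨n0, hn0⟩ := hg p hp
  have hpg : ¬ (p : ℤ) ∣ g.1 := by
    intro h
    apply hn0
    refine (Gq_per A B C p _ _ ?_).1 hx.2
    have e : g.1 * (x : ℤ) + g.2 - (g.1 * n0 + g.2) = g.1 * (x - n0) := by ring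
    rw [e]
    exact h.mul_right _
  have key : ∀ u v : ℕ, u < p → v < p → u ≠ v →
      ¬ (p : ℤ) ∣ (g.1 * (u : ℤ) + g.2) - (g.1 * (v : ℤ) + g.2) := by
    intro u v hu hv huv h
    have e : g.1 * (u : ℤ) + g.2 - (g.1 * (v : ℤ) + g.2) = g.1 * ((u : ℤ) - v) := by ring
    rw [e] at h
    have h1 := (hpZ.dvd_or_dvd h).resolve_left hpg
    have h2 : (u : ℤ) - v = 0 := by
      apply Int.eq_zero_of_abs_lt_dvd h1
      rw [abs_lt]
      omega
    omega
  exact hn0 (three_roots A B C p hp _ _ _ hx.2 hy.2 hz.2 (key x y hx.1 hy.1 hxy)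
    (key x z hx.1 hz.1 hxz) (key y z hy.1 hz.1 hyz) _)

/-- every infinite set of linear forms contains an admissible sequence -/
theorem exists_adm (A B C : ℤ) (F : Set (ℤ × ℤ)) (hF : F.Infinite)
    (hF1 : ∀ g ∈ F, 1 ≤ g.1 ∧ NoFix A B C g) :
    ∃ f : ℕ → ℤ × ℤ, (∀ i, f i ∈ F) ∧ AdmQ A B C f := by
  classical
  have hne0 : ∀ j : ℕ, NeZero (2 * j + 3)! := fun j => ⟨Nat.factorial_ne_zero _⟩
  obtain ⟨f, hinj, hfF, hcol⟩ := Pool.Agent.H361R2.Inf.exists_seq
    (fun j => ZMod (2 * j + 3)! × ZMod (2 * j + 3)!)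
    (fun j (x : ℤ × ℤ) => ((x.1 : ZMod (2 * j + 3)!), (x.2 : ZMod (2 * j + 3)!))) F hF
  have hAc : ∀ j i, j ≤ i → (f i).1 ≡ (f j).1 [ZMOD ((2 * j + 3)! : ℕ)] := by
    intro j i hji
    have := congrArg Prod.fst (hcol j i hji)
    exact (ZMod.intCast_eq_intCast_iff _ _ _).mp this
  have hBc : ∀ j i, j ≤ i → (f i).2 ≡ (f j).2 [ZMOD ((2 * j + 3)! : ℕ)] := by
    intro j i hji
    have := congrArg Prod.snd (hcol j i hji)
    exact (ZMod.intCast_eq_intCast_iff _ _ _).mp this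
  refine ⟨f, hfF, fun i => (hF1 _ (hfF i)).1, hinj, fun i => (hF1 _ (hfF i)).2.pr, ?_⟩
  intro p hp
  set j := (p - 3) / 2 with hj
  have hpj : p ≤ 2 * j + 3 := by
    rcases hp.eq_two_or_odd with h | h
    · omega
    · omega
  have hpd : (p : ℤ) ∣ (((2 * j + 3)! : ℕ) : ℤ) := by
    have : p ∣ (2 * j + 3)! := (hp.dvd_factorial).mpr hpj
    exact_mod_cast this
  have hred : ∀ i, ∃ i' ≤ j, ∀ n : ℕ, (p : ℤ) ∣ Gq A B C ((f i).1 * n + (f i).2) →
      (p : ℤ) ∣ Gq A B C ((f i').1 * n + (f i').2) := by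
    intro i
    by_cases h : i ≤ j
    · exact ⟨i, h, fun n hn => hn⟩
    · refine ⟨j, le_rfl, fun n hn => ?_⟩
      refine (Gq_per A B C p _ _ ?_).1 hn
      have h1 : (f i).1 ≡ (f j).1 [ZMOD p] := (hAc j i (by omega)).of_dvd hpd
      have h2 : (f i).2 ≡ (f j).2 [ZMOD p] := (hBc j i (by omega)).of_dvd hpd
      exact Int.modEq_iff_dvd.1 ((h1.mul_right _).add h2).symm
  suffices h : ∃ n : ℕ, ∀ i ≤ j, ¬ (p : ℤ) ∣ Gq A B C ((f i).1 * n + (f i).2) by
    obtain ⟨n, hn⟩ := h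
    refine ⟨n, fun i hi => ?_⟩
    obtain ⟨i', hi', h1⟩ := hred i
    exact hn i' hi' (h1 n hi)
  rcases hp.eq_two_or_odd with h2 | h2
  · have hj0 : j = 0 := by omega
    obtain ⟨n, hn⟩ := (hF1 _ (hfF 0)).2 p hp
    have hp0 : (0 : ℤ) < p := by exact_mod_cast hp.pos
    refine ⟨(n % p).toNat, fun i hi => ?_⟩
    have hi0 : i = 0 := by omega
    subst hi0
    intro h
    apply hn
    refine (Gq_per A B C p _ _ ?_).1 h
    rw [Int.toNat_of_nonneg (Int.emod_nonneg _ hp0.ne')]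
    have e : (f 0).1 * (n % p) + (f 0).2 - ((f 0).1 * n + (f 0).2) = (f 0).1 * (n % p - n) := by
      ring
    rw [e]
    apply Dvd.dvd.mul_left
    have := Int.dvd_self_sub_emod (x := n) (m := (p : ℤ))
    rw [← neg_sub]
    exact (dvd_neg).2 this
  · set bad := (range (j + 1)).biUnion (fun i => (range p).filter
      (fun n : ℕ => (p : ℤ) ∣ Gq A B C ((f i).1 * n + (f i).2))) with hbad
    have hcard : bad.card < p := by
      calc bad.card ≤ ∑ i ∈ range (j + 1), ((range p).filter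
            (fun n : ℕ => (p : ℤ) ∣ Gq A B C ((f i).1 * n + (f i).2))).card := card_biUnion_le
        _ ≤ ∑ _i ∈ range (j + 1), 2 :=
            sum_le_sum fun i _ => roots_le A B C (f i) (hF1 _ (hfF i)).2 p hp
        _ = 2 * (j + 1) := by rw [sum_const, card_range, smul_eq_mul, mul_comm]
        _ < p := by
            have := hp.two_le
            omega
    obtain ⟨n, hn, hnb⟩ : ∃ n ∈ range p, n ∉ bad := by
      by_contra hcon
      push Not at hcon
      have := card_le_card (show range p ⊆ bad from hcon)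
      rw [card_range] at this
      omega
    refine ⟨n, fun i hi hd => hnb ?_⟩
    rw [hbad, mem_biUnion]
    exact ⟨i, mem_range.2 (by omega), mem_filter.2 ⟨hn, hd⟩⟩

/-- infinitely many primes divide values -/
theorem inf_primes (A B C : ℤ) (hA : A ≠ 0) (hΔ : ¬ IsSquare (B ^ 2 - 4 * A * C)) :
    {q : ℕ | q.Prime ∧ ∃ x : ℤ, (q : ℤ) ∣ Gq A B C x}.Infinite := by
  have hC : C ≠ 0 := by
    rintro rfl
    exact hΔ ⟨B, by ring⟩
  rw [Set.infinite_iff_exists_gt]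
  intro M
  -- the value at `C M! k` divided by `C`
  obtain ⟨m, hm⟩ : ∃ m : ℤ, m = ((M ! : ℕ) : ℤ) := ⟨_, rfl⟩
  have hm1 : 1 ≤ m := by
    rw [hm]
    exact_mod_cast Nat.factorial_pos M
  have hex : ∃ k : ℤ, 1 < (A * C * m ^ 2 * k ^ 2 + B * m * k + 1).natAbs := by
    by_contra hcon
    push Not at hcon
    have h1 := hcon (2 * (B.natAbs + 2))
    obtain ⟨b, hb⟩ : ∃ b : ℤ, b = ((B.natAbs : ℕ) : ℤ) := ⟨_, rfl⟩
    rw [← hb] at h1
    have hb0 : 0 ≤ b := by rw [hb]; exact Int.natCast_nonneg _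
    have hBb : |B| ≤ b := by rw [hb, Int.abs_eq_natAbs]
    obtain ⟨hB1, hB2⟩ := abs_le.1 hBb
    obtain ⟨k, hk⟩ : ∃ k : ℤ, k = 2 * (b + 2) := ⟨_, rfl⟩
    rw [← hk] at h1
    have hk4 : 4 ≤ k := by omega
    have h2 : -1 ≤ A * C * m ^ 2 * k ^ 2 + B * m * k + 1 ∧
        A * C * m ^ 2 * k ^ 2 + B * m * k + 1 ≤ 1 := by
      have := Int.natCast_natAbs (A * C * m ^ 2 * k ^ 2 + B * m * k + 1)
      have h3 : |A * C * m ^ 2 * k ^ 2 + B * m * k + 1| ≤ 1 := by
        rw [← this]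
        exact_mod_cast h1
      exact abs_le.1 h3
    have hAC : A * C ≠ 0 := mul_ne_zero hA hC
    obtain ⟨t, ht⟩ : ∃ t : ℤ, t = m * k := ⟨_, rfl⟩
    have ht4 : k ≤ t := by rw [ht]; nlinarith
    have e1 : A * C * m ^ 2 * k ^ 2 + B * m * k + 1 = t * (A * C * t + B) + 1 := by rw [ht]; ring
    rw [e1] at h2
    rcases lt_or_gt_of_ne hAC with h | h
    · have h5 : A * C * t ≤ -1 * t := mul_le_mul_of_nonneg_right (by omega) (by omega)
      have h6 : A * C * t + B ≤ -1 := by omega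
      nlinarith
    · have h5 : 1 * t ≤ A * C * t := mul_le_mul_of_nonneg_right (by omega) (by omega)
      have h6 : 1 ≤ A * C * t + B := by omega
      nlinarith
  obtain ⟨k, hk⟩ := hex
  obtain ⟨q, hq, hqd⟩ := Nat.exists_prime_and_dvd (show (A * C * m ^ 2 * k ^ 2 + B * m * k +
    1).natAbs ≠ 1 by omega)
  have hqd' : (q : ℤ) ∣ A * C * m ^ 2 * k ^ 2 + B * m * k + 1 := Int.natCast_dvd.2 hqd
  refine ⟨q, ⟨hq, C * m * k, ?_⟩, ?_⟩
  · have e : Gq A B C (C * m * k) = C * (A * C * m ^ 2 * k ^ 2 + B * m * k + 1) := by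
      unfold Gq; ring
    rw [e]
    exact hqd'.mul_left _
  · by_contra hcon
    push Not at hcon
    have h1 : (q : ℤ) ∣ m := by
      rw [hm]
      exact Int.natCast_dvd_natCast.2 ((hq.dvd_factorial).2 hcon)
    have h2 : (q : ℤ) ∣ 1 := by
      have h3 := dvd_sub hqd' (h1.mul_right (A * C * m * k ^ 2 + B * k))
      have e : A * C * m ^ 2 * k ^ 2 + B * m * k + 1 - m * (A * C * m * k ^ 2 + B * k) = 1 := by
        ring
      rwa [e] at h3
    have h4 : q ∣ 1 := by exact_mod_cast h2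
    exact hq.one_lt.ne' (Nat.dvd_one.1 h4)

/-- the residue class -/
theorem exclass (A B C : ℤ) (hA : A ≠ 0) (hΔ : ¬ IsSquare (B ^ 2 - 4 * A * C)) (f : ℕ → ℤ × ℤ)
    (hf : AdmQ A B C f) (K P₀ s : ℕ) (bad : Finset (ℤ × ℤ))
    (hbad : ∀ g ∈ bad, 1 ≤ g.1 ∧ g ∉ Set.range f) :
    ∃ W r : ℕ, 1 ≤ W ∧ (∀ p : ℕ, p.Prime → p ≤ P₀ → p ∣ W) ∧
      (∀ p : ℕ, p.Prime → p ∣ W → ∀ i < K, ¬ (p : ℤ) ∣ Gq A B C ((f i).1 * r + (f i).2)) ∧
      ∀ g ∈ bad, ∀ n : ℕ, n ≡ r [MOD W] →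
        s < (Gq A B C (g.1 * n + g.2)).natAbs.primeFactorsList.length := by
  classical
  choose np hnp using fun (p : ℕ) (hp : p.Prime) => hf.adm p hp
  set M : ℕ := P₀ + ∑ g ∈ bad, g.1.natAbs +
    ∑ g ∈ bad, ∑ i ∈ range K, (Rs A B C (f i) g).natAbs with hM
  have hinf := inf_primes A B C hA hΔ
  set R : ℕ → Prop := fun q => q.Prime ∧ ∃ x : ℤ, (q : ℤ) ∣ Gq A B C x with hR
  have hinf' : (Set.ofPred R).Infinite := hinf
  set q : (ℤ × ℤ) × ℕ → ℕ := fun g => Nat.nth R (M + 1 + Encodable.encode g) with hq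
  have hqR : ∀ g, R (q g) := fun g => Nat.nth_mem_of_infinite hinf' _
  have hqp : ∀ g, (q g).Prime := fun g => (hqR g).1
  have hqM : ∀ g, M < q g := fun g => by
    have : M + 1 + Encodable.encode g ≤ q g := (Nat.nth_strictMono hinf').le_apply
    omega
  have hqinj : Function.Injective q := by
    intro g g' h
    have h1 := Nat.nth_injective hinf' h
    have h2 : Encodable.encode g = Encodable.encode g' := by omega
    exact Encodable.encode_injective h2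
  have hg1 : ∀ g ∈ bad, ∀ l : ℕ, ¬ (q (g, l) : ℤ) ∣ g.1 := by
    intro g hg l hd
    have h1 : g.1.natAbs ≤ ∑ g ∈ bad, g.1.natAbs :=
      Finset.single_le_sum (f := fun g : ℤ × ℤ => g.1.natAbs) (fun _ _ => Nat.zero_le _) hg
    have h2 := hqM (g, l)
    have h3 := (hbad g hg).1
    have h4 := Int.le_of_dvd (by omega) hd
    omega
  have hroot : ∀ (g : ℤ × ℤ) (l : ℕ), ∃ r : ℕ, g ∈ bad →
      (q (g, l) : ℤ) ∣ Gq A B C (g.1 * r + g.2) := by
    intro g l
    by_cases hg : g ∈ bad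
    · obtain ⟨x, hx⟩ := (hqR (g, l)).2
      obtain ⟨r, hr⟩ := Pool.Agent.H361R2.Inf.A6_root (q (g, l)) (hqp _) g.1 (g.2 - x) (hg1 g hg l)
      refine ⟨r, fun _ => ?_⟩
      refine (Gq_per A B C _ _ _ ?_).2 hx
      have e : g.1 * (r : ℤ) + g.2 - x = g.1 * r + (g.2 - x) := by ring
      rw [e]
      exact hr
    · exact ⟨0, fun h => absurd h hg⟩
  choose ro hro using hroot
  set P : Finset ℕ := (Finset.range (P₀ + 1)).filter Nat.Prime with hP
  set t : Finset (ℕ ⊕ ((ℤ × ℤ) × ℕ)) := P.disjSum (bad ×ˢ range (s + 1)) with ht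
  set spf : ℕ ⊕ ((ℤ × ℤ) × ℕ) → ℕ := Sum.elim id q with hs
  set a : ℕ ⊕ ((ℤ × ℤ) × ℕ) → ℕ := Sum.elim
    (fun p => if hp : p.Prime then np p hp else 0) (fun g => ro g.1 g.2) with ha
  have hsprime : ∀ x ∈ t, (spf x).Prime := by
    intro x hx
    rcases x with p | j
    · have : p ∈ P := Finset.inl_mem_disjSum.mp hx
      exact (Finset.mem_filter.mp this).2
    · exact hqp j
  have hsinj : ∀ x ∈ t, ∀ y ∈ t, x ≠ y → spf x ≠ spf y := by
    intro x hx y hy hxy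
    rcases x with p | j <;> rcases y with p' | j'
    · intro h'
      exact hxy (congrArg Sum.inl h')
    · intro h'
      have h1 : p ∈ P := Finset.inl_mem_disjSum.mp hx
      have h2 : p < P₀ + 1 := Finset.mem_range.mp (Finset.mem_filter.mp h1).1
      have h3 : p = q j' := h'
      have := hqM j'
      omega
    · intro h'
      have h1 : p' ∈ P := Finset.inl_mem_disjSum.mp hy
      have h2 : p' < P₀ + 1 := Finset.mem_range.mp (Finset.mem_filter.mp h1).1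
      have h3 : q j = p' := h'
      have := hqM j
      omega
    · intro h'
      exact hxy (congrArg Sum.inr (hqinj h'))
  have hpair : Set.Pairwise (t : Set (ℕ ⊕ ((ℤ × ℤ) × ℕ))) (Function.onFun Nat.Coprime spf) := by
    intro x hx y hy hxy
    exact (Nat.coprime_primes (hsprime x hx) (hsprime y hy)).mpr (hsinj x hx y hy hxy)
  obtain ⟨r, hr⟩ := Nat.chineseRemainderOfFinset a spf t (fun i hi => (hsprime i hi).ne_zero) hpair
  have hqr : ∀ g ∈ bad, ∀ l < s + 1, ∀ n : ℕ, n ≡ r [MOD q (g, l)] →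
      (q (g, l) : ℤ) ∣ Gq A B C (g.1 * n + g.2) := by
    intro g hg l hl n hn
    have h1 : r ≡ ro g l [MOD q (g, l)] := hr (Sum.inr (g, l)) (Finset.inr_mem_disjSum.mpr
      (mem_product.2 ⟨hg, mem_range.2 hl⟩))
    have h2 : (n : ℤ) ≡ (ro g l : ℤ) [ZMOD q (g, l)] := Int.natCast_modEq_iff.mpr (hn.trans h1)
    refine (Gq_per A B C _ _ _ ?_).2 (hro g l hg)
    exact Int.modEq_iff_dvd.1 ((h2.mul_left _).add_right _).symm
  refine ⟨∏ x ∈ t, spf x, r, ?_, ?_, ?_, ?_⟩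
  · exact Nat.one_le_iff_ne_zero.mpr
      (Finset.prod_ne_zero_iff.mpr (fun x hx => (hsprime x hx).ne_zero))
  · intro p hp hpK
    have hmem : (Sum.inl p : ℕ ⊕ ((ℤ × ℤ) × ℕ)) ∈ t :=
      Finset.inl_mem_disjSum.mpr (Finset.mem_filter.mpr ⟨Finset.mem_range.mpr (by omega), hp⟩)
    exact Finset.dvd_prod_of_mem spf hmem
  · intro p hp hpW i hi hd
    obtain ⟨x, hx, hpx⟩ := (hp.prime.dvd_finsetProd_iff _).1 hpW
    have hpe := (Nat.prime_dvd_prime_iff_eq hp (hsprime x hx)).1 hpx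
    rcases x with p' | ⟨g, l⟩
    · have hpe' : p = p' := hpe
      subst hpe'
      have h1 : r ≡ a (Sum.inl p) [MOD p] := hr _ hx
      have h2 : a (Sum.inl p) = np p hp := by
        simp only [ha, Sum.elim_inl, dif_pos hp]
      rw [h2] at h1
      refine hnp p hp i ((Gq_per A B C _ _ _ ?_).1 hd)
      have h3 : (r : ℤ) ≡ (np p hp : ℤ) [ZMOD p] := Int.natCast_modEq_iff.mpr h1
      exact Int.modEq_iff_dvd.1 ((h3.mul_left _).add_right _).symm
    · have hpe' : p = q (g, l) := hpe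
      rw [hpe'] at hd
      have hx' := mem_product.1 (Finset.inr_mem_disjSum.mp hx)
      have hg : g ∈ bad := hx'.1
      have h1 := hqr g hg l (mem_range.1 hx'.2) r (Nat.ModEq.refl _)
      have h2 := Rs_dvd A B C (f i) g (q (g, l)) r hd h1
      have h3 := Rs_ne A B C hA hΔ (f i) g (hf.one i) (hbad g hg).1 (fun h =>
        (hbad g hg).2 ⟨i, h⟩)
      have h4 := Nat.le_of_dvd (Int.natAbs_pos.2 h3) (Int.natCast_dvd.1 h2)
      have h6 : ∑ i ∈ range K, (Rs A B C (f i) g).natAbs ≤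
          ∑ g ∈ bad, ∑ i ∈ range K, (Rs A B C (f i) g).natAbs :=
        Finset.single_le_sum
          (f := fun g : ℤ × ℤ => ∑ i ∈ range K, (Rs A B C (f i) g).natAbs)
          (fun _ _ => Nat.zero_le _) hg
      have h7 : (Rs A B C (f i) g).natAbs ≤ ∑ i ∈ range K, (Rs A B C (f i) g).natAbs :=
        Finset.single_le_sum (f := fun i => (Rs A B C (f i) g).natAbs)
          (fun _ _ => Nat.zero_le _) (mem_range.mpr hi)
      have := hqM (g, l)
      omega
  · intro g hg n hn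
    have hne : (Gq A B C (g.1 * n + g.2)).natAbs ≠ 0 := Int.natAbs_ne_zero.2
      (Gq_ne_zero A B C hΔ _)
    have hsub : (range (s + 1)).image (fun l => q (g, l)) ⊆
        (Gq A B C (g.1 * n + g.2)).natAbs.primeFactorsList.toFinset := by
      intro x hx
      rw [mem_image] at hx
      obtain ⟨l, hl, rfl⟩ := hx
      rw [List.mem_toFinset, Nat.mem_primeFactorsList hne]
      refine ⟨hqp _, ?_⟩
      have hmem : (Sum.inr (g, l) : ℕ ⊕ ((ℤ × ℤ) × ℕ)) ∈ t :=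
        Finset.inr_mem_disjSum.mpr (mem_product.2 ⟨hg, hl⟩)
      have hd : q (g, l) ∣ ∏ x ∈ t, spf x := Finset.dvd_prod_of_mem spf hmem
      exact Int.natCast_dvd.1 (hqr g hg l (mem_range.1 hl) n (hn.of_dvd hd))
    have h1 := card_le_card hsub
    rw [card_image_of_injective _ (fun l l' h => by
      have := hqinj h
      exact (Prod.mk.inj this).2), card_range] at h1
    have h2 := List.toFinset_card_le (Gq A B C (g.1 * n + g.2)).natAbs.primeFactorsList
    omega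

end Pool.Agent.J6H17.QP
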