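import Pool.Agent.J6H17.QP.FinQ
import Pool.Agent.J6H17.QP.Sel
import Pool.Agent.H361R2.InfT3

set_option autoImplicit false
set_option linter.unusedSectionVars false

/-! Finitely additive measures. -/

namespace Pool.Agent.J6H17.QP

open Finset Filter Topology
open Pool.Agent.H361R2.Inf (FMeas T3_mono)

/-- the number of the elements of `S` in the interval `(N, N + N ^ (3 / 4)]` -/
noncomputable def cntS (S : Set ℕ) (N : ℕ) : ℕ :=
  {n : ℕ | n ∈ S ∧ N < n ∧ (n : ℝ) ≤ N + (N : ℝ) ^ (3 / 4 : ℝ)}.ncard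

open Classical in
/-- for infinitely many `k`, for a positive proportion of the `N` in the set `NN k` the interval
`(N, N + N ^ (3 / 4)]` contains at least `c N ^ (3 / 4) / (log N) ^ D` elements of `S` -/
def Often (NN : ℕ → Finset ℕ) (S : Set ℕ) : Prop :=
  ∃ (c : ℝ) (D : ℕ), 0 < c ∧ ∃ᶠ k in atTop, c * ((NN k).card : ℝ) ≤
    (((NN k).filter (fun N : ℕ => c * (N : ℝ) ^ (3 / 4 : ℝ) ≤
      (cntS S N : ℝ) * Real.log N ^ D)).card : ℝ)

theorem fin_cnt (S : Set ℕ) (N : ℕ) :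
    {n : ℕ | n ∈ S ∧ N < n ∧ (n : ℝ) ≤ N + (N : ℝ) ^ (3 / 4 : ℝ)}.Finite := by
  refine (Set.finite_Iic ⌊(N : ℝ) + (N : ℝ) ^ (3 / 4 : ℝ)⌋₊).subset ?_
  rintro n ⟨_, _, h⟩
  exact Nat.le_floor h

theorem cntS_mono {S S' : Set ℕ} (h : S ⊆ S') (N : ℕ) : cntS S N ≤ cntS S' N :=
  Set.ncard_le_ncard (fun _ hn => ⟨h hn.1, hn.2⟩) (fin_cnt S' N)

theorem Often.mono {NN : ℕ → Finset ℕ} {S S' : Set ℕ} (h : S ⊆ S') (hS : Often NN S) :
    Often NN S' := by
  classical
  obtain ⟨c, D, hc, hf⟩ := hS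
  refine ⟨c, D, hc, hf.mono fun k hk => hk.trans ?_⟩
  have h1 : (NN k).filter (fun N : ℕ => c * (N : ℝ) ^ (3 / 4 : ℝ) ≤
      (cntS S N : ℝ) * Real.log N ^ D) ⊆ (NN k).filter (fun N : ℕ => c * (N : ℝ) ^ (3 / 4 : ℝ) ≤
      (cntS S' N : ℝ) * Real.log N ^ D) := by
    intro N hN
    rw [mem_filter] at hN ⊢
    refine ⟨hN.1, hN.2.trans ?_⟩
    apply mul_le_mul_of_nonneg_right
    · exact_mod_cast cntS_mono h N
    · exact pow_nonneg (Real.log_natCast_nonneg N) _
  exact_mod_cast card_le_card h1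

open Classical in
/-- the weight of a set -/
noncomputable def wS (Sf : ℕ → Finset ℕ) (mu : ℕ → ℕ → ℝ) (S : Set ℕ) (N : ℕ) : ℝ :=
  ∑ n ∈ (Sf N).filter (fun n => n ∈ S), mu N n

/-- the average weight of a set -/
noncomputable def wA (NN : ℕ → Finset ℕ) (Sf : ℕ → Finset ℕ) (mu : ℕ → ℕ → ℝ) (S : Set ℕ)
    (k : ℕ) : ℝ := (∑ N ∈ NN k, wS Sf mu S N) / (NN k).card

open Classical in
/-- the limit of the average weights along an ultrafilter -/
theorem lim_wA (U : Ultrafilter ℕ) (hU : (U : Filter ℕ) ≤ atTop) (NN : ℕ → Finset ℕ)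
    (hN1 : ∀ k, (NN k).Nonempty) (hN2 : ∀ b, ∀ᶠ k in atTop, ∀ N ∈ NN k, b ≤ N)
    (Sf : ℕ → Finset ℕ) (mu : ℕ → ℕ → ℝ) (N₀ : ℕ)
    (h0 : ∀ N, N₀ ≤ N → ∀ n ∈ Sf N, 0 ≤ mu N n ∧ N < n)
    (h2 : ∀ N, N₀ ≤ N → ∑ n ∈ Sf N, mu N n ≤ 2) :
    ∃ m : Set ℕ → ℝ, FMeas m ∧ m Set.univ ≤ 2 ∧ ∀ S, Tendsto (wA NN Sf mu S) U (𝓝 (m S)) := by
  have hc : ∀ k, (0 : ℝ) < ((NN k).card : ℝ) := fun k => by exact_mod_cast card_pos.2 (hN1 k)
  have hnn : ∀ S : Set ℕ, ∀ᶠ k in (U : Filter ℕ), 0 ≤ wA NN Sf mu S k := by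
    intro S
    filter_upwards [hU (hN2 N₀)] with k hk
    apply div_nonneg _ (hc k).le
    apply sum_nonneg
    intro N hN
    exact sum_nonneg fun n hn => (h0 N (hk N hN) n (mem_filter.1 hn).1).1
  have hle : ∀ S : Set ℕ, ∀ᶠ k in (U : Filter ℕ), wA NN Sf mu S k ≤ 2 := by
    intro S
    filter_upwards [hU (hN2 N₀)] with k hk
    unfold wA
    rw [div_le_iff₀ (hc k)]
    calc ∑ N ∈ NN k, wS Sf mu S N ≤ ∑ _N ∈ NN k, (2 : ℝ) := by
          apply sum_le_sum
          intro N hN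
          exact (sum_le_sum_of_subset_of_nonneg (filter_subset _ _)
            fun n hn _ => (h0 N (hk N hN) n hn).1).trans (h2 N (hk N hN))
      _ = 2 * (NN k).card := by rw [sum_const, nsmul_eq_mul, mul_comm]
  have hlim : ∀ S : Set ℕ, ∃ y : ℝ, y ∈ Set.Icc (0 : ℝ) 2 ∧
      Tendsto (wA NN Sf mu S) U (𝓝 y) := by
    intro S
    have h1 : (U.map (wA NN Sf mu S) : Filter ℝ) ≤ 𝓟 (Set.Icc (0 : ℝ) 2) := by
      rw [Filter.le_principal_iff, Ultrafilter.mem_coe, Ultrafilter.mem_map]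
      filter_upwards [hnn S, hle S] with x h1 h2
      exact ⟨h1, h2⟩
    obtain ⟨y, hy, hy2⟩ := isCompact_Icc.ultrafilter_le_nhds (U.map (wA NN Sf mu S)) h1
    exact ⟨y, hy, hy2⟩
  choose m hm1 hm2 using hlim
  refine ⟨m, ⟨fun S => (hm1 S).1, fun S T hST => ?_, fun S hS => ?_⟩, (hm1 _).2, hm2⟩
  · have h1 : Tendsto (wA NN Sf mu (S ∪ T)) U (𝓝 (m S + m T)) := by
      have h3 := (hm2 S).add (hm2 T)
      refine h3.congr fun k => ?_
      unfold wA
      rw [← add_div, ← sum_add_distrib]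
      congr 1
      refine sum_congr rfl fun N _ => ?_
      unfold wS
      simp only [Set.mem_union]
      rw [filter_or, sum_union]
      rw [disjoint_filter]
      intro n _ ha hb
      exact Set.disjoint_left.1 hST ha hb
    exact tendsto_nhds_unique (hm2 _) h1
  · obtain ⟨b, hb⟩ := hS.bddAbove
    have h3 : ∀ᶠ k in (U : Filter ℕ), wA NN Sf mu S k = 0 := by
      filter_upwards [hU (hN2 (max N₀ b))] with k hk
      unfold wA
      rw [sum_eq_zero, zero_div]
      intro N hN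
      have h5 := hk N hN
      unfold wS
      apply sum_eq_zero
      intro n hn
      rw [mem_filter] at hn
      have h4 := (h0 N ((le_max_left _ _).trans h5) n hn.1).2
      have h6 := hb hn.2
      have h7 := (le_max_right N₀ b).trans h5
      omega
    have h4 : Tendsto (wA NN Sf mu S) U (𝓝 0) :=
      tendsto_const_nhds.congr' (h3.mono fun _ h => h.symm)
    exact tendsto_nhds_unique (hm2 _) h4

open Classical in
/-- a set of positive measure has many elements often -/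
theorem often_of (U : Ultrafilter ℕ) (hU : (U : Filter ℕ) ≤ atTop) (NN : ℕ → Finset ℕ)
    (hN1 : ∀ k, (NN k).Nonempty) (hN2 : ∀ b, ∀ᶠ k in atTop, ∀ N ∈ NN k, b ≤ N)
    (Sf : ℕ → Finset ℕ) (mu : ℕ → ℕ → ℝ) (N₀ D : ℕ) (cm : ℝ) (hcm : 0 < cm) (Ok : Set ℕ)
    (h0 : ∀ N, N₀ ≤ N → ∀ n ∈ Sf N, 0 ≤ mu N n ∧ mu N n * (N : ℝ) ^ (3 / 4 : ℝ) ≤
      cm * Real.log N ^ D ∧ N < n ∧ (n : ℝ) ≤ N + (N : ℝ) ^ (3 / 4 : ℝ) ∧ n ∈ Ok)
    (h2 : ∀ N, N₀ ≤ N → ∑ n ∈ Sf N, mu N n ≤ 2) (S : Set ℕ) (y : ℝ) (hy : 0 < y)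
    (hS : Tendsto (wA NN Sf mu S) U (𝓝 y)) : Often NN (S ∩ Ok) := by
  have hc : ∀ k, (0 : ℝ) < ((NN k).card : ℝ) := fun k => by exact_mod_cast card_pos.2 (hN1 k)
  have h3 : ∀ᶠ k in (U : Filter ℕ), y / 2 < wA NN Sf mu S k :=
    hS.eventually (lt_mem_nhds (by linarith))
  set c : ℝ := min (y / 8) (y / (4 * cm)) with hcd
  have hc0 : 0 < c := lt_min (by positivity) (by positivity)
  refine ⟨c, D, hc0, ?_⟩
  have h4 : ∀ᶠ k in (U : Filter ℕ), c * ((NN k).card : ℝ) ≤
      (((NN k).filter (fun N : ℕ => c * (N : ℝ) ^ (3 / 4 : ℝ) ≤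
        (cntS (S ∩ Ok) N : ℝ) * Real.log N ^ D)).card : ℝ) := by
    filter_upwards [h3, hU (hN2 N₀)] with k hk1 hk2
    unfold wA at hk1
    rw [lt_div_iff₀ (hc k)] at hk1
    -- the large terms
    have h5 : ∀ N ∈ NN k, wS Sf mu S N ≤ (if c * (N : ℝ) ^ (3 / 4 : ℝ) ≤
        (cntS (S ∩ Ok) N : ℝ) * Real.log N ^ D then 2 else 0) + y / 4 := by
      intro N hN
      have hNN := hk2 N hN
      split_ifs with h6
      · have h7 : wS Sf mu S N ≤ 2 := (sum_le_sum_of_subset_of_nonneg (filter_subset _ _)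
            fun n hn _ => (h0 N hNN n hn).1).trans (h2 N hNN)
        linarith
      · push Not at h6
        rw [zero_add]
        rcases Nat.eq_zero_or_pos N with h8 | h8
        · -- `N = 0`
          subst h8
          unfold wS
          rw [sum_eq_zero]
          · positivity
          · intro n hn
            rw [mem_filter] at hn
            have h9 := (h0 0 hNN n hn.1)
            have h10 := h9.2.2.2.1
            have h11 := h9.2.2.1
            simp only [Nat.cast_zero, zero_add] at h10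
            rw [Real.zero_rpow (by norm_num)] at h10
            have h12 : (0 : ℝ) < n := by exact_mod_cast h11
            linarith
        · have hN0 : (0 : ℝ) < (N : ℝ) ^ (3 / 4 : ℝ) := by
            have : (0 : ℝ) < N := by exact_mod_cast h8
            positivity
          have hlog : 0 ≤ Real.log N ^ D := pow_nonneg (Real.log_natCast_nonneg N) _
          have h9 : wS Sf mu S N * (N : ℝ) ^ (3 / 4 : ℝ) ≤
              (cntS (S ∩ Ok) N : ℝ) * (cm * Real.log N ^ D) := by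
            unfold wS
            rw [sum_mul]
            calc ∑ n ∈ (Sf N).filter (fun n => n ∈ S), mu N n * (N : ℝ) ^ (3 / 4 : ℝ) ≤
                ∑ _n ∈ (Sf N).filter (fun n => n ∈ S), cm * Real.log N ^ D :=
                  sum_le_sum fun n hn => (h0 N hNN n (mem_filter.1 hn).1).2.1
              _ = (((Sf N).filter (fun n => n ∈ S)).card : ℝ) * (cm * Real.log N ^ D) := by
                  rw [sum_const, nsmul_eq_mul]
              _ ≤ _ := by
                  apply mul_le_mul_of_nonneg_right _ (by positivity)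
                  have h10 : ((Sf N).filter (fun n => n ∈ S)).card ≤ cntS (S ∩ Ok) N := by
                    unfold cntS
                    rw [← Set.ncard_coe_finset]
                    apply Set.ncard_le_ncard _ (fin_cnt _ N)
                    intro n hn
                    rw [mem_coe, mem_filter] at hn
                    have h11 := h0 N hNN n hn.1
                    exact ⟨⟨hn.2, h11.2.2.2.2⟩, h11.2.2.1, h11.2.2.2.1⟩
                  exact_mod_cast h10
          have h10 : (cntS (S ∩ Ok) N : ℝ) * (cm * Real.log N ^ D) ≤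
              cm * (c * (N : ℝ) ^ (3 / 4 : ℝ)) := by
            calc (cntS (S ∩ Ok) N : ℝ) * (cm * Real.log N ^ D) =
                cm * ((cntS (S ∩ Ok) N : ℝ) * Real.log N ^ D) := by ring
              _ ≤ _ := mul_le_mul_of_nonneg_left h6.le hcm.le
          have h11 : cm * (c * (N : ℝ) ^ (3 / 4 : ℝ)) ≤ y / 4 * (N : ℝ) ^ (3 / 4 : ℝ) := by
            rw [← mul_assoc]
            apply mul_le_mul_of_nonneg_right _ hN0.le
            have h12 : c ≤ y / (4 * cm) := min_le_right _ _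
            rw [le_div_iff₀ (by positivity)] at h12
            linarith
          exact le_of_mul_le_mul_right (h9.trans (h10.trans h11)) hN0
    have h6 := sum_le_sum h5
    rw [sum_add_distrib, sum_const, nsmul_eq_mul, ← sum_filter, sum_const, nsmul_eq_mul] at h6
    have h7 : c ≤ y / 8 := min_le_left _ _
    have h8 := mul_le_mul_of_nonneg_right h7 (hc k).le
    linarith
  exact (h4.frequently).filter_mono hU

/-- **Measures for admissible sequences of linear forms.** -/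
theorem pack (A B C : ℤ) (hA : A ≠ 0) (hΔ : ¬ IsSquare (B ^ 2 - 4 * A * C))
    (hfix : ∀ p : ℕ, p.Prime → ∃ n : ℤ, ¬ (p : ℤ) ∣ Gq A B C n) :
    ∃ (off : ℕ → ℕ) (δ : ℝ), StrictMono off ∧ off 0 = 0 ∧ 0 < δ ∧ ∀ f : ℕ → ℤ × ℤ,
      AdmQ A B C f → ∀ (s : ℕ) (NN : ℕ → Finset ℕ), (∀ k, (NN k).Nonempty) →
      (∀ b, ∀ᶠ k in atTop, ∀ N ∈ NN k, b ≤ N) →
      ∃ m : Set ℕ → ℝ, FMeas m ∧ m Set.univ ≤ 2 ∧
        (∀ t, δ ≤ m {n | ∃ i ∈ Ico (off t) (off (t + 1)), PQ A B C 3 (9 / 50) (f i) n}) ∧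
        ∀ S : Set ℕ, 0 < m S → ∀ Tf : Finset (ℤ × ℤ), (∀ g ∈ Tf, 1 ≤ g.1) →
          ∃ ε : ℝ, 0 < ε ∧ Often NN (S ∩ {n | ∀ g ∈ Tf,
            (g ∈ Set.range f → ∀ p : ℕ, p.Prime → (p : ℤ) ∣ Gq A B C (g.1 * n + g.2) →
              (n : ℝ) ^ ε ≤ p) ∧
            (g ∉ Set.range f →
              s < (Gq A B C (g.1 * n + g.2)).natAbs.primeFactorsList.length)}) := by
  classical
  obtain ⟨kb, δ, hδ, hfin⟩ := finQ A B C hA hΔ hfix
  choose P₀ D ε hε hfin using hfin
  refine ⟨offb kb, δ, offb_strict kb, offb_zero kb, hδ, ?_⟩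
  intro f hf s NN hN1 hN2
  set off := offb kb with hoff
  set bad : ℕ → Finset (ℤ × ℤ) := fun J =>
    ((range J).image (fun e => Denumerable.ofNat (ℤ × ℤ) e)).filter
      (fun g => 1 ≤ g.1 ∧ g ∉ Set.range f) with hbad
  choose W r hW hWp hWc hQ using fun J : ℕ => exclass A B C hA hΔ f hf (off J) (P₀ J) s (bad J)
    (fun g hg => (Finset.mem_filter.mp hg).2)
  -- the weights for one `J`
  have hfin' := fun J => hfin J f (fun i _ => hf.one i) (fun i _ j _ h => hf.inj h)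
    (fun i _ => hf.pr i) (W J) (r J) (hW J) (hWp J) (hWc J)
  choose cm hcm hfin' using hfin'
  -- the ultrafilter
  set U : Ultrafilter ℕ := Ultrafilter.of atTop with hU
  have hUle : (U : Filter ℕ) ≤ atTop := Ultrafilter.of_le _
  set Ok : ℕ → Set ℕ := fun J => {n | n ≡ r J [MOD W J] ∧
            ∀ i < off J, ∀ p : ℕ, p.Prime → (p : ℤ) ∣ Gq A B C ((f i).1 * n + (f i).2) →
            (n : ℝ) ^ ε J ≤ p} with hOk
  have hone : ∀ J, ∃ m : Set ℕ → ℝ, FMeas m ∧ m Set.univ ≤ 2 ∧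
      (∀ t < J, δ ≤ m {n | ∃ i ∈ Ico (off t) (off (t + 1)), PQ A B C 3 (9 / 50) (f i) n}) ∧
      ∀ S : Set ℕ, 0 < m S → Often NN (S ∩ Ok J) := by
    intro J
    have h1 := hfin' J
    rw [eventually_atTop] at h1
    obtain ⟨N₀, h1⟩ := h1
    choose! Sf mu h3 h4 h5 using h1
    obtain ⟨m, hm, hm2, hmt⟩ := lim_wA U hUle NN hN1 hN2 Sf mu N₀
      (fun N hN n hn => ⟨(h3 N hN n hn).1, (h3 N hN n hn).2.2.1⟩) h4
    refine ⟨m, hm, hm2, ?_, ?_⟩
    · intro t ht
      refine ge_of_tendsto (hmt _) ?_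
      filter_upwards [hUle (hN2 N₀)] with k hk
      have hck : (0 : ℝ) < ((NN k).card : ℝ) := by exact_mod_cast card_pos.2 (hN1 k)
      unfold wA
      rw [le_div_iff₀ hck]
      calc δ * (NN k).card = ∑ _N ∈ NN k, δ := by rw [sum_const, nsmul_eq_mul, mul_comm]
        _ ≤ _ := by
            apply sum_le_sum
            intro N hN
            refine (h5 N (hk N hN) t ht).trans (le_of_eq ?_)
            unfold wS
            apply sum_congr _ (fun _ _ => rfl)
            ext n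
            simp only [mem_filter]
            exact Iff.rfl
    · intro S hS
      exact often_of U hUle NN hN1 hN2 Sf mu N₀ (D J) (cm J) (hcm J) (Ok J)
        (fun N hN n hn => by
          obtain ⟨a1, a2, a3, a4, a5, a6⟩ := h3 N hN n hn
          exact ⟨a1, a2, a3, a4, a5, a6⟩) h4 S (m S) hS (hmt S)
  choose M hM hM2 hMc hMS using hone
  -- the limit over `J`
  have hlim : ∀ S : Set ℕ, ∃ l : ℝ, l ∈ Set.Icc (0 : ℝ) 2 ∧
      Tendsto (fun J => M J S) U (𝓝 l) := by
    intro S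
    have h1 : ((U.map (fun J => M J S) : Ultrafilter ℝ) : Filter ℝ) ≤ 𝓟 (Set.Icc (0 : ℝ) 2) := by
      rw [le_principal_iff, Ultrafilter.mem_coe, Ultrafilter.mem_map]
      apply Filter.univ_mem'
      intro J
      exact ⟨(hM J).nonneg S, (T3_mono (hM J) (Set.subset_univ S)).trans (hM2 J)⟩
    obtain ⟨l, hl0, hl⟩ := isCompact_Icc.ultrafilter_le_nhds _ h1
    exact ⟨l, hl0, hl⟩
  choose m hm02 hm using hlim
  have hmF : FMeas m := by
    refine ⟨fun S => (hm02 S).1, fun S T hST => ?_, fun S hS => ?_⟩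
    · have h1 := (hm S).add (hm T)
      have h2 := hm (S ∪ T)
      have h3 : (fun J => M J (S ∪ T)) = fun J => M J S + M J T := by
        ext J
        exact (hM J).add S T hST
      rw [h3] at h2
      exact tendsto_nhds_unique h2 h1
    · have h1 := hm S
      have h2 : (fun J => M J S) = fun _ => 0 := by
        ext J
        exact (hM J).fin S hS
      rw [h2] at h1
      exact tendsto_nhds_unique h1 tendsto_const_nhds
  refine ⟨m, hmF, (hm02 _).2, ?_, ?_⟩
  · intro t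
    apply ge_of_tendsto (hm _)
    have h1 : ∀ᶠ J in (U : Filter ℕ), t < J := hUle (eventually_gt_atTop t)
    filter_upwards [h1] with J hJ
    exact hMc J t hJ
  · intro S hS Tf hTf
    have h2 : ∀ᶠ J in (U : Filter ℕ), 0 < M J S := (hm S).eventually (lt_mem_nhds hS)
    obtain ⟨N1, hN1'⟩ : ∃ N : ℕ, ∀ i, f i ∈ Tf → i < N := by
      have h1 : (f ⁻¹' (Tf : Set (ℤ × ℤ))).Finite := Tf.finite_toSet.preimage hf.inj.injOn
      obtain ⟨N, hN⟩ := h1.bddAbove
      exact ⟨N + 1, fun i hi => Nat.lt_succ_of_le (hN hi)⟩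
    set N2 : ℕ := Tf.sup Encodable.encode + 1 with hN2'
    have h3 : ∀ᶠ J in (U : Filter ℕ), max N1 N2 ≤ J := hUle (eventually_ge_atTop _)
    obtain ⟨J, hJ1, hJ2⟩ := (h2.and h3).exists
    refine ⟨ε J, hε J, (hMS J S hJ1).mono ?_⟩
    rintro n ⟨k2, k5, k6⟩
    refine ⟨k2, fun g hg => ⟨?_, ?_⟩⟩
    · rintro ⟨i, rfl⟩
      have h4 : i < off J := by
        have h5 := hN1' i hg
        have h6 : J ≤ off J := (offb_strict kb).le_apply
        have h7 := (le_max_left N1 N2).trans hJ2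
        omega
      exact k6 i h4
    · intro hgr
      apply hQ J g _ n k5
      refine Finset.mem_filter.mpr ⟨?_, hTf g hg, hgr⟩
      refine Finset.mem_image.mpr ⟨Encodable.encode g, ?_, Denumerable.ofNat_encode g⟩
      rw [Finset.mem_range]
      have h1 : Encodable.encode g ≤ Tf.sup Encodable.encode :=
        Finset.le_sup (f := Encodable.encode) hg
      have h4 : N2 ≤ J := (le_max_right _ _).trans hJ2
      omega

end Pool.Agent.J6H17.QP
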