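import Pool.Agent.J6H17.QP.Mains
import Pool.Agent.R498.MT.Mert

set_option autoImplicit false
set_option linter.unusedSectionVars false

/-! Two slots without small prime factors: the weights can be replaced by smoother ones. -/

namespace Pool.Agent.J6H17.QP

open Finset
open Pool.Agent.R498.MT
open Pool.Agent.H410R2 (fib mem_fib sum_tuple_le sum_tuple_ge)

section pair
variable {S J : Type} [Fintype S] [DecidableEq S] [Fintype J] [DecidableEq J]

/-- forget the colours `i`, `j` -/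
def st (i j : J) (σ : S → Option J) (t : S) : Option J :=
  if σ t = some i ∨ σ t = some j then none else σ t

/-- mass of the two colours -/
def mij (μ : S → ℝ) (i j : J) (σ : S → Option J) : ℝ := ms μ (fib σ i) * ms μ (fib σ j)

/-- the sets of small size -/
noncomputable def gi (l : S → ℝ) (u : ℝ) (a : Finset S) : ℝ := if lz l a < u then 1 else 0

theorem gi_bd (l : S → ℝ) (u : ℝ) (a : Finset S) : 0 ≤ gi l u a ∧ gi l u a ≤ 1 := by
  unfold gi
  split_ifs <;> norm_num

theorem gi_sq (l : S → ℝ) (u : ℝ) (a : Finset S) : gi l u a * gi l u a = gi l u a := by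
  unfold gi
  split_ifs <;> norm_num

/-- the sums over the colours `i`, `j` -/
noncomputable def YY (μ : S → ℝ) (i j : J) (y : (S → Option J) → ℝ) (s : S → Option J) : ℝ :=
  ∑ σ ∈ univ.filter (fun σ => st i j σ = s), mij μ i j σ * y σ

/-- the normalisation -/
noncomputable def DD (μ l : S → ℝ) (i j : J) (u : ℝ) (s : S → Option J) : ℝ :=
  ∑ σ ∈ univ.filter (fun σ => st i j σ = s), mij μ i j σ * (gi l u (fib σ i) * gi l u (fib σ j))

/-- the new weights -/
noncomputable def y2 (μ l : S → ℝ) (i j : J) (u : ℝ) (y : (S → Option J) → ℝ)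
    (σ : S → Option J) : ℝ :=
  gi l u (fib σ i) * gi l u (fib σ j) * (YY μ i j y (st i j σ) / DD μ l i j u (st i j σ))

theorem fib_st (i j m : J) (hi : m ≠ i) (hj : m ≠ j) (σ : S → Option J) :
    fib (st i j σ) m = fib σ m := by
  ext t
  rw [mem_fib, mem_fib]
  unfold st
  by_cases h : σ t = some i ∨ σ t = some j
  · rw [if_pos h]
    constructor
    · intro h'; simp at h'
    · intro h'
      rcases h with h | h
      · rw [h] at h'; exact absurd (Option.some.inj h').symm hi
      · rw [h] at h'; exact absurd (Option.some.inj h').symm hj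
  · rw [if_neg h]

theorem st_ne (i j : J) (σ : S → Option J) (t : S) : st i j σ t ≠ some i ∧ st i j σ t ≠ some j := by
  unfold st
  split_ifs with h
  · simp
  · push Not at h
    exact h

theorem fib_st_i (i j : J) (σ : S → Option J) : fib (st i j σ) i = ∅ := by
  ext t
  rw [mem_fib]
  simp only [notMem_empty, iff_false]
  exact (st_ne i j σ t).1

theorem fib_st_j (i j : J) (σ : S → Option J) : fib (st i j σ) j = ∅ := by
  ext t
  rw [mem_fib]
  simp only [notMem_empty, iff_false]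
  exact (st_ne i j σ t).2

theorem mt_st (μ : S → ℝ) (i j : J) (hij : i ≠ j) (σ : S → Option J) :
    R498.MT.mt μ σ = R498.MT.mt μ (st i j σ) * mij μ i j σ := by
  rw [mt_eq, mt_eq]
  unfold mij
  have h1 : ∏ m : J, (if m = i then ms μ (fib σ i) else 1) = ms μ (fib σ i) := by
    rw [prod_ite_eq' univ i]
    simp
  have h2 : ∏ m : J, (if m = j then ms μ (fib σ j) else 1) = ms μ (fib σ j) := by
    rw [prod_ite_eq' univ j]
    simp
  rw [← h1, ← h2, ← prod_mul_distrib, ← prod_mul_distrib]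
  refine prod_congr rfl fun m _ => ?_
  by_cases hi : m = i
  · subst hi
    rw [fib_st_i, if_pos rfl, if_neg hij]
    simp [ms]
  · by_cases hj : m = j
    · subst hj
      rw [fib_st_j, if_pos rfl, if_neg hi]
      simp [ms]
    · rw [fib_st i j m hi hj, if_neg hi, if_neg hj]
      simp

theorem lt_st (l : S → ℝ) (i j : J) (hij : i ≠ j) (σ : S → Option J) :
    lt l σ = lt l (st i j σ) + (lz l (fib σ i) + lz l (fib σ j)) := by
  rw [lt_eq, lt_eq]
  have h1 : ∑ m : J, (if m = i then lz l (fib σ i) else 0) = lz l (fib σ i) := by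
    rw [sum_ite_eq' univ i]
    simp
  have h2 : ∑ m : J, (if m = j then lz l (fib σ j) else 0) = lz l (fib σ j) := by
    rw [sum_ite_eq' univ j]
    simp
  rw [← h1, ← h2, ← sum_add_distrib, ← sum_add_distrib]
  refine sum_congr rfl fun m _ => ?_
  by_cases hi : m = i
  · subst hi
    rw [fib_st_i, if_pos rfl, if_neg hij]
    simp [lz]
  · by_cases hj : m = j
    · subst hj
      rw [fib_st_j, if_pos rfl, if_neg hi]
      simp [lz]
    · rw [fib_st i j m hi hj, if_neg hi, if_neg hj]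
      simp

theorem mij_nonneg (μ : S → ℝ) (hμ : ∀ t, 0 ≤ μ t) (i j : J) (σ : S → Option J) :
    0 ≤ mij μ i j σ :=
  mul_nonneg (ms_nonneg μ hμ _) (ms_nonneg μ hμ _)

theorem YY_bd (μ l : S → ℝ) (hμ : ∀ t, 0 ≤ μ t) (i j : J) (u : ℝ) (y : (S → Option J) → ℝ)
    (hy0 : ∀ σ, 0 ≤ y σ) (hy : ∀ σ, y σ ≤ gi l u (fib σ i) * gi l u (fib σ j))
    (s : S → Option J) : 0 ≤ YY μ i j y s ∧ YY μ i j y s ≤ DD μ l i j u s :=
  ⟨sum_nonneg fun σ _ => mul_nonneg (mij_nonneg μ hμ i j σ) (hy0 σ),
    sum_le_sum fun σ _ => mul_le_mul_of_nonneg_left (hy σ) (mij_nonneg μ hμ i j σ)⟩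

theorem y2_bd (μ l : S → ℝ) (hμ : ∀ t, 0 ≤ μ t) (i j : J) (u : ℝ) (y : (S → Option J) → ℝ)
    (hy0 : ∀ σ, 0 ≤ y σ) (hy : ∀ σ, y σ ≤ gi l u (fib σ i) * gi l u (fib σ j))
    (σ : S → Option J) : 0 ≤ y2 μ l i j u y σ ∧ y2 μ l i j u y σ ≤ 1 := by
  obtain ⟨h1, h2⟩ := YY_bd μ l hμ i j u y hy0 hy (st i j σ)
  have h3 := gi_bd l u (fib σ i)
  have h4 := gi_bd l u (fib σ j)
  have h5 : 0 ≤ YY μ i j y (st i j σ) / DD μ l i j u (st i j σ) := div_nonneg h1 (h1.trans h2)
  have h6 : YY μ i j y (st i j σ) / DD μ l i j u (st i j σ) ≤ 1 :=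
    div_le_one_of_le₀ h2 (h1.trans h2)
  unfold y2
  constructor
  · exact mul_nonneg (mul_nonneg h3.1 h4.1) h5
  · calc gi l u (fib σ i) * gi l u (fib σ j) * (YY μ i j y (st i j σ) / DD μ l i j u (st i j σ)) ≤
        1 * 1 * 1 := by
          apply mul_le_mul _ h6 h5 (by norm_num)
          exact mul_le_mul h3.2 h4.2 h4.1 (by norm_num)
      _ = 1 := by norm_num

theorem lt_nonneg (l : S → ℝ) (hl : ∀ t, 0 ≤ l t) (σ : S → Option J) : 0 ≤ lt l σ := by
  unfold lt
  apply sum_nonneg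
  intro t _
  split_ifs
  · exact le_rfl
  · exact hl t

theorem lz_nonneg (l : S → ℝ) (hl : ∀ t, 0 ≤ l t) (a : Finset S) : 0 ≤ lz l a :=
  sum_nonneg fun t _ => hl t

theorem YY_supp (μ l : S → ℝ) (hl : ∀ t, 0 ≤ l t) (i j : J) (hij : i ≠ j) (R : ℝ)
    (y : (S → Option J) → ℝ) (hys : ∀ σ, y σ ≠ 0 → lt l σ ≤ R) (s : S → Option J)
    (h : YY μ i j y s ≠ 0) : lt l s ≤ R ∧ ∀ t, s t ≠ some i ∧ s t ≠ some j := by
  obtain ⟨σ, hσ, hne⟩ := exists_ne_zero_of_sum_ne_zero h
  rw [mem_filter] at hσ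
  have h1 : y σ ≠ 0 := fun h0 => hne (by rw [h0, mul_zero])
  have h2 := hys σ h1
  rw [lt_st l i j hij σ, hσ.2] at h2
  refine ⟨by linarith [lz_nonneg l hl (fib σ i), lz_nonneg l hl (fib σ j)], fun t => ?_⟩
  rw [← hσ.2]
  exact st_ne i j σ t

theorem y2_supp (μ l : S → ℝ) (hl : ∀ t, 0 ≤ l t) (i j : J) (hij : i ≠ j) (R u : ℝ)
    (y : (S → Option J) → ℝ) (hys : ∀ σ, y σ ≠ 0 → lt l σ ≤ R) (σ : S → Option J)
    (h : y2 μ l i j u y σ ≠ 0) : lt l σ ≤ R + 2 * u := by
  unfold y2 at h
  have h1 : gi l u (fib σ i) ≠ 0 := fun h0 => h (by rw [h0]; ring)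
  have h2 : gi l u (fib σ j) ≠ 0 := fun h0 => h (by rw [h0]; ring)
  have h3 : YY μ i j y (st i j σ) ≠ 0 := fun h0 => h (by rw [h0]; ring)
  have h4 : lz l (fib σ i) < u := by
    unfold gi at h1
    by_contra h5
    exact h1 (if_neg h5)
  have h5 : lz l (fib σ j) < u := by
    unfold gi at h2
    by_contra h5
    exact h2 (if_neg h5)
  have h6 := (YY_supp μ l hl i j hij R y hys _ h3).1
  rw [lt_st l i j hij σ]
  linarith

/-- the local factors of the other colours -/
def Wx (q μ : S → ℝ) (x s : S → Option J) : ℝ :=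
  ∏ t, (cf (μ t) (s t) * hv none (q t) (s t) (x t))

theorem Lam_YY (q μ l : S → ℝ) (hl : ∀ t, 0 ≤ l t) (i j : J) (hij : i ≠ j) (R : ℝ)
    (y : (S → Option J) → ℝ) (hys : ∀ σ, y σ ≠ 0 → lt l σ ≤ R) (x : S → Option J)
    (hx : ∀ t, l t ≤ R → x t ≠ some i ∧ x t ≠ some j) :
    Lam none q μ y x = ∑ s, Wx q μ x s * YY μ i j y s := by
  have h1 : ∀ σ : S → Option J, cw μ y σ * ∏ t, hv none (q t) (σ t) (x t) =
      Wx q μ x (st i j σ) * (mij μ i j σ * y σ) := by
    intro σ
    by_cases h : y σ = 0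
    · unfold cw
      rw [h]
      ring
    have hlt := hys σ h
    have hm : mij μ i j σ = ∏ t, (if σ t = some i ∨ σ t = some j then μ t else 1) := by
      unfold mij ms
      have e1 : ∀ m : J, ∏ t ∈ fib σ m, μ t = ∏ t, (if σ t = some m then μ t else 1) := by
        intro m
        rw [fib, Finset.prod_filter]
      rw [e1, e1, ← prod_mul_distrib]
      refine prod_congr rfl fun t _ => ?_
      by_cases hi : σ t = some i
      · have hj : ¬ σ t = some j := by
          rw [hi]
          intro h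
          exact hij (Option.some.inj h)
        simp [hi, hij]
      · by_cases hj : σ t = some j
        · simp [hj, hij, Ne.symm hij]
        · simp [hi, hj]
    rw [hm]
    unfold cw Wx
    have e2 : (∏ t, cf (μ t) (σ t)) * ∏ t, hv none (q t) (σ t) (x t) =
        (∏ t, (cf (μ t) (st i j σ t) * hv none (q t) (st i j σ t) (x t))) *
          ∏ t, (if σ t = some i ∨ σ t = some j then μ t else 1) := by
      rw [← prod_mul_distrib, ← prod_mul_distrib]
      refine prod_congr rfl fun t _ => ?_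
      by_cases ht : σ t = some i ∨ σ t = some j
      · have hlt2 : l t ≤ R := by
          have h2 : l t ≤ lt l σ := by
            unfold lt
            have h3 := single_le_sum (f := fun t => if σ t = none then 0 else l t) (fun t _ => by
              show 0 ≤ (if σ t = none then 0 else l t)
              split_ifs
              · exact le_rfl
              · exact hl t) (mem_univ t)
            have h4 : σ t ≠ none := by
              rcases ht with h | h <;> rw [h] <;> simp
            simpa [h4] using h3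
          linarith
        obtain ⟨hx1, hx2⟩ := hx t hlt2
        have e3 : st i j σ t = none := by
          unfold st
          rw [if_pos ht]
        rw [e3, if_pos ht]
        rcases ht with ht | ht
        · rw [ht]
          simp [cf, hv, hx1]
        · rw [ht]
          simp [cf, hv, hx2]
      · have e3 : st i j σ t = σ t := by
          unfold st
          rw [if_neg ht]
        rw [e3, if_neg ht, mul_one]
    calc (∏ t, cf (μ t) (σ t)) * y σ * ∏ t, hv none (q t) (σ t) (x t) =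
        ((∏ t, cf (μ t) (σ t)) * ∏ t, hv none (q t) (σ t) (x t)) * y σ := by ring
      _ = _ := by rw [e2]; ring
  unfold Lam
  rw [sum_congr rfl (fun σ _ => h1 σ)]
  rw [← Finset.sum_fiberwise univ (st i j)]
  refine sum_congr rfl fun s _ => ?_
  unfold YY
  rw [mul_sum]
  refine sum_congr rfl fun σ hσ => ?_
  rw [mem_filter] at hσ
  rw [hσ.2]

theorem YY_y2 (μ l : S → ℝ) (hμ : ∀ t, 0 ≤ μ t) (i j : J) (u : ℝ) (y : (S → Option J) → ℝ)
    (hy0 : ∀ σ, 0 ≤ y σ) (hy : ∀ σ, y σ ≤ gi l u (fib σ i) * gi l u (fib σ j))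
    (s : S → Option J) : YY μ i j (y2 μ l i j u y) s = YY μ i j y s := by
  obtain ⟨h1, h2⟩ := YY_bd μ l hμ i j u y hy0 hy s
  have h3 : YY μ i j (y2 μ l i j u y) s = DD μ l i j u s * (YY μ i j y s / DD μ l i j u s) := by
    conv_lhs => unfold YY
    conv_rhs => enter [1]; unfold DD
    rw [sum_mul]
    refine sum_congr rfl fun σ hσ => ?_
    rw [mem_filter] at hσ
    unfold y2
    rw [hσ.2]
    ring
  rw [h3]
  rcases eq_or_ne (DD μ l i j u s) 0 with h4 | h4
  · rw [h4] at h2 ⊢
    rw [zero_mul]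
    linarith
  · field_simp

/-- **the replacement** -/
theorem Lam_y2 (q μ l : S → ℝ) (hμ : ∀ t, 0 ≤ μ t) (hl : ∀ t, 0 ≤ l t) (i j : J) (hij : i ≠ j)
    (R u : ℝ) (hu : 0 ≤ u) (y : (S → Option J) → ℝ) (hys : ∀ σ, y σ ≠ 0 → lt l σ ≤ R)
    (hy0 : ∀ σ, 0 ≤ y σ) (hy : ∀ σ, y σ ≤ gi l u (fib σ i) * gi l u (fib σ j))
    (x : S → Option J) (hx : ∀ t, l t ≤ R + 2 * u → x t ≠ some i ∧ x t ≠ some j) :
    Lam none q μ y x = Lam none q μ (y2 μ l i j u y) x := by
  rw [Lam_YY q μ l hl i j hij R y hys x (fun t ht => hx t (by linarith)),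
    Lam_YY q μ l hl i j hij (R + 2 * u) (y2 μ l i j u y)
      (fun σ hσ => y2_supp μ l hl i j hij R u y hys σ hσ) x hx]
  refine sum_congr rfl fun s _ => ?_
  rw [YY_y2 μ l hμ i j u y hy0 hy s]

theorem sum_y2 (μ l : S → ℝ) (i j : J) (hij : i ≠ j) (u : ℝ)
    (y : (S → Option J) → ℝ) :
    ∑ σ, R498.MT.mt μ σ * y2 μ l i j u y σ ^ 2 =
      ∑ s, R498.MT.mt μ s * (DD μ l i j u s * (YY μ i j y s / DD μ l i j u s) ^ 2) := by
  rw [← Finset.sum_fiberwise univ (st i j)]
  refine sum_congr rfl fun s _ => ?_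
  conv_rhs => enter [2, 1]; unfold DD
  rw [sum_mul, mul_sum]
  refine sum_congr rfl fun σ hσ => ?_
  rw [mem_filter] at hσ
  rw [mt_st μ i j hij σ]
  unfold y2
  rw [hσ.2]
  have h1 := gi_sq l u (fib σ i)
  have h2 := gi_sq l u (fib σ j)
  calc R498.MT.mt μ s * mij μ i j σ * (gi l u (fib σ i) * gi l u (fib σ j) *
        (YY μ i j y s / DD μ l i j u s)) ^ 2 =
      R498.MT.mt μ s * mij μ i j σ * ((gi l u (fib σ i) * gi l u (fib σ i)) *
        (gi l u (fib σ j) * gi l u (fib σ j))) * (YY μ i j y s / DD μ l i j u s) ^ 2 := by ring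
    _ = _ := by rw [h1, h2]; ring

/-- the product of the weights of the other colours -/
def Go (G : J → Finset S → ℝ) (i j : J) (s : S → Option J) : ℝ :=
  ∏ m, (if m = i ∨ m = j then 1 else G m (fib s m))

theorem prod_G (G : J → Finset S → ℝ) (i j : J) (hij : i ≠ j) (σ : S → Option J) :
    ∏ m, G m (fib σ m) = G i (fib σ i) * G j (fib σ j) * Go G i j (st i j σ) := by
  have h1 : ∏ m : J, (if m = i then G i (fib σ i) else 1) = G i (fib σ i) := by
    rw [prod_ite_eq' univ i]
    simp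
  have h2 : ∏ m : J, (if m = j then G j (fib σ j) else 1) = G j (fib σ j) := by
    rw [prod_ite_eq' univ j]
    simp
  unfold Go
  rw [← h1, ← h2, ← prod_mul_distrib, ← prod_mul_distrib]
  refine prod_congr rfl fun m _ => ?_
  by_cases hi : m = i
  · subst hi
    simp [hij]
  · by_cases hj : m = j
    · subst hj
      simp [hi]
    · rw [fib_st i j m hi hj]
      simp [hi, hj]

theorem fib_inj2 (i j : J) (σ τ : S → Option J) (h : st i j σ = st i j τ)
    (hi : fib σ i = fib τ i) (hj : fib σ j = fib τ j) : σ = τ := by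
  funext t
  have h1 := congrFun h t
  have h2 : σ t = some i ↔ τ t = some i := by
    rw [← mem_fib, ← mem_fib, hi]
  have h3 : σ t = some j ↔ τ t = some j := by
    rw [← mem_fib, ← mem_fib, hj]
  unfold st at h1
  by_cases h4 : σ t = some i
  · rw [h4, h2.1 h4]
  · by_cases h5 : σ t = some j
    · rw [h5, h3.1 h5]
    · rw [if_neg (by tauto), if_neg (by tauto)] at h1
      exact h1

theorem YY_le (μ l : S → ℝ) (hμ : ∀ t, 0 ≤ μ t) (i j : J) (hij : i ≠ j) (R : ℝ)
    (G : J → Finset S → ℝ) (hG0 : ∀ j a, 0 ≤ G j a) (s : S → Option J) :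
    YY μ i j (yG l G R) s ≤ Go G i j s * ((∑ a, ms μ a * G i a) * ∑ a, ms μ a * G j a) := by
  have hms := ms_nonneg μ hμ
  have hGo : 0 ≤ Go G i j s := prod_nonneg fun m _ => by
    split_ifs
    · norm_num
    · exact hG0 _ _
  have h1 : YY μ i j (yG l G R) s ≤ Go G i j s *
      ∑ σ ∈ univ.filter (fun σ => st i j σ = s),
        (ms μ (fib σ i) * G i (fib σ i)) * (ms μ (fib σ j) * G j (fib σ j)) := by
    unfold YY
    rw [mul_sum]
    apply sum_le_sum
    intro σ hσ
    rw [mem_filter] at hσ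
    have h2 := yG_le l G hG0 R σ
    rw [prod_G G i j hij σ, hσ.2] at h2
    refine (mul_le_mul_of_nonneg_left h2 (mij_nonneg μ hμ i j σ)).trans (le_of_eq ?_)
    unfold mij
    ring
  refine h1.trans (mul_le_mul_of_nonneg_left ?_ hGo)
  rw [sum_mul_sum, ← sum_product']
  rw [← sum_image (s := univ.filter (fun σ => st i j σ = s))
    (g := fun σ : S → Option J => (fib σ i, fib σ j))
    (f := fun p : Finset S × Finset S => (ms μ p.1 * G i p.1) * (ms μ p.2 * G j p.2))]
  · apply sum_le_sum_of_subset_of_nonneg (subset_univ _)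
    intro p _ _
    exact mul_nonneg (mul_nonneg (hms _) (hG0 _ _)) (mul_nonneg (hms _) (hG0 _ _))
  · intro σ hσ τ hτ h
    rw [mem_coe, mem_filter] at hσ hτ
    simp only [Prod.mk.injEq] at h
    exact fib_inj2 i j σ τ (hσ.2.trans hτ.2.symm) h.1 h.2

/-- the sets which avoid a small set -/
theorem avoidQ (μ : S → ℝ) (hμ : ∀ t, 0 ≤ μ t) (F : Finset S → ℝ) (hF0 : ∀ a, 0 ≤ F a)
    (hF : ∀ a b, a ⊆ b → F b ≤ F a) (Z : Finset S) (ω : ℝ)
    (hω : ∑ t ∈ univ.filter (fun t => t ∉ Z), μ t ≤ ω) :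
    (1 - ω) * ∑ a, ms μ a * F a ≤ ∑ a ∈ Z.powerset, ms μ a * F a := by
  classical
  have hms := ms_nonneg μ hμ
  have hS0 : 0 ≤ ∑ a, ms μ a * F a := sum_nonneg fun a _ => mul_nonneg (hms a) (hF0 a)
  have c1 : ∑ a, ms μ a * F a ≤ ∑ a ∈ Z.powerset, ms μ a * F a +
      ∑ t ∈ univ.filter (fun t => t ∉ Z), ∑ a ∈ univ.filter (fun a : Finset S => t ∈ a), ms μ a * F a := by
    have c2 : ∀ a : Finset S, ms μ a * F a ≤
        (if a ∈ Z.powerset then ms μ a * F a else 0) +
        ∑ t ∈ univ.filter (fun t => t ∉ Z), (if t ∈ a then ms μ a * F a else 0) := by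
      intro a
      have h0 : 0 ≤ ms μ a * F a := mul_nonneg (hms a) (hF0 a)
      have hs0 : ∀ t ∈ univ.filter (fun t => t ∉ Z), 0 ≤ (if t ∈ a then ms μ a * F a else 0) := by
        intro t _
        split_ifs
        · exact h0
        · exact le_rfl
      by_cases h : a ∈ Z.powerset
      · rw [if_pos h]
        have := sum_nonneg hs0
        linarith
      · rw [if_neg h, zero_add]
        rw [mem_powerset, not_subset] at h
        obtain ⟨t, ht, ht'⟩ := h
        have h6 := single_le_sum hs0 (mem_filter.2 ⟨mem_univ t, ht'⟩)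
        rw [if_pos ht] at h6
        exact h6
    calc ∑ a, ms μ a * F a ≤ ∑ a, ((if a ∈ Z.powerset then ms μ a * F a else 0) +
          ∑ t ∈ univ.filter (fun t => t ∉ Z), (if t ∈ a then ms μ a * F a else 0)) :=
          sum_le_sum fun a _ => c2 a
      _ = _ := by
          rw [sum_add_distrib, sum_comm]
          congr 1
          · rw [sum_ite_mem]
            simp
          · refine sum_congr rfl fun t _ => ?_
            rw [sum_filter]
  have c3 : ∑ t ∈ univ.filter (fun t => t ∉ Z), ∑ a ∈ univ.filter (fun a : Finset S => t ∈ a),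
      ms μ a * F a ≤ ω * ∑ a, ms μ a * F a := by
    refine (sum_le_sum fun t _ => sum_mem_le μ hμ F hF0 hF t).trans ?_
    rw [← sum_mul]
    exact mul_le_mul_of_nonneg_right hω hS0
  linarith

theorem gi_anti (l : S → ℝ) (hl : ∀ t, 0 ≤ l t) (u : ℝ) (a b : Finset S) (h : a ⊆ b) :
    gi l u b ≤ gi l u a := by
  have h1 : lz l a ≤ lz l b := sum_le_sum_of_subset_of_nonneg h fun t _ _ => hl t
  unfold gi
  split_ifs
  · exact le_rfl
  · linarith
  · norm_num
  · exact le_rfl

theorem ms_gi (μ l : S → ℝ) (u : ℝ) : ∑ a, ms μ a * gi l u a = mass l μ u := by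
  unfold mass gi
  rw [sum_filter]
  refine sum_congr rfl fun a _ => ?_
  split_ifs <;> simp

theorem supp_bd (μ l : S → ℝ) (ω : ℝ) (hsm : ∀ a : Finset S, lz l a ≤ 1 → ∑ t ∈ a, μ t ≤ ω)
    (s : S → Option J) (hs : lt l s ≤ 1) :
    ∑ t ∈ univ.filter (fun t => t ∉ univ.filter (fun t => s t = none)), μ t ≤ ω := by
  apply hsm
  refine le_trans (le_of_eq ?_) hs
  unfold lz lt
  rw [sum_filter]
  refine sum_congr rfl fun t _ => ?_
  by_cases h : s t = none <;> simp [h]

theorem DD_ge (μ l : S → ℝ) (hμ : ∀ t, 0 ≤ μ t) (hl : ∀ t, 0 ≤ l t) (i j : J) (hij : i ≠ j)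
    (R u ω : ℝ) (hRu : R + u ≤ 1) (hu : 0 ≤ u) (hω0 : 0 ≤ ω) (hω : ω ≤ 1 / 20)
    (hsm : ∀ a : Finset S, lz l a ≤ 1 → ∑ t ∈ a, μ t ≤ ω)
    (s : S → Option J) (hs : lt l s ≤ R) (hsi : ∀ t, s t ≠ some i ∧ s t ≠ some j) :
    mass l μ u ^ 2 / 2 ≤ DD μ l i j u s := by
  classical
  have hms := ms_nonneg μ hμ
  set Z : Finset S := univ.filter (fun t => s t = none) with hZ
  set Za : Finset S → Finset S := fun a => univ.filter (fun t => ext s i a t = none) with hZa
  have hext : ∀ a, ∀ t, ext s i a t ≠ some j := by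
    intro a t
    unfold R498.MT.ext
    split_ifs
    · exact (hsi t).2
    · intro h
      exact hij (Option.some.inj h)
    · simp
  have hlt : ∀ a ∈ Z.powerset, lt l (ext s i a) = lt l s + lz l a := by
    intro a ha
    rw [mem_powerset] at ha
    rw [lt_eq, lt_eq]
    have e4 : ∀ m, lz l (fib (ext s i a) m) = (if m = i then lz l a else 0) +
        lz l (fib s m) := by
      intro m
      rw [fib_ext s i (fun t => (hsi t).1) a ha m]
      by_cases h : m = i
      · subst h
        have h1 : fib s m = ∅ := by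
          ext t
          rw [mem_fib]
          simp only [notMem_empty, iff_false]
          exact (hsi t).1
        simp [h1, lz]
      · simp [h]
    rw [sum_congr rfl (fun m _ => e4 m), sum_add_distrib, sum_ite_eq' univ i]
    simp only [mem_univ, if_true]
    ring
  -- the double sum
  have h1 : ∑ a ∈ Z.powerset, ∑ b ∈ (Za a).powerset,
      (ms μ a * gi l u a) * (ms μ b * gi l u b) ≤ DD μ l i j u s := by
    rw [sum_sigma']
    have e5 : ∀ p ∈ Z.powerset.sigma (fun a => (Za a).powerset),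
        fib (ext (ext s i p.1) j p.2) i = p.1 ∧ fib (ext (ext s i p.1) j p.2) j = p.2 ∧
        st i j (ext (ext s i p.1) j p.2) = s := by
      rintro ⟨a, b⟩ hp
      rw [mem_sigma] at hp
      obtain ⟨ha, hb⟩ := hp
      simp only at ha hb ⊢
      rw [mem_powerset] at ha hb
      refine ⟨?_, ?_, ?_⟩
      · rw [fib_ext (ext s i a) j (hext a) b hb i, if_neg hij,
          fib_ext s i (fun t => (hsi t).1) a ha i, if_pos rfl]
      · rw [fib_ext (ext s i a) j (hext a) b hb j, if_pos rfl]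
      · funext t
        unfold st R498.MT.ext
        by_cases h0 : s t = none
        · by_cases h1 : t ∈ a
          · simp [h0, h1]
          · by_cases h2 : t ∈ b
            · simp [h0, h1, h2]
            · simp [h0, h1, h2]
        · simp only [ne_eq, h0, not_false_eq_true, if_true]
          rw [if_neg]
          push Not
          exact hsi t
    have e6 : ∑ p ∈ Z.powerset.sigma (fun a => (Za a).powerset),
        (ms μ p.1 * gi l u p.1) * (ms μ p.2 * gi l u p.2) =
        ∑ σ ∈ (Z.powerset.sigma (fun a => (Za a).powerset)).image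
          (fun p => ext (ext s i p.1) j p.2),
          mij μ i j σ * (gi l u (fib σ i) * gi l u (fib σ j)) := by
      rw [sum_image]
      · refine sum_congr rfl fun p hp => ?_
        obtain ⟨g1, g2, -⟩ := e5 p hp
        unfold mij
        rw [g1, g2]
        ring
      · intro p hp p' hp' h
        obtain ⟨g1, g2, -⟩ := e5 p hp
        obtain ⟨g1', g2', -⟩ := e5 p' hp'
        simp only at h
        rw [h] at g1 g2
        have e7 : p.1 = p'.1 := g1.symm.trans g1'
        have e8 : p.2 = p'.2 := g2.symm.trans g2'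
        cases p
        cases p'
        simp only at e7 e8
        subst e7
        subst e8
        rfl
    rw [e6]
    unfold DD
    apply sum_le_sum_of_subset_of_nonneg
    · intro σ hσ
      rw [mem_image] at hσ
      obtain ⟨p, hp, rfl⟩ := hσ
      rw [mem_filter]
      exact ⟨mem_univ _, (e5 p hp).2.2⟩
    · intro σ _ _
      exact mul_nonneg (mij_nonneg μ hμ i j σ) (mul_nonneg (gi_bd _ _ _).1 (gi_bd _ _ _).1)
  refine le_trans ?_ h1
  have hm0 : 0 ≤ mass l μ u := mass_nonneg l μ hμ u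
  have h2 : ∀ a ∈ Z.powerset, (ms μ a * gi l u a) * ((1 - ω) * mass l μ u) ≤
      ∑ b ∈ (Za a).powerset, (ms μ a * gi l u a) * (ms μ b * gi l u b) := by
    intro a ha
    rw [← mul_sum]
    by_cases hg : lz l a < u
    · apply mul_le_mul_of_nonneg_left _ (mul_nonneg (hms a) (gi_bd _ _ _).1)
      rw [← ms_gi]
      apply avoidQ μ hμ (gi l u) (fun a => (gi_bd l u a).1) (gi_anti l hl u) (Za a) ω
      apply supp_bd μ l ω hsm
      rw [hlt a ha]
      linarith
    · have : gi l u a = 0 := by unfold gi; rw [if_neg hg]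
      rw [this]
      simp
  have h3 : (1 - ω) * mass l μ u ≤ ∑ a ∈ Z.powerset, ms μ a * gi l u a := by
    rw [← ms_gi]
    apply avoidQ μ hμ (gi l u) (fun a => (gi_bd l u a).1) (gi_anti l hl u) Z ω
    apply supp_bd μ l ω hsm
    linarith
  refine le_trans ?_ (sum_le_sum h2)
  rw [← sum_mul]
  have h4 : 0 ≤ (1 - ω) * mass l μ u := mul_nonneg (by linarith) hm0
  refine le_trans ?_ (mul_le_mul_of_nonneg_right h3 h4)
  have h5 : (1 : ℝ) / 2 ≤ (1 - ω) * (1 - ω) := by nlinarith
  calc mass l μ u ^ 2 / 2 = 1 / 2 * mass l μ u ^ 2 := by ring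
    _ ≤ ((1 - ω) * (1 - ω)) * mass l μ u ^ 2 := mul_le_mul_of_nonneg_right h5 (sq_nonneg _)
    _ = _ := by ring

/-- **the main term for two slots** -/
theorem pair_main (μ l : S → ℝ) (hμ : ∀ t, 0 ≤ μ t) (hl : ∀ t, 0 ≤ l t) (i j : J) (hij : i ≠ j)
    (R u ω : ℝ) (hRu : R + u ≤ 1) (hu : 0 ≤ u) (hω0 : 0 ≤ ω) (hω : ω ≤ 1 / 20)
    (hsm : ∀ a : Finset S, lz l a ≤ 1 → ∑ t ∈ a, μ t ≤ ω)
    (hm : 0 < mass l μ u)
    (G : J → Finset S → ℝ) (hG0 : ∀ j a, 0 ≤ G j a) (hG1 : ∀ j, G j ∅ = 1) :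
    ∑ σ, R498.MT.mt μ σ * y2 μ l i j u (yG l G R) σ ^ 2 ≤
      2 / mass l μ u ^ 2 * ((∑ a, ms μ a * G i a) ^ 2 / ∑ a, ms μ a * G i a ^ 2) *
      ((∑ a, ms μ a * G j a) ^ 2 / ∑ a, ms μ a * G j a ^ 2) * ∏ m, ∑ a, ms μ a * G m a ^ 2 := by
  have hms := ms_nonneg μ hμ
  set Hi : ℝ := ∑ a, ms μ a * G i a with hHi
  set Hj : ℝ := ∑ a, ms μ a * G j a with hHj
  set I2 : J → ℝ := fun j => ∑ a, ms μ a * G j a ^ 2 with hI2
  have hI21 : ∀ j, 1 ≤ I2 j := by
    intro j
    have h1 : ms μ ∅ * G j ∅ ^ 2 = 1 := by rw [hG1]; simp [ms]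
    rw [← h1]
    exact single_le_sum (f := fun a => ms μ a * G j a ^ 2)
      (fun a _ => mul_nonneg (hms a) (sq_nonneg _)) (mem_univ ∅)
  have hI20 : ∀ j, 0 < I2 j := fun j => by linarith [hI21 j]
  have hHi0 : 0 ≤ Hi := sum_nonneg fun a _ => mul_nonneg (hms a) (hG0 _ _)
  have hHj0 : 0 ≤ Hj := sum_nonneg fun a _ => mul_nonneg (hms a) (hG0 _ _)
  rw [sum_y2 μ l i j hij u]
  set F : J → Finset S → ℝ := fun m a => if m = i ∨ m = j then (if a = ∅ then 1 else 0) else
    ms μ a * G m a ^ 2 with hF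
  have hF0 : ∀ m a, 0 ≤ F m a := by
    intro m a
    simp only [hF]
    split_ifs
    · norm_num
    · norm_num
    · exact mul_nonneg (hms a) (sq_nonneg _)
  have key : ∀ s : S → Option J, R498.MT.mt μ s * (DD μ l i j u s * (YY μ i j (yG l G R) s /
      DD μ l i j u s) ^ 2) ≤ 2 / mass l μ u ^ 2 * Hi ^ 2 * Hj ^ 2 * ∏ m, F m (fib s m) := by
    intro s
    have hFp : 0 ≤ ∏ m, F m (fib s m) := prod_nonneg fun m _ => hF0 _ _
    by_cases hY : YY μ i j (yG l G R) s = 0
    · rw [hY]
      have : (0 : ℝ) ≤ 2 / mass l μ u ^ 2 * Hi ^ 2 * Hj ^ 2 := by positivity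
      simp only [zero_div]
      have := mul_nonneg this hFp
      simpa using this
    obtain ⟨h1, h2⟩ := YY_supp μ l hl i j hij R (yG l G R) (fun σ hσ => by
      unfold yG at hσ
      by_contra h
      exact hσ (if_neg h)) s hY
    have hD := DD_ge μ l hμ hl i j hij R u ω hRu hu hω0 hω hsm s h1 h2
    have hD0 : 0 < DD μ l i j u s := lt_of_lt_of_le (by positivity) hD
    have hYle := YY_le μ l hμ i j hij R G hG0 s
    have hY0 : 0 ≤ YY μ i j (yG l G R) s := sum_nonneg fun σ _ =>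
      mul_nonneg (mij_nonneg μ hμ i j σ) (yG_nonneg l G hG0 R σ)
    have e1 : DD μ l i j u s * (YY μ i j (yG l G R) s / DD μ l i j u s) ^ 2 =
        YY μ i j (yG l G R) s ^ 2 / DD μ l i j u s := by
      field_simp
    have e2 : YY μ i j (yG l G R) s ^ 2 / DD μ l i j u s ≤
        (Go G i j s * (Hi * Hj)) ^ 2 / (mass l μ u ^ 2 / 2) := by
      apply div_le_div₀ (sq_nonneg _) _ (by positivity) hD
      exact pow_le_pow_left₀ hY0 hYle 2
    have e3 : R498.MT.mt μ s * Go G i j s ^ 2 = ∏ m, F m (fib s m) := by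
      rw [mt_eq]
      unfold Go
      rw [← prod_pow, ← prod_mul_distrib]
      refine prod_congr rfl fun m _ => ?_
      by_cases h : m = i ∨ m = j
      · have h3 : fib s m = ∅ := by
          ext t
          rw [mem_fib]
          simp only [notMem_empty, iff_false]
          rcases h with h | h
          · rw [h]; exact (h2 t).1
          · rw [h]; exact (h2 t).2
        simp [hF, h, h3, ms]
      · simp only [hF, if_neg h]
    rw [e1]
    refine (mul_le_mul_of_nonneg_left e2 (mt_nonneg μ hμ s)).trans (le_of_eq ?_)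
    rw [← e3]
    field_simp
  refine (sum_le_sum fun s _ => key s).trans ?_
  rw [← mul_sum]
  have h5 := sum_tuple_le F hF0
  have h6 : ∀ m, ∑ a, F m a = if m = i ∨ m = j then 1 else I2 m := by
    intro m
    by_cases h : m = i ∨ m = j
    · simp [hF, h]
    · simp only [hF, if_neg h, hI2]
  rw [prod_congr rfl (fun m _ => h6 m)] at h5
  have h7 : (∏ m : J, if m = i ∨ m = j then 1 else I2 m) * (I2 i * I2 j) = ∏ m, I2 m := by
    have a1 : ∏ m : J, (if m = i then I2 i else 1) = I2 i := by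
      rw [prod_ite_eq' univ i]
      simp
    have a2 : ∏ m : J, (if m = j then I2 j else 1) = I2 j := by
      rw [prod_ite_eq' univ j]
      simp
    conv_lhs => rw [← a1, ← a2]
    rw [← prod_mul_distrib, ← prod_mul_distrib]
    refine prod_congr rfl fun m _ => ?_
    by_cases hi : m = i
    · subst hi
      simp [hij]
    · by_cases hj : m = j
      · subst hj
        simp [hi]
      · simp [hi, hj]
  have h8 : 0 ≤ 2 / mass l μ u ^ 2 * Hi ^ 2 * Hj ^ 2 := by positivity
  refine (mul_le_mul_of_nonneg_left h5 h8).trans (le_of_eq ?_)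
  have e1 : ∑ a, ms μ a * G i a ^ 2 = I2 i := rfl
  have e2 : ∑ a, ms μ a * G j a ^ 2 = I2 j := rfl
  have e3 : ∏ m, ∑ a, ms μ a * G m a ^ 2 = ∏ m, I2 m := rfl
  have e4 := (hI20 i).ne'
  have e5 := (hI20 j).ne'
  rw [e1, e2, e3, ← h7]
  clear_value I2
  field_simp

end pair

end Pool.Agent.J6H17.QP
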