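import Pool.Agent.J6H17.QP.Pair
import Pool.Agent.R498.MT.Param2
import Pool.Agent.R498.MT.Slot

set_option autoImplicit false
set_option linter.unusedSectionVars false

/-! The estimates with weights which depend on the slot. -/

namespace Pool.Agent.J6H17.QP

open Finset
open Pool.Agent.R498.MT
open Pool.Agent.H410R2 (fib mem_fib sum_tuple_le sum_tuple_ge)

section par
variable {S J : Type} [Fintype S] [DecidableEq S] [Fintype J] [DecidableEq J]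

/-- the parameters of the slots -/
structure SP (k : J → ℕ) (u : J → ℝ) (ε₁ R : ℝ) : Prop where
  u4 : ∀ j, 4 * ε₁ ≤ u j
  us : ∀ j, 2 ^ k j * u j ≤ R / 2
  ss : ∑ j, 12 * ((k j : ℝ) + 1) * u j ≤ R / 8

/-- the weight function of one slot -/
noncomputable def Gk (l : S → ℝ) (k : J → ℕ) (u : J → ℝ) (j : J) (a : Finset S) : ℝ :=
  gp (k j) (u j) (lz l a)

/-- the weights -/
noncomputable def yk (l : S → ℝ) (k : J → ℕ) (u : J → ℝ) (R : ℝ) : (S → Option J) → ℝ :=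
  yG l (Gk l k u) R

noncomputable def Hk (μ l : S → ℝ) (k : J → ℕ) (u : J → ℝ) (j : J) : ℝ := ∑ a, ms μ a * Gk l k u j a

noncomputable def I2k (μ l : S → ℝ) (k : J → ℕ) (u : J → ℝ) (j : J) : ℝ :=
  ∑ a, ms μ a * Gk l k u j a ^ 2

/-- the norm -/
noncomputable def Ik (μ l : S → ℝ) (k : J → ℕ) (u : J → ℝ) : ℝ := ∏ j, I2k μ l k u j

/-- the bound of the masses -/
noncomputable def AK (K : ℕ) (ε₁ : ℝ) : ℝ := Real.exp (8 * (K : ℝ) ^ 2) * (1 / ε₁) ^ (8 * K ^ 2)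

/-- the tolerances -/
structure Tol (K : ℕ) (C₁ ε₁ ω E η : ℝ) : Prop where
  o0 : 0 < ω
  o1 : ω ≤ 1 / 20
  o2 : (K : ℝ) ^ 2 * ω ≤ 1 / 96
  o3 : ω * AK K ε₁ ≤ 1 / 2
  o4 : (1 + C₁) * AK K ε₁ ^ 2 * (E + (Real.exp (6 * (K : ℝ) ^ 2 * ω) - 1)) ≤ η
  e0 : 0 ≤ E
  c0 : 0 ≤ C₁
  h1 : η ≤ 1

theorem AK_one (K : ℕ) (ε₁ : ℝ) (h : 0 < ε₁) (h1 : ε₁ ≤ 1) : 1 ≤ AK K ε₁ := by
  unfold AK
  have h2 : (1 : ℝ) ≤ Real.exp (8 * (K : ℝ) ^ 2) := Real.one_le_exp (by positivity)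
  have h3 : (1 : ℝ) ≤ (1 / ε₁) ^ (8 * K ^ 2) := by
    apply one_le_pow₀
    rw [le_div_iff₀ h]
    linarith
  nlinarith

theorem Gk_facts (l : S → ℝ) (hl : ∀ t, 0 ≤ l t) (k : J → ℕ) (u : J → ℝ) (ε₁ R : ℝ) (hε : 0 < ε₁)
    (hs : SP k u ε₁ R) :
    (∀ j a, 0 ≤ Gk l k u j a) ∧ (∀ j a, Gk l k u j a ≤ 1) ∧
    (∀ j a b, a ⊆ b → Gk l k u j b ≤ Gk l k u j a) ∧
    (∀ j, Gk l k u j ∅ = 1) ∧ (∀ j a, Gk l k u j a ≠ 0 → lz l a < R / 2) := by
  have hu : ∀ j, 0 < u j := fun j => by have := hs.u4 j; linarith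
  refine ⟨fun j a => (gp_bd _ _ _).1, fun j a => (gp_bd _ _ _).2, ?_, ?_, ?_⟩
  · intro j a b hab
    apply gp_anti
    exact sum_le_sum_of_subset_of_nonneg hab fun t _ _ => hl t
  · intro j
    show gp (k j) (u j) (lz l ∅) = 1
    have : lz l ∅ = 0 := by simp [lz]
    rw [this]
    exact gp_zero (k j) _ (hu j)
  · intro j a ha
    exact (gp_supp (k j) _ _ (hu j).le ha).trans_le (hs.us j)

theorem yk_facts (l : S → ℝ) (hl : ∀ t, 0 ≤ l t) (k : J → ℕ) (u : J → ℝ) (ε₁ R : ℝ) (hε : 0 < ε₁)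
    (hs : SP k u ε₁ R) (σ : S → Option J) :
    0 ≤ yk l k u R σ ∧ yk l k u R σ ≤ 1 ∧ (yk l k u R σ ≠ 0 → lt l σ ≤ R) := by
  obtain ⟨h1, h2, -, -, -⟩ := Gk_facts l hl k u ε₁ R hε hs
  refine ⟨yG_nonneg l _ h1 R σ, ?_, ?_⟩
  · refine (yG_le l _ h1 R σ).trans ?_
    exact prod_le_one (fun j _ => h1 _ _) (fun j _ => h2 _ _)
  · intro h
    unfold yk yG at h
    split_ifs at h with h'
    · exact h'
    · exact absurd rfl h

theorem AA_AK {q μ l : S → ℝ} {ε₁ R w ω : ℝ} (hd : Dat q μ l ε₁ R w ω) (hε : 0 < ε₁)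
    (hεw : ε₁ ≤ w) : AA J μ ≤ AK (Fintype.card J) ε₁ :=
  AA_le (Fintype.card J) l μ hd.m0 ε₁ w (1 / 20) hε hεw hd.w1 hd.l1 hd.lw le_rfl hd.mer

theorem prod_mu_le [Nonempty J] {q μ l : S → ℝ} {ε₁ R w ω : ℝ} (hd : Dat q μ l ε₁ R w ω)
    (hε : 0 < ε₁) (hεw : ε₁ ≤ w) : ∏ t, (1 + μ t) ≤ AK (Fintype.card J) ε₁ := by
  refine le_trans ?_ (AA_AK (J := J) hd hε hεw)
  have hK1 : (1 : ℝ) ≤ (Fintype.card J : ℝ) := by exact_mod_cast Fintype.card_pos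
  unfold AA
  apply prod_le_prod
  · intro t _; linarith [hd.m0 t]
  · intro t _
    have h2 := hd.m0 t
    have h3 : (1 : ℝ) ≤ (Fintype.card J : ℝ) ^ 2 := one_le_pow₀ hK1
    nlinarith

theorem eps_w {k : J → ℕ} {u : J → ℝ} {ε₁ R w : ℝ} [Nonempty J] (hs : SP k u ε₁ R) (hε : 0 < ε₁)
    (hR : 0 < R) (hRw : R ≤ w) : ε₁ ≤ w := by
  obtain ⟨j⟩ := (inferInstance : Nonempty J)
  have h1 := hs.u4 j
  have h2 := hs.us j
  have h3 : (1 : ℝ) ≤ 2 ^ k j := one_le_pow₀ (by norm_num)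
  nlinarith

theorem I2k_one {q μ l : S → ℝ} {ε₁ R w ω : ℝ} (hd : Dat q μ l ε₁ R w ω) (hε : 0 < ε₁)
    {k : J → ℕ} {u : J → ℝ} (hs : SP k u ε₁ R) (j : J) : 1 ≤ I2k μ l k u j := by
  obtain ⟨h1, h2, h3, h4, h5⟩ := Gk_facts l (fun t => hε.le.trans (hd.l1 t)) k u ε₁ R hε hs
  have h6 : ms μ ∅ * Gk l k u j ∅ ^ 2 = 1 := by rw [h4]; simp [ms]
  rw [← h6]
  exact single_le_sum (f := fun a => ms μ a * Gk l k u j a ^ 2)
    (fun a _ => mul_nonneg (prod_nonneg fun t _ => hd.m0 t) (sq_nonneg _)) (mem_univ ∅)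

theorem Ik_one {q μ l : S → ℝ} {ε₁ R w ω : ℝ} (hd : Dat q μ l ε₁ R w ω) (hε : 0 < ε₁)
    {k : J → ℕ} {u : J → ℝ} (hs : SP k u ε₁ R) : 1 ≤ Ik μ l k u := by
  unfold Ik
  calc (1 : ℝ) = ∏ _j : J, 1 := by simp
    _ ≤ _ := prod_le_prod (fun _ _ => by norm_num) (fun j _ => I2k_one hd hε hs j)

/-- the errors of arbitrary weights -/
theorem gen_err [Nonempty J] {C₁ ε₁ R w ω E η : ℝ} (hR : 0 < R) (hε : 0 < ε₁) (hεw : ε₁ ≤ w)
    {q μ l : S → ℝ} (hd : Dat q μ l ε₁ R w ω) (hT : Tol (Fintype.card J) C₁ ε₁ ω E η)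
    (y : (S → Option J) → ℝ) (hy : ∀ σ, |y σ| ≤ 1) (R' B : ℝ)
    (hys : ∀ σ, y σ ≠ 0 → lt l σ ≤ R') (hB : 2 * R' ≤ B)
    {N : Finset ℕ} {ν : ℕ → ℝ} {ξ : ℕ → S → Option J} {X : ℝ} (hX : 0 ≤ X)
    (hC1 : Cnt N ν ξ (fun t _ => 1 / q t) X E (fun T => lt l T ≤ B)) :
    ∑ n ∈ N, ν n * Lam none q μ y (ξ n) ^ 2 ≤ X * (∑ s, R498.MT.mt μ s * y s ^ 2) + X * η := by
  have hl0 : ∀ t, 0 ≤ l t := fun t => hε.le.trans (hd.l1 t)
  have hε11 : ε₁ ≤ 1 := hεw.trans hd.w1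
  have hmq : ∀ t, μ t * (q t - 1) ≤ 1 := by
    intro t
    rcases hd.mq t with h | h
    · rw [h]; norm_num
    · exact h.le
  have h1 := one_target (J := J) (N := N) (ν := ν) (ξ := ξ) (X := X) (E := E)
    (Good := fun T => lt l T ≤ B) none q (fun _ => 0) μ hd.q2 (fun _ => le_rfl) hd.m0 hd.m1
    hmq y hy hX hT.e0 ∅ (fun t ht => absurd ht (notMem_empty t))
    (by
      intro T hT
      have := hC1 T hT
      have e : ∀ t, rr (rd none (q t) 0) (T t) = rr (fun _ : J => 1 / q t) (T t) := by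
        intro t
        rcases T t with _ | j <;> simp [rr, rd]
      simp_rw [e]
      exact this)
    (by
      intro σ τ hσ hτ U hU
      have h2 := good_of none q l hl0 ∅ σ τ U hU
      have h3 := hys σ hσ
      have h4 := hys τ hτ
      have h5 : lz l ∅ = 0 := by simp [lz]
      show lt l U ≤ B
      linarith)
  simp only [notMem_empty, false_imp_iff, implies_true, if_true, mul_one, prod_empty, sum_empty,
    mul_zero, add_zero] at h1
  have h2 := S1_gen (J := J) q μ hd.q2 hd.m0 hmq y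
  have hA1 := AK_one (Fintype.card J) ε₁ hε hε11
  have hAA := AA_AK (J := J) hd hε hεw
  have hK0 : (0 : ℝ) ≤ (Fintype.card J : ℝ) ^ 2 := sq_nonneg _
  have herr : AA J μ * (E + (Real.exp ((Fintype.card J : ℝ) ^ 2 * ∑ t, μ t ^ 2) - 1)) ≤ η := by
    have p1 : Real.exp ((Fintype.card J : ℝ) ^ 2 * ∑ t, μ t ^ 2) ≤
        Real.exp (6 * (Fintype.card J : ℝ) ^ 2 * ω) := by
      apply Real.exp_le_exp.2
      have := mul_le_mul_of_nonneg_left hd.sq hK0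
      have := hT.o0
      nlinarith
    have p2 : 0 ≤ Real.exp (6 * (Fintype.card J : ℝ) ^ 2 * ω) - 1 := by
      have := Real.one_le_exp (show 0 ≤ 6 * (Fintype.card J : ℝ) ^ 2 * ω by
        have := hT.o0
        positivity)
      linarith
    have p3 : AK (Fintype.card J) ε₁ ≤ (1 + C₁) * AK (Fintype.card J) ε₁ ^ 2 := by
      have := hT.c0
      nlinarith
    have p4 : (0 : ℝ) ≤ E + (Real.exp (6 * (Fintype.card J : ℝ) ^ 2 * ω) - 1) := by
      have := hT.e0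
      linarith
    have p5 : 0 ≤ E + (Real.exp ((Fintype.card J : ℝ) ^ 2 * ∑ t, μ t ^ 2) - 1) := by
      have h3 := Real.one_le_exp (show 0 ≤ (Fintype.card J : ℝ) ^ 2 * ∑ t, μ t ^ 2 from
              mul_nonneg hK0 (sum_nonneg fun t _ => sq_nonneg _))
      have := hT.e0
      linarith
    calc AA J μ * (E + (Real.exp ((Fintype.card J : ℝ) ^ 2 * ∑ t, μ t ^ 2) - 1)) ≤
        AK (Fintype.card J) ε₁ * (E + (Real.exp (6 * (Fintype.card J : ℝ) ^ 2 * ω) - 1)) :=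
          mul_le_mul hAA (by linarith) p5 (by linarith)
      _ ≤ ((1 + C₁) * AK (Fintype.card J) ε₁ ^ 2) *
          (E + (Real.exp (6 * (Fintype.card J : ℝ) ^ 2 * ω) - 1)) :=
          mul_le_mul_of_nonneg_right p3 p4
      _ ≤ η := hT.o4
  rw [abs_le] at h1
  have h5 := h1.2
  have h6 := mul_le_mul_of_nonneg_left h2 hX
  have h7 := mul_le_mul_of_nonneg_left herr hX
  linarith

/-- **The first sum.** -/
theorem S1k [Nonempty J] {C₁ ε₁ R w ω E η : ℝ} (hR : 0 < R) (hε : 0 < ε₁)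
    {q μ l : S → ℝ} (hd : Dat q μ l ε₁ R w ω) (hT : Tol (Fintype.card J) C₁ ε₁ ω E η)
    {k : J → ℕ} {u : J → ℝ} (hs : SP k u ε₁ R) (B : ℝ) (hB : 2 * R ≤ B)
    {N : Finset ℕ} {ν : ℕ → ℝ} {ξ : ℕ → S → Option J} {X : ℝ} (hX : 0 ≤ X)
    (hC1 : Cnt N ν ξ (fun t _ => 1 / q t) X E (fun T => lt l T ≤ B)) :
    ∑ n ∈ N, ν n * Lam none q μ (yk l k u R) (ξ n) ^ 2 ≤ 2 * (X * Ik μ l k u) := by
  have hl0 : ∀ t, 0 ≤ l t := fun t => hε.le.trans (hd.l1 t)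
  have hεw := eps_w hs hε hR hd.Rw
  have h1 := gen_err (J := J) hR hε hεw hd hT (yk l k u R) (fun σ => by
      have := yk_facts l hl0 k u ε₁ R hε hs σ
      rw [abs_of_nonneg this.1]
      exact this.2.1) R B (fun σ => (yk_facts l hl0 k u ε₁ R hε hs σ).2.2) hB hX hC1
  obtain ⟨g1, g2, g3, g4, g5⟩ := Gk_facts l hl0 k u ε₁ R hε hs
  have h2 : ∑ s, R498.MT.mt μ s * yk l k u R s ^ 2 ≤ Ik μ l k u := by
    have h3 : ∀ s : S → Option J, R498.MT.mt μ s * yk l k u R s ^ 2 ≤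
        ∏ j, (ms μ (fib s j) * Gk l k u j (fib s j) ^ 2) := by
      intro s
      rw [prod_mul_distrib, ← mt_eq, prod_pow]
      exact mul_le_mul_of_nonneg_left
        (pow_le_pow_left₀ (yG_nonneg l _ g1 R s) (yG_le l _ g1 R s) 2) (mt_nonneg μ hd.m0 s)
    exact (sum_le_sum fun s _ => h3 s).trans
      (sum_tuple_le (fun j a => ms μ a * Gk l k u j a ^ 2) (fun j a =>
            mul_nonneg (prod_nonneg fun t _ => hd.m0 t) (sq_nonneg _)))
  have hI1 := Ik_one hd hε hs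
  have h3 := mul_le_mul_of_nonneg_left h2 hX
  have h4 : X * η ≤ X * Ik μ l k u := mul_le_mul_of_nonneg_left (hT.h1.trans hI1) hX
  linarith

/-- **Two slots.** -/
theorem S3k [Nonempty J] {C₁ ε₁ R w ω E η : ℝ} (hR : 0 < R) (hR1 : 2 * R ≤ 1) (hε : 0 < ε₁)
    (hε4 : 4 * ε₁ ≤ R)
    {q μ l : S → ℝ} (hd : Dat q μ l ε₁ R w ω) (hT : Tol (Fintype.card J) C₁ ε₁ ω E η)
    {k : J → ℕ} {u : J → ℝ} (hs : SP k u ε₁ R) (B : ℝ) (hB : 6 * R ≤ B)
    {N : Finset ℕ} {ν : ℕ → ℝ} {ξ : ℕ → S → Option J} {X : ℝ} (hX : 0 ≤ X)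
    (hν : ∀ n ∈ N, 0 ≤ ν n)
    (hC1 : Cnt N ν ξ (fun t _ => 1 / q t) X E (fun T => lt l T ≤ B)) (i j : J) (hij : i ≠ j)
    (A : Finset ℕ) (hAN : A ⊆ N)
    (hA : ∀ n ∈ A, ν n ≠ 0 → ∀ t, l t ≤ 3 * R → ξ n t ≠ some i ∧ ξ n t ≠ some j) :
    ∑ n ∈ A, ν n * Lam none q μ (yk l k u R) (ξ n) ^ 2 ≤
      X * Ik μ l k u * (200 / R ^ 2 * (ε₁ * (Hk μ l k u i ^ 2 / I2k μ l k u i)) *
        (ε₁ * (Hk μ l k u j ^ 2 / I2k μ l k u j)) + η) := by
  have hl0 : ∀ t, 0 ≤ l t := fun t => hε.le.trans (hd.l1 t)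
  have hεw := eps_w hs hε hR hd.Rw
  obtain ⟨g1, g2, g3, g4, g5⟩ := Gk_facts l hl0 k u ε₁ R hε hs
  have hy0 : ∀ σ, 0 ≤ yk l k u R σ := fun σ => (yk_facts l hl0 k u ε₁ R hε hs σ).1
  have hys : ∀ σ, yk l k u R σ ≠ 0 → lt l σ ≤ R := fun σ => (yk_facts l hl0 k u ε₁ R hε hs σ).2.2
  have hGg : ∀ m a, Gk l k u m a ≤ gi l R a := by
    intro m a
    by_cases h : Gk l k u m a = 0
    · rw [h]
      exact (gi_bd l R a).1
    · have h1 := g5 m a h
      unfold gi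
      rw [if_pos (by linarith)]
      exact g2 m a
  have hy : ∀ σ, yk l k u R σ ≤ gi l R (fib σ i) * gi l R (fib σ j) := by
    intro σ
    refine (yG_le l _ g1 R σ).trans ?_
    rw [prod_G (Gk l k u) i j hij σ]
    have h1 : Go (Gk l k u) i j (st i j σ) ≤ 1 := by
      unfold Go
      apply prod_le_one
      · intro m _
        split_ifs
        · norm_num
        · exact g1 _ _
      · intro m _
        split_ifs
        · exact le_rfl
        · exact g2 _ _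
    have h2 : 0 ≤ Go (Gk l k u) i j (st i j σ) := by
      unfold Go
      apply prod_nonneg
      intro m _
      split_ifs
      · norm_num
      · exact g1 _ _
    have h3 := hGg i (fib σ i)
    have h4 := hGg j (fib σ j)
    have h5 := g1 i (fib σ i)
    have h6 := g1 j (fib σ j)
    have h7 := (gi_bd l R (fib σ i)).1
    have h8 := (gi_bd l R (fib σ j)).1
    calc Gk l k u i (fib σ i) * Gk l k u j (fib σ j) * Go (Gk l k u) i j (st i j σ) ≤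
        (gi l R (fib σ i) * gi l R (fib σ j)) * 1 :=
          mul_le_mul (mul_le_mul h3 h4 h6 h7) h1 h2 (mul_nonneg h7 h8)
      _ = _ := mul_one _
  have h1 : ∑ n ∈ A, ν n * Lam none q μ (yk l k u R) (ξ n) ^ 2 ≤
      ∑ n ∈ N, ν n * Lam none q μ (y2 μ l i j R (yk l k u R)) (ξ n) ^ 2 := by
    calc ∑ n ∈ A, ν n * Lam none q μ (yk l k u R) (ξ n) ^ 2 =
        ∑ n ∈ A, ν n * Lam none q μ (y2 μ l i j R (yk l k u R)) (ξ n) ^ 2 := by
          refine sum_congr rfl fun n hn => ?_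
          by_cases h0 : ν n = 0
          · rw [h0]; simp
          rw [Lam_y2 q μ l hd.m0 hl0 i j hij R R hR.le (yk l k u R) hys hy0 hy (ξ n)
            (fun t ht => hA n hn h0 t (by linarith))]
      _ ≤ _ := sum_le_sum_of_subset_of_nonneg hAN fun n hn _ =>
          mul_nonneg (hν n hn) (sq_nonneg _)
  refine h1.trans ?_
  have h2 := gen_err (J := J) hR hε hεw hd hT (y2 μ l i j R (yk l k u R)) (fun σ => by
      have := y2_bd μ l hd.m0 i j R (yk l k u R) hy0 hy σ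
      rw [abs_of_nonneg this.1]
      exact this.2) (R + 2 * R) B (fun σ => y2_supp μ l hl0 i j hij R R (yk l k u R) hys σ)
      (by linarith) hX hC1
  refine h2.trans ?_
  have hmass := mass_lower l μ hd.m0 ε₁ w (1 / 20) hε hd.l1 le_rfl hd.mer (hd.sq.trans hT.o1) R
    hε4 hd.Rw
  have hRε : 0 < R / ε₁ / 10 := by positivity
  have hm0 : 0 < mass l μ R := lt_of_lt_of_le hRε hmass
  have h3 := pair_main μ l hd.m0 hl0 i j hij R R ω (by linarith) hR.le hT.o0.le hT.o1 hd.sm hm0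
    (Gk l k u) g1 g4
  have hI2i := I2k_one hd hε hs i
  have hI2j := I2k_one hd hε hs j
  have hI1 := Ik_one hd hε hs
  have h4 : 2 / mass l μ R ^ 2 ≤ 200 / R ^ 2 * ε₁ ^ 2 := by
    have h5 : (R / ε₁ / 10) ^ 2 ≤ mass l μ R ^ 2 := pow_le_pow_left₀ hRε.le hmass 2
    calc 2 / mass l μ R ^ 2 ≤ 2 / (R / ε₁ / 10) ^ 2 :=
          div_le_div_of_nonneg_left (by norm_num) (by positivity) h5
      _ = _ := by
          field_simp
          norm_num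
  have e0 : ∑ σ, R498.MT.mt μ σ * y2 μ l i j R (yk l k u R) σ ^ 2 ≤
      200 / R ^ 2 * ε₁ ^ 2 * (Hk μ l k u i ^ 2 / I2k μ l k u i) *
        (Hk μ l k u j ^ 2 / I2k μ l k u j) * Ik μ l k u := by
    refine h3.trans ?_
    have a1 : 0 ≤ Hk μ l k u i ^ 2 / I2k μ l k u i := div_nonneg (sq_nonneg _) (by linarith)
    have a2 : 0 ≤ Hk μ l k u j ^ 2 / I2k μ l k u j := div_nonneg (sq_nonneg _) (by linarith)
    have a3 : 0 ≤ Ik μ l k u := by linarith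
    show 2 / mass l μ R ^ 2 * (Hk μ l k u i ^ 2 / I2k μ l k u i) *
      (Hk μ l k u j ^ 2 / I2k μ l k u j) * Ik μ l k u ≤ _
    gcongr
  have h5 := mul_le_mul_of_nonneg_left e0 hX
  have hη : 0 ≤ η := by
    refine le_trans ?_ hT.o4
    have := hT.c0
    have := hT.e0
    have := Real.one_le_exp (show 0 ≤ 6 * (Fintype.card J : ℝ) ^ 2 * ω by
        have := hT.o0
        positivity)
    have : 0 ≤ E + (Real.exp (6 * (Fintype.card J : ℝ) ^ 2 * ω) - 1) := by linarith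
    positivity
  have h6 : X * η ≤ X * Ik μ l k u * η := by
    rw [mul_assoc]
    apply mul_le_mul_of_nonneg_left _ hX
    nlinarith
  calc X * (∑ s, R498.MT.mt μ s * y2 μ l i j R (yk l k u R) s ^ 2) + X * η ≤
      X * (200 / R ^ 2 * ε₁ ^ 2 * (Hk μ l k u i ^ 2 / I2k μ l k u i) *
        (Hk μ l k u j ^ 2 / I2k μ l k u j) * Ik μ l k u) + X * Ik μ l k u * η := by linarith
    _ = _ := by ring

/-- the main term -/
noncomputable def Mk (i : J) (q μ l : S → ℝ) (k : J → ℕ) (u : J → ℝ) (R : ℝ) : ℝ :=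
  ∑ σ, ∑ τ, cw μ (yk l k u R) σ * cw μ (yk l k u R) τ * ∏ t, VM (some i) (q t) (σ t) (τ t)

/-- the sums over one coordinate -/
theorem sumsk [Nonempty J] {ε₁ R w ω : ℝ} (hR : 0 < R) (hε : 0 < ε₁) (hω : ω ≤ 1 / 20)
    {q μ l : S → ℝ} (hd : Dat q μ l ε₁ R w ω)
    {k : J → ℕ} {u : J → ℝ} (hs : SP k u ε₁ R) (j : J) :
    ((k j : ℝ) / 2 + 1) * (u j / ε₁ / 10) ≤ Hk μ l k u j ∧
    I2k μ l k u j ≤ 12 / 5 * (u j / ε₁) ∧
    (∑ a, lz l a * (ms μ a * Gk l k u j a ^ 2)) ≤ 6 / 5 * ((k j : ℝ) + 1) * (u j ^ 2 / ε₁) ∧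
    u j / ε₁ / 10 ≤ I2k μ l k u j ∧
    1 ≤ Hk μ l k u j := by
  have hl0 : ∀ t, 0 ≤ l t := fun t => hε.le.trans (hd.l1 t)
  have h4u := hs.u4 j
  have hu0 : 0 < u j := by linarith
  have hp1 : (1 : ℝ) ≤ 2 ^ k j := one_le_pow₀ (by norm_num)
  have hUR := hs.us j
  have hUw : 2 ^ k j * u j ≤ w := by linarith [hd.Rw]
  have huw : u j ≤ w := by nlinarith
  obtain ⟨g1, g2, g3, g4, g5⟩ := Gk_facts l hl0 k u ε₁ R hε hs
  refine ⟨sum_H l μ hd.m0 ε₁ w (1 / 20) hε hd.l1 le_rfl hd.mer (hd.sq.trans hω) (k j) (u j) h4u hUw,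
    sum_I2 l μ hd.m0 ε₁ w (1 / 20) hε hd.l1 le_rfl hd.mer (k j) (u j) (by linarith) hUw,
    sum_IE l μ hd.m0 ε₁ w (1 / 20) hε hd.l1 le_rfl hd.mer (k j) (u j) (by linarith) hUw,
    sum_I2_lower l μ hd.m0 ε₁ w (1 / 20) hε hd.l1 le_rfl hd.mer (hd.sq.trans hω) (k j) (u j) h4u
      huw, ?_⟩
  have h6 : ms μ ∅ * Gk l k u j ∅ = 1 := by rw [g4]; simp [ms]
  rw [← h6]
  exact single_le_sum (f := fun a => ms μ a * Gk l k u j a)
    (fun a _ => mul_nonneg (prod_nonneg fun t _ => hd.m0 t) (g1 j a)) (mem_univ ∅)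

theorem Mk_lower [Nonempty J] {C₁ ε₁ R w ω E η : ℝ} (hR : 0 < R) (hε : 0 < ε₁)
    {q μ l : S → ℝ} (hd : Dat q μ l ε₁ R w ω) (hT : Tol (Fintype.card J) C₁ ε₁ ω E η)
    {k : J → ℕ} {u : J → ℝ} (hs : SP k u ε₁ R) (i : J) :
    Hk μ l k u i ^ 2 / (8 * I2k μ l k u i) * Ik μ l k u ≤ Mk i q μ l k u R := by
  have hl0 : ∀ t, 0 ≤ l t := fun t => hε.le.trans (hd.l1 t)
  have hεw := eps_w hs hε hR hd.Rw
  have hR1 : R ≤ 1 := hd.Rw.trans hd.w1
  obtain ⟨g1, g2, g3, g4, g5⟩ := Gk_facts l hl0 k u ε₁ R hε hs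
  have hA1A := prod_mu_le (J := J) hd hε hεw
  have hωA : ω * ∏ t, (1 + μ t) ≤ 1 / 2 :=
    (mul_le_mul_of_nonneg_left hA1A hT.o0.le).trans hT.o3
  have hH1 := (sumsk (J := J) hR hε hT.o1 hd hs i).2.2.2.2
  have h2 := S2_mainG i q μ l hd.q2 hd.m0 hd.mq hl0 (Gk l k u) g1 g3 g4 R (R / 2)
    (by linarith) (fun j a h => (g5 j a h).le) ω (by
      intro s hs
      have e1 : ∑ t, (if s t = none then 0 else μ t) =
          ∑ t ∈ univ.filter (fun t => s t ≠ none), μ t := by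
        rw [sum_filter]
        refine sum_congr rfl fun t _ => ?_
        by_cases h : s t = none <;> simp [h]
      have e2 : lz l (univ.filter (fun t => s t ≠ none)) = lt l s := by
        unfold lz lt
        rw [sum_filter]
        refine sum_congr rfl fun t _ => ?_
        by_cases h : s t = none <;> simp [h]
      rw [e1]
      exact hd.sm _ (by rw [e2]; linarith)) (by
        have : 1 ≤ ∑ a, ms μ a * Gk l k u i a := hH1
        linarith)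
  refine le_trans ?_ h2
  have a4 : (1 : ℝ) / 2 ≤ (1 - (Fintype.card J : ℝ) ^ 2 * ∑ t, μ t ^ 2) -
      (∑ j, (∑ a, lz l a * (ms μ a * Gk l k u j a ^ 2)) / ∑ a, ms μ a * Gk l k u j a ^ 2) /
        (R - R / 2) := by
    have b1 : (Fintype.card J : ℝ) ^ 2 * ∑ t, μ t ^ 2 ≤ 1 / 96 :=
      (mul_le_mul_of_nonneg_left hd.sq (sq_nonneg _)).trans hT.o2
    have b2 : ∑ j, (∑ a, lz l a * (ms μ a * Gk l k u j a ^ 2)) / ∑ a, ms μ a * Gk l k u j a ^ 2 ≤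
        R / 8 := by
      refine le_trans (sum_le_sum fun j _ => ?_) hs.ss
      obtain ⟨c1, c2, c3, c4, c5⟩ := sumsk (J := J) hR hε hT.o1 hd hs j
      have hI := I2k_one hd hε hs j
      have hu0 : 0 < u j := by have := hs.u4 j; linarith
      show (∑ a, lz l a * (ms μ a * Gk l k u j a ^ 2)) / I2k μ l k u j ≤ _
      rw [div_le_iff₀ (by linarith)]
      refine c3.trans ?_
      have c6 : 12 * ((k j : ℝ) + 1) * u j * (u j / ε₁ / 10) ≤
          12 * ((k j : ℝ) + 1) * u j * I2k μ l k u j :=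
        mul_le_mul_of_nonneg_left c4 (by positivity)
      refine le_trans (le_of_eq ?_) c6
      field_simp
      ring
    have b3 : (∑ j, (∑ a, lz l a * (ms μ a * Gk l k u j a ^ 2)) /
        ∑ a, ms μ a * Gk l k u j a ^ 2) / (R - R / 2) ≤ 1 / 4 := by
      rw [div_le_iff₀ (by linarith)]
      linarith
    linarith
  have hI1 : 0 < I2k μ l k u i := by linarith [I2k_one hd hε hs i]
  have hIk : 0 < Ik μ l k u := by linarith [Ik_one hd hε hs]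
  have a2 : 0 ≤ Ik μ l k u / I2k μ l k u i := by positivity
  have a3 : Hk μ l k u i ^ 2 / 4 ≤ (Hk μ l k u i - ω * ∏ t, (1 + μ t)) ^ 2 := by
    have : Hk μ l k u i / 2 ≤ Hk μ l k u i - ω * ∏ t, (1 + μ t) := by linarith
    nlinarith
  calc Hk μ l k u i ^ 2 / (8 * I2k μ l k u i) * Ik μ l k u =
      Hk μ l k u i ^ 2 / 4 * (1 / 2) * (Ik μ l k u / I2k μ l k u i) := by
        field_simp
        norm_num
    _ ≤ _ := by
        apply mul_le_mul_of_nonneg_right _ a2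
        exact mul_le_mul a3 a4 (by norm_num) (sq_nonneg _)

/-- one set of targets -/
theorem one_Tk [Nonempty J] {C₁ ε₁ R w ω E η τ : ℝ} (hR : 0 < R) (hε : 0 < ε₁) (hτ : τ ≤ 1)
    {q μ l : S → ℝ} (hd : Dat q μ l ε₁ R w ω) (hT : Tol (Fintype.card J) C₁ ε₁ ω E η)
    {k : J → ℕ} {u : J → ℝ} (hs : SP k u ε₁ R) (i : J)
    (cL : Finset S → ℝ) (hcL : ∀ T, |cL T| ≤ C₁) (hcT : ∀ T, cL T ≠ 0 → lz l T ≤ τ)
    {N : Finset ℕ} {ν : ℕ → ℝ} {ξ : ℕ → S → Option J} {X : ℝ} (hX : 0 ≤ X)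
    (hC1 : Cnt N ν ξ (fun t _ => 1 / q t) X E (fun T => lt l T ≤ 2 * R + τ))
    (T : Finset S) :
    X * (cL T * ∏ t ∈ T, 1 / q t) * Mk i q μ l k u R - X * (C₁ * ∏ t ∈ T, 1 / q t) *
      (AK (Fintype.card J) ε₁ * (E + (Real.exp (6 * (Fintype.card J : ℝ) ^ 2 * ω) - 1))) ≤
    cL T * (∑ n ∈ N, ν n * (Lam (some i) q μ (yk l k u R) (ξ n) ^ 2 *
      (if ∀ t ∈ T, ξ n t = some i then 1 else 0))) := by
  have hl0 : ∀ t, 0 ≤ l t := fun t => hε.le.trans (hd.l1 t)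
  have hεw := eps_w hs hε hR hd.Rw
  have hε11 : ε₁ ≤ 1 := hεw.trans hd.w1
  have hmq : ∀ t, μ t * (q t - 1) ≤ 1 := by
    intro t
    rcases hd.mq t with h | h
    · rw [h]; norm_num
    · exact h.le
  have hA1 := AK_one (Fintype.card J) ε₁ hε hε11
  have hAA := AA_AK (J := J) hd hε hεw
  have hγ : ∀ t, 0 ≤ 1 / q t := fun t => by have := hd.q2 t; positivity
  have hg0 : 0 ≤ ∏ t ∈ T, 1 / q t := prod_nonneg fun t _ => hγ t
  have hK0 : (0 : ℝ) ≤ (Fintype.card J : ℝ) ^ 2 := sq_nonneg _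
  have p2 : 0 ≤ Real.exp (6 * (Fintype.card J : ℝ) ^ 2 * ω) - 1 := by
    have := Real.one_le_exp (show 0 ≤ 6 * (Fintype.card J : ℝ) ^ 2 * ω by
      have := hT.o0
      positivity)
    linarith
  have hE0 := hT.e0
  have hC0 := hT.c0
  by_cases hT0 : cL T = 0
  · rw [hT0]
    have : 0 ≤ X * (C₁ * ∏ t ∈ T, 1 / q t) *
      (AK (Fintype.card J) ε₁ * (E + (Real.exp (6 * (Fintype.card J : ℝ) ^ 2 * ω) - 1))) := by
      positivity
    linarith
  have hTτ := hcT T hT0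
  have h2 := one_target (J := J) (N := N) (ν := ν) (ξ := ξ) (X := X) (E := E)
    (Good := fun T => lt l T ≤ 2 * R + τ) (some i) q (fun t => 1 / q t) μ hd.q2 hγ hd.m0 hd.m1
    hmq (yk l k u R) (fun σ => by
      have := yk_facts l hl0 k u ε₁ R hε hs σ
      rw [abs_of_nonneg this.1]
      exact this.2.1) hX hE0 T (fun t _ => by simp)
    (by
      intro T hT
      have := hC1 T hT
      have e : ∀ t, rr (rd (some i) (q t) (1 / q t)) (T t) = rr (fun _ : J => 1 / q t) (T t) := by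
        intro t
        rcases T t with _ | j
        · rfl
        · simp [rr, rd]
      simp_rw [e]
      exact this)
    (by
      intro σ τ' hσ hτ' U hU
      have h2 := good_of (some i) q l hl0 T σ τ' U hU
      have h3 := (yk_facts l hl0 k u ε₁ R hε hs σ).2.2 hσ
      have h4 := (yk_facts l hl0 k u ε₁ R hε hs τ').2.2 hτ'
      show lt l U ≤ 2 * R + τ
      linarith)
  have hsm := hd.sm T (by linarith)
  have hexp : Real.exp ((Fintype.card J : ℝ) ^ 2 * ∑ t, μ t ^ 2 +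
      5 * (Fintype.card J : ℝ) ^ 2 * ∑ t ∈ T, μ t) ≤
      Real.exp (6 * (Fintype.card J : ℝ) ^ 2 * ω) := by
    apply Real.exp_le_exp.2
    have b1 := mul_le_mul_of_nonneg_left hd.sq hK0
    have b2 := mul_le_mul_of_nonneg_left hsm hK0
    linarith
  have herr : AA J μ * (E + (Real.exp ((Fintype.card J : ℝ) ^ 2 * ∑ t, μ t ^ 2 +
      5 * (Fintype.card J : ℝ) ^ 2 * ∑ t ∈ T, μ t) - 1)) ≤
      AK (Fintype.card J) ε₁ * (E + (Real.exp (6 * (Fintype.card J : ℝ) ^ 2 * ω) - 1)) := by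
    apply mul_le_mul hAA (by linarith) _ (by linarith)
    have : 0 ≤ Real.exp ((Fintype.card J : ℝ) ^ 2 * ∑ t, μ t ^ 2 +
      5 * (Fintype.card J : ℝ) ^ 2 * ∑ t ∈ T, μ t) - 1 := by
      have := Real.one_le_exp (show 0 ≤ (Fintype.card J : ℝ) ^ 2 * ∑ t, μ t ^ 2 +
        5 * (Fintype.card J : ℝ) ^ 2 * ∑ t ∈ T, μ t from
        add_nonneg (mul_nonneg hK0 (sum_nonneg fun t _ => sq_nonneg _))
          (mul_nonneg (by positivity) (sum_nonneg fun t _ => hd.m0 t)))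
      linarith
    linarith
  have h3 : |(∑ n ∈ N, ν n * (Lam (some i) q μ (yk l k u R) (ξ n) ^ 2 *
      (if ∀ t ∈ T, ξ n t = some i then 1 else 0))) - X * (∏ t ∈ T, 1 / q t) * Mk i q μ l k u R| ≤
      X * (∏ t ∈ T, 1 / q t) *
      (AK (Fintype.card J) ε₁ * (E + (Real.exp (6 * (Fintype.card J : ℝ) ^ 2 * ω) - 1))) :=
    h2.trans (mul_le_mul_of_nonneg_left herr (mul_nonneg hX hg0))
  generalize (∑ n ∈ N, ν n * (Lam (some i) q μ (yk l k u R) (ξ n) ^ 2 *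
      (if ∀ t ∈ T, ξ n t = some i then 1 else 0))) = ST at *
  have h4 : |cL T * (ST - X * (∏ t ∈ T, 1 / q t) * Mk i q μ l k u R)| ≤
      C₁ * (X * (∏ t ∈ T, 1 / q t) *
      (AK (Fintype.card J) ε₁ * (E + (Real.exp (6 * (Fintype.card J : ℝ) ^ 2 * ω) - 1)))) := by
    rw [abs_mul]
    exact mul_le_mul (hcL T) h3 (abs_nonneg _) hC0
  have h5 := (abs_le.1 h4).1
  have h6 : cL T * (ST - X * (∏ t ∈ T, 1 / q t) * Mk i q μ l k u R) =
      cL T * ST - X * (cL T * ∏ t ∈ T, 1 / q t) * Mk i q μ l k u R := by ring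
  rw [h6] at h5
  have h7 : C₁ * (X * (∏ t ∈ T, 1 / q t) *
      (AK (Fintype.card J) ε₁ * (E + (Real.exp (6 * (Fintype.card J : ℝ) ^ 2 * ω) - 1)))) =
      X * (C₁ * ∏ t ∈ T, 1 / q t) *
      (AK (Fintype.card J) ε₁ * (E + (Real.exp (6 * (Fintype.card J : ℝ) ^ 2 * ω) - 1))) := by ring
  rw [h7] at h5
  linarith

/-- **The second sum.** -/
theorem S2k [Nonempty J] {C₁ ε₁ R w ω E η τ c₀ : ℝ} (hR : 0 < R) (hε : 0 < ε₁) (hτ : τ ≤ 1)
    (hc₀ : 0 ≤ c₀)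
    {q μ l : S → ℝ} (hd : Dat q μ l ε₁ R w ω) (hT : Tol (Fintype.card J) C₁ ε₁ ω E η)
    {k : J → ℕ} {u : J → ℝ} (hs : SP k u ε₁ R) (i : J)
    (cL : Finset S → ℝ) (hcL : ∀ T, |cL T| ≤ C₁) (hcT : ∀ T, cL T ≠ 0 → lz l T ≤ τ)
    (hγμ : ∀ t, 1 / q t ≤ μ t)
    {N : Finset ℕ} {ν : ℕ → ℝ} {ξ : ℕ → S → Option J} {X : ℝ} (hX : 0 ≤ X)
    (hV : ε₁ * c₀ ≤ ∑ T, cL T * ∏ t ∈ T, 1 / q t)
    (hC1 : Cnt N ν ξ (fun t _ => 1 / q t) X E (fun T => lt l T ≤ 2 * R + τ)) :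
    X * Ik μ l k u * (c₀ / 8 * (ε₁ * (Hk μ l k u i ^ 2 / I2k μ l k u i)) - η) ≤
      ∑ n ∈ N, ν n * (Lam (some i) q μ (yk l k u R) (ξ n) ^ 2 *
        ∑ T, cL T * (if ∀ t ∈ T, ξ n t = some i then 1 else 0)) := by
  classical
  have hεw := eps_w hs hε hR hd.Rw
  have hε11 : ε₁ ≤ 1 := hεw.trans hd.w1
  have hI21 := I2k_one hd hε hs i
  have hI1 := Ik_one hd hε hs
  have hA1 := AK_one (Fintype.card J) ε₁ hε hε11
  have hA1A := prod_mu_le (J := J) hd hε hεw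
  have hMl := Mk_lower hR hε hd hT hs i
  have hM0 : 0 ≤ Mk i q μ l k u R := by
    refine le_trans ?_ hMl
    exact mul_nonneg (div_nonneg (sq_nonneg _) (by linarith)) (by linarith)
  have hone := one_Tk hR hε hτ hd hT hs i cL hcL hcT hX hC1
  have hγ : ∀ t, 0 ≤ 1 / q t := fun t => by have := hd.q2 t; positivity
  -- the sum over the targets
  have hsum : ∑ n ∈ N, ν n * (Lam (some i) q μ (yk l k u R) (ξ n) ^ 2 *
        ∑ T, cL T * (if ∀ t ∈ T, ξ n t = some i then 1 else 0)) =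
      ∑ T, cL T * (∑ n ∈ N, ν n * (Lam (some i) q μ (yk l k u R) (ξ n) ^ 2 *
      (if ∀ t ∈ T, ξ n t = some i then 1 else 0))) := by
    simp_rw [mul_sum]
    rw [sum_comm]
    refine sum_congr rfl fun T _ => sum_congr rfl fun n _ => ?_
    ring
  rw [hsum]
  have h2 := sum_le_sum (s := univ) fun T _ => (hone T)
  have h3 : ∑ T : Finset S, (X * (cL T * ∏ t ∈ T, 1 / q t) * Mk i q μ l k u R -
        X * (C₁ * ∏ t ∈ T, 1 / q t) *
        (AK (Fintype.card J) ε₁ * (E + (Real.exp (6 * (Fintype.card J : ℝ) ^ 2 * ω) - 1)))) =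
      X * (∑ T, cL T * ∏ t ∈ T, 1 / q t) * Mk i q μ l k u R - X * (C₁ * ∏ t, (1 + 1 / q t)) *
        (AK (Fintype.card J) ε₁ * (E + (Real.exp (6 * (Fintype.card J : ℝ) ^ 2 * ω) - 1))) := by
    rw [sum_sub_distrib, ← sum_mul, ← mul_sum, ← sum_mul, ← mul_sum, ← mul_sum, prod_one_add,
      ← powerset_univ]
  rw [h3] at h2
  refine le_trans ?_ h2
  have hΓ : ∏ t, (1 + 1 / q t) ≤ AK (Fintype.card J) ε₁ := by
    refine le_trans ?_ hA1A
    apply prod_le_prod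
    · intro t _; linarith [hγ t]
    · intro t _; linarith [hγμ t]
  have hΓ0 : 0 ≤ ∏ t, (1 + 1 / q t) := prod_nonneg fun t _ => by linarith [hγ t]
  have hVM : X * (ε₁ * c₀) * Mk i q μ l k u R ≤
      X * (∑ T, cL T * ∏ t ∈ T, 1 / q t) * Mk i q μ l k u R := by
    apply mul_le_mul_of_nonneg_right _ hM0
    exact mul_le_mul_of_nonneg_left hV hX
  have p2 : 0 ≤ Real.exp (6 * (Fintype.card J : ℝ) ^ 2 * ω) - 1 := by
    have := Real.one_le_exp (show 0 ≤ 6 * (Fintype.card J : ℝ) ^ 2 * ω by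
      have := hT.o0
      positivity)
    linarith
  have hE0 := hT.e0
  have hC0 := hT.c0
  have ho4 := hT.o4
  have herr : X * (C₁ * ∏ t, (1 + 1 / q t)) *
      (AK (Fintype.card J) ε₁ * (E + (Real.exp (6 * (Fintype.card J : ℝ) ^ 2 * ω) - 1))) ≤
      X * η := by
    generalize (∏ t, (1 + 1 / q t)) = Γ at *
    generalize Real.exp (6 * (Fintype.card J : ℝ) ^ 2 * ω) - 1 = ee at *
    generalize AK (Fintype.card J) ε₁ = A at *
    have q1 : C₁ * Γ ≤ (1 + C₁) * A := by nlinarith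
    have q2 : 0 ≤ A * (E + ee) := mul_nonneg (by linarith) (by linarith)
    calc X * (C₁ * Γ) * (A * (E + ee)) ≤ X * ((1 + C₁) * A) * (A * (E + ee)) := by
          apply mul_le_mul_of_nonneg_right _ q2
          exact mul_le_mul_of_nonneg_left q1 hX
      _ = X * ((1 + C₁) * A ^ 2 * (E + ee)) := by ring
      _ ≤ X * η := mul_le_mul_of_nonneg_left ho4 hX
  have hη : 0 ≤ η := by
    refine le_trans ?_ ho4
    have : 0 ≤ E + (Real.exp (6 * (Fintype.card J : ℝ) ^ 2 * ω) - 1) := by linarith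
    positivity
  have hmain : X * Ik μ l k u * (c₀ / 8 * (ε₁ * (Hk μ l k u i ^ 2 / I2k μ l k u i))) ≤
      X * (ε₁ * c₀) * Mk i q μ l k u R := by
    have h4 := mul_le_mul_of_nonneg_left hMl (mul_nonneg hX (mul_nonneg hε.le hc₀))
    refine le_trans (le_of_eq ?_) h4
    have : I2k μ l k u i ≠ 0 := by linarith
    field_simp
  have h6 : X * η ≤ X * Ik μ l k u * η := by
    rw [mul_assoc]
    apply mul_le_mul_of_nonneg_left _ hX
    nlinarith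
  have h7 : X * Ik μ l k u * (c₀ / 8 * (ε₁ * (Hk μ l k u i ^ 2 / I2k μ l k u i)) - η) =
      X * Ik μ l k u * (c₀ / 8 * (ε₁ * (Hk μ l k u i ^ 2 / I2k μ l k u i))) -
        X * Ik μ l k u * η := by ring
  rw [h7]
  linarith

end par

end Pool.Agent.J6H17.QP
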