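import Pool.Agent.J6H17.QP.Exact
import Pool.Agent.J6H17.TA.Real
import Pool.Agent.N790.IA.Meas

set_option autoImplicit false

/-! Sequences of linear forms divided into classes, which are divided into infinitely many rows: one infinite
exact pattern for almost prime values of a quadratic polynomial has elements in infinitely many classes
of infinitely many rows. -/

namespace Pool.Agent.J6H17.QP

open Finset Filter Topology MeasureTheory
open Pool.Agent.H361R2.Inf
open Pool.Agent.N790.IA (hits)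
open Pool.Agent.J6H17.TA

open Classical in
/-- in infinitely many groups of `n` rows the set `I` meets, for many rows of the group, infinitely many
classes -/
def PRK (K n : ℕ) (off : ℕ → ℕ) (I : Set ℕ) : Prop :=
  ∃ᶠ k in atTop, n ≤ K * ((range n).filter
    (fun a => ∃ᶠ w in atTop, hits off I (n * Nat.pair k w + a))).card

open Classical in
theorem hcombK (K n : ℕ) (hn : 1 ≤ n) (δ : ℝ) (hδ : 0 < δ) (hK : 2 ≤ K * δ) (off : ℕ → ℕ) :
    ∀ (m : Set ℕ → ℝ), FMeas m → m Set.univ ≤ 2 → ∀ (E : ℕ → Set ℕ),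
      (∀ t, δ ≤ m {x | ∃ i ∈ Ico (off t) (off (t + 1)), x ∈ E i}) →
      ∃ I : Set ℕ, PRK K n off I ∧ ∀ N : ℕ, 0 < m {x | ∀ i < N, (x ∈ E i ↔ i ∈ I)} := by
  intro m hm hm2 E hE
  have hnr : (1 : ℝ) ≤ n := by exact_mod_cast hn
  have hK0 : 0 < K := by
    rcases Nat.eq_zero_or_pos K with h | h
    · rw [h, Nat.cast_zero, zero_mul] at hK
      linarith
    · exact h
  have hK0r : (0 : ℝ) < K := by exact_mod_cast hK0
  set μ : Measure ℝ := volume.restrict (Set.Ico 0 (m Set.univ)) with hμ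
  have hfin : IsFiniteMeasure μ := ⟨by
    rw [hμ, Measure.restrict_apply_univ, Real.volume_Ico]
    exact ENNReal.ofReal_lt_top⟩
  have huniv : μ Set.univ ≤ 2 := by
    rw [hμ, Measure.restrict_apply_univ, Real.volume_Ico]
    refine (ENNReal.ofReal_le_ofReal (show m Set.univ - 0 ≤ 2 by linarith)).trans ?_
    rw [ENNReal.ofReal_ofNat]
  -- the classes
  set A : ℕ → Set ℝ := fun t => {x | hits off (pat m E x) t} with hA
  have hAm : ∀ t, MeasurableSet (A t) := by
    intro t
    have h : A t = ⋃ i ∈ Ico (off t) (off (t + 1)), Ev m E i := by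
      ext x
      simp only [hA, hits, pat, Set.mem_ofPred_eq, Set.mem_iUnion, exists_prop]
    rw [h]
    exact Finset.measurableSet_biUnion _ fun i _ => measurable_Ev i
  have hAc : ∀ t, ENNReal.ofReal δ ≤ μ (A t) := by
    intro t
    have h1 := m_le_volume (E := E) hm (off (t + 1)) {I | hits off I t} (by
      intro I I' h
      simp only [Set.mem_ofPred_eq, hits]
      constructor
      · rintro ⟨i, hi, h2⟩
        exact ⟨i, hi, (h i (Finset.mem_Ico.1 hi).2).1 h2⟩
      · rintro ⟨i, hi, h2⟩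
        exact ⟨i, hi, (h i (Finset.mem_Ico.1 hi).2).2 h2⟩)
    have h2 : {x | {i | x ∈ E i} ∈ {I : Set ℕ | hits off I t}} =
        {x | ∃ i ∈ Ico (off t) (off (t + 1)), x ∈ E i} := by
      ext x
      simp only [hits, Set.mem_ofPred_eq]
    rw [h2] at h1
    refine (ENNReal.ofReal_le_ofReal (hE t)).trans (h1.trans ?_)
    rw [hμ, Measure.restrict_apply (hAm t)]
    apply measure_mono
    rintro x ⟨hx1, hx2⟩
    exact ⟨hx2, hx1⟩
  -- the rows
  set L : ℕ → ℕ → Set ℝ := fun k a => {x | ∃ᶠ w in atTop, x ∈ A (n * Nat.pair k w + a)} with hL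
  have hLL : ∀ k a, MeasurableSet (L k a) ∧ ENNReal.ofReal δ ≤ μ (L k a) := by
    intro k a
    exact limsup_ge (fun w => A (n * Nat.pair k w + a)) (fun w => hAm _) _
      (Filter.Eventually.frequently (Filter.Eventually.of_forall fun w => hAc _))
  -- the groups
  set G : ℕ → Set ℝ := fun k => {x | n ≤ K * ((range n).filter (fun a => x ∈ L k a)).card} with hG
  have hGm : ∀ k, MeasurableSet (G k) := by
    intro k
    have h : G k = ⋃ S ∈ (range n).powerset.filter (fun S => n ≤ K * S.card), ⋂ a ∈ S, L k a := by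
      ext x
      simp only [hG, Set.mem_ofPred_eq, Set.mem_iUnion, exists_prop, Set.mem_iInter,
        Finset.mem_filter, Finset.mem_powerset]
      constructor
      · intro h
        exact ⟨_, ⟨Finset.filter_subset _ _, h⟩, fun a ha => (Finset.mem_filter.1 ha).2⟩
      · rintro ⟨S, ⟨h1, h2⟩, h3⟩
        refine h2.trans (Nat.mul_le_mul_left _ (Finset.card_le_card ?_))
        intro a ha
        exact Finset.mem_filter.2 ⟨h1 ha, h3 a ha⟩
    rw [h]
    exact Finset.measurableSet_biUnion _ fun S _ =>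
      Finset.measurableSet_biInter _ fun a _ => (hLL k a).1
  have hGc : ∀ k, ENNReal.ofReal (δ / n) ≤ μ (G k) := by
    intro k
    have h1 : ∑ a ∈ range n, μ (L k a) ≤ n * μ (G k) + (((n - 1) / K : ℕ) : ENNReal) * μ Set.univ := by
      calc ∑ a ∈ range n, μ (L k a) = ∑ a ∈ range n, ∫⁻ x, (L k a).indicator 1 x ∂μ := by
            refine Finset.sum_congr rfl fun a _ => ?_
            rw [lintegral_indicator_one (hLL k a).1]
        _ = ∫⁻ x, ∑ a ∈ range n, (L k a).indicator 1 x ∂μ := by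
            rw [lintegral_finset_sum]
            intro a _
            exact measurable_one.indicator (hLL k a).1
        _ ≤ ∫⁻ x, ((n : ENNReal) * (G k).indicator 1 x + (((n - 1) / K : ℕ) : ENNReal)) ∂μ := by
            apply lintegral_mono
            intro x
            beta_reduce
            have h2 : ∑ a ∈ range n, (L k a).indicator (1 : ℝ → ENNReal) x =
                (((range n).filter (fun a => x ∈ L k a)).card : ENNReal) := by
              rw [Finset.card_filter, Nat.cast_sum]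
              refine Finset.sum_congr rfl fun a _ => ?_
              by_cases h3 : x ∈ L k a
              · rw [Set.indicator_of_mem h3, if_pos h3]
                simp
              · rw [Set.indicator_of_notMem h3, if_neg h3]
                simp
            rw [h2]
            by_cases h3 : x ∈ G k
            · rw [Set.indicator_of_mem h3]
              refine le_trans ?_ (le_self_add)
              rw [Pi.one_apply, mul_one]
              exact_mod_cast (Finset.card_filter_le _ _).trans (by rw [Finset.card_range])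
            · rw [Set.indicator_of_notMem h3, mul_zero, zero_add]
              have h4 : ¬ n ≤ K * ((range n).filter (fun a => x ∈ L k a)).card := h3
              have h5 : ((range n).filter (fun a => x ∈ L k a)).card ≤ (n - 1) / K := by
                rw [Nat.le_div_iff_mul_le hK0, mul_comm]
                omega
              exact_mod_cast h5
        _ = n * μ (G k) + (((n - 1) / K : ℕ) : ENNReal) * μ Set.univ := by
            rw [lintegral_add_right _ measurable_const, lintegral_const_mul, lintegral_indicator_one (hGm k),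
              lintegral_const]
            exact measurable_one.indicator (hGm k)
    have h2 : (n : ENNReal) * ENNReal.ofReal δ ≤
        n * μ (G k) + (((n - 1) / K : ℕ) : ENNReal) * 2 := by
      calc (n : ENNReal) * ENNReal.ofReal δ = ∑ a ∈ range n, ENNReal.ofReal δ := by
            rw [Finset.sum_const, Finset.card_range, nsmul_eq_mul]
        _ ≤ ∑ a ∈ range n, μ (L k a) := Finset.sum_le_sum fun a _ => (hLL k a).2
        _ ≤ _ := h1.trans (add_le_add_right (mul_le_mul_right huniv _) _)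
    have hGne : μ (G k) ≠ ⊤ := measure_ne_top _ _
    have h3 := ENNReal.toReal_mono (by finiteness) h2
    rw [ENNReal.toReal_mul, ENNReal.toReal_natCast, ENNReal.toReal_ofReal hδ.le,
      ENNReal.toReal_add (by finiteness) (by finiteness), ENNReal.toReal_mul, ENNReal.toReal_mul,
      ENNReal.toReal_natCast, ENNReal.toReal_natCast, ENNReal.toReal_ofNat] at h3
    have hfl : (((n - 1) / K : ℕ) : ℝ) ≤ ((n : ℝ) - 1) / K := by
      rw [le_div_iff₀ hK0r]
      have h5 : (n - 1) / K * K ≤ n - 1 := Nat.div_mul_le_self _ _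
      have h6 : (((n - 1) / K * K : ℕ) : ℝ) ≤ ((n - 1 : ℕ) : ℝ) := by exact_mod_cast h5
      rw [Nat.cast_sub hn] at h6
      push_cast at h6
      exact h6
    rw [← ENNReal.ofReal_toReal hGne]
    apply ENNReal.ofReal_le_ofReal
    rw [div_le_iff₀ (by positivity)]
    have h7 : ((n : ℝ) - 1) / K * 2 ≤ ((n : ℝ) - 1) * δ := by
      rw [div_mul_eq_mul_div, div_le_iff₀ hK0r]
      nlinarith
    nlinarith
  obtain ⟨-, hlim⟩ := limsup_ge G hGm (ENNReal.ofReal (δ / n))
    (Filter.Eventually.frequently (Filter.Eventually.of_forall hGc))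
  have hpos : 0 < μ {x | ∃ᶠ k in atTop, x ∈ G k} :=
    lt_of_lt_of_le (ENNReal.ofReal_pos.2 (by positivity)) hlim
  obtain ⟨x, hx1, hx2⟩ : ∃ x ∈ Set.Ico 0 (m Set.univ), ∃ᶠ k in atTop, x ∈ G k := by
    by_contra hcon
    push Not at hcon
    refine hpos.ne' ?_
    rw [hμ, Measure.restrict_apply' measurableSet_Ico]
    have h : {x | ∃ᶠ k in atTop, x ∈ G k} ∩ Set.Ico 0 (m Set.univ) = ∅ := by
      rw [Set.eq_empty_iff_forall_notMem]
      rintro x ⟨hx1, hx2⟩
      exact hx1 (hcon x hx2)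
    rw [h, measure_empty]
  refine ⟨pat m E x, ?_, fun N => cyl_pos hm hx1 N⟩
  exact hx2

/-- **the pattern theorem for infinitely many rows** -/
theorem rowPatternQ (A B C : ℤ) (hA : A ≠ 0) (hΔ : ¬ IsSquare (B ^ 2 - 4 * A * C))
    (hfix : ∀ p : ℕ, p.Prime → ∃ n : ℤ, ¬ (p : ℤ) ∣ Gq A B C n) :
    ∃ (K : ℕ) (off : ℕ → ℕ), StrictMono off ∧ off 0 = 0 ∧ ∀ n : ℕ, 1 ≤ n → ∀ f : ℕ → ℤ × ℤ,
      AdmQ A B C f → ∀ (s : ℕ) (θ : ℝ), 3 ≤ s → θ ≤ 9 / 50 → ∀ NN : ℕ → Finset ℕ,
      (∀ k, (NN k).Nonempty) → (∀ b, ∀ᶠ k in atTop, ∀ N ∈ NN k, b ≤ N) →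
      ∃ I : Set ℕ, PRK K n off I ∧ ∀ T : Finset (ℤ × ℤ), (∀ g ∈ T, 1 ≤ g.1) →
        Often NN {x : ℕ | ∀ g ∈ T, (PQ A B C s θ g x ↔ ∃ i ∈ I, g = f i)} := by
  classical
  obtain ⟨off, δ, hoff, h0, hδ, hpack⟩ := pack A B C hA hΔ hfix
  obtain ⟨K, hK⟩ := exists_nat_ge (2 / δ)
  have hK2 : 2 ≤ K * δ := by
    rw [div_le_iff₀ hδ] at hK
    exact hK
  refine ⟨K, off, hoff, h0, fun n hn f hf s θ hs hθ NN hN1 hN2 => ?_⟩
  obtain ⟨m, hm, hm2, hmt, hmS⟩ := hpack f hf s NN hN1 hN2
  obtain ⟨I, hI, hIN⟩ := hcombK K n hn δ hδ hK2 off m hm hm2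
    (fun i => {x : ℕ | 1 ≤ x ∧ PQ A B C s θ (f i) x})
    (by
      intro t
      have h1 := hmt t
      have h2 : {x : ℕ | ∃ i ∈ Ico (off t) (off (t + 1)), PQ A B C 3 (9 / 50) (f i) x} ⊆
          {x | ∃ i ∈ Ico (off t) (off (t + 1)), x ∈ {x : ℕ | 1 ≤ x ∧ PQ A B C s θ (f i) x}} ∪
            {0} := by
        rintro x ⟨i, hi, h⟩
        rcases Nat.eq_zero_or_pos x with h3 | h3
        · exact Or.inr h3
        · exact Or.inl ⟨i, hi, h3, PQ_mono A B C hs hθ (f i) x h3 h⟩
      have h3 := T3_mono hm h2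
      have h4 : m ({x | ∃ i ∈ Ico (off t) (off (t + 1)),
          x ∈ {x : ℕ | 1 ≤ x ∧ PQ A B C s θ (f i) x}} ∪ {0}) =
          m {x | ∃ i ∈ Ico (off t) (off (t + 1)), x ∈ {x : ℕ | 1 ≤ x ∧ PQ A B C s θ (f i) x}} +
          m {0} := by
        apply hm.add
        rw [Set.disjoint_left]
        rintro x ⟨i, _, h5, _⟩ h6
        rw [Set.mem_singleton_iff] at h6
        omega
      rw [h4, hm.fin _ (Set.finite_singleton 0), add_zero] at h3
      exact h1.trans h3)
  refine ⟨I, hI, fun T hT => ?_⟩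
  obtain ⟨N1, hNT⟩ : ∃ N : ℕ, ∀ i, f i ∈ T → i < N := by
    have h1 : (f ⁻¹' (T : Set (ℤ × ℤ))).Finite := T.finite_toSet.preimage hf.inj.injOn
    obtain ⟨N, hN⟩ := h1.bddAbove
    exact ⟨N + 1, fun i hi => Nat.lt_succ_of_le (hN hi)⟩
  set S1 : Set ℕ := {x | ∀ i < N1, (x ∈ {x : ℕ | 1 ≤ x ∧ PQ A B C s θ (f i) x} ↔ i ∈ I)} with hS1
  have hS2 : 0 < m (S1 ∩ {x | 1 ≤ x}) := by
    have h1 := hIN N1
    have h2 : S1 ⊆ (S1 ∩ {x | 1 ≤ x}) ∪ {0} := by
      intro x hx
      rcases Nat.eq_zero_or_pos x with h3 | h3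
      · exact Or.inr h3
      · exact Or.inl ⟨hx, h3⟩
    have h3 := T3_mono hm h2
    have h4 : m ((S1 ∩ {x | 1 ≤ x}) ∪ {0}) = m (S1 ∩ {x | 1 ≤ x}) + m {0} := by
      apply hm.add
      rw [Set.disjoint_left]
      rintro x ⟨_, h5⟩ h6
      rw [Set.mem_singleton_iff] at h6
      rw [Set.mem_ofPred_eq] at h5
      omega
    rw [h4, hm.fin _ (Set.finite_singleton 0), add_zero] at h3
    exact lt_of_lt_of_le h1 h3
  obtain ⟨ε, -, hO⟩ := hmS _ hS2 T hT
  refine hO.mono ?_
  rintro x ⟨⟨hx, hx1⟩, hg⟩ g hgT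
  rw [Set.mem_ofPred_eq] at hx1
  obtain ⟨-, k2⟩ := hg g hgT
  by_cases hgf : g ∈ Set.range f
  · obtain ⟨i, rfl⟩ := hgf
    have h1 := hx i (hNT i hgT)
    constructor
    · intro h
      exact ⟨i, h1.1 ⟨hx1, h⟩, rfl⟩
    · rintro ⟨i', hi', he⟩
      rw [← hf.inj he] at hi'
      exact (h1.2 hi').2
  · constructor
    · intro h
      have h1 := k2 hgf
      have h2 := h.1
      omega
    · rintro ⟨i, -, rfl⟩
      exact absurd ⟨i, rfl⟩ hgf

end Pool.Agent.J6H17.QP
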