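import Pool.Agent.J6H17.QP.Game
import Pool.Agent.J6H17.TA.Un

set_option autoImplicit false

/-! Linear forms attached to pairs of finite sets of integers, for almost prime values of quadratic
polynomials. -/

namespace Pool.Agent.J6H17.QP

open Finset Filter
open Pool.Agent.J6H17.TA (Bad good_of_not next_col next_row bef select)

/-- **Linear forms attached to pairs of finite sets.** -/
theorem mainQ (A B C : ℤ) (hA : A ≠ 0) (hΔ : ¬ IsSquare (B ^ 2 - 4 * A * C))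
    (hfix : ∀ p : ℕ, p.Prime → ∃ n : ℤ, ¬ (p : ℤ) ∣ Gq A B C n) :
    ∃ K : ℕ, ∀ (s₀ : ℕ) (θ : ℝ), 3 ≤ s₀ → θ ≤ 9 / 50 → ∀ NN : ℕ → Finset ℕ,
      (∀ k, (NN k).Nonempty) → (∀ b, ∀ᶠ k in atTop, ∀ N ∈ NN k, b ≤ N) → ∀ n : ℕ, 1 ≤ n →
    ∀ (Φ : ℕ → Finset ℕ → Fin n → Finset ℕ → ℤ × ℤ),
    (∀ v E a D, E.Nonempty → D.Nonempty → bef E D →
      1 ≤ (Φ v E a D).1 ∧ NoFix A B C (Φ v E a D)) →
    (∀ v E a t, E.Nonempty → {D : Finset ℕ | bef E D ∧ Φ v E a D = t}.Finite) →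
    (∀ v (p : ℕ), p.Prime → p < 2 * n → ∃ c : ℤ, ∀ E a D, E.Nonempty → D.Nonempty → bef E D →
      ¬ (p : ℤ) ∣ Gq A B C ((Φ v E a D).1 * c + (Φ v E a D).2)) →
    ∃ (S : ℕ → Finset (Fin n)) (W : ℕ → Finset ℕ), (∀ v, n ≤ K * (S v).card) ∧
      (∀ i, (W i).Nonempty) ∧ (∀ i, bef (W i) (W (i + 1))) ∧
      ∀ (v k : ℕ) (F : ℕ → Finset ℕ), (∀ l < k, (F l).Nonempty) → (∀ l < k, ∀ i ∈ F l, v ≤ i) →
        (∀ l, l + 1 < k → bef (F l) (F (l + 1))) →
        ∀ (Bc : Finset ℕ) (s : ℕ → ℕ) (a : ℕ → Fin n),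
          (∀ b ∈ Bc, b < k ∧ s b < b ∧ s b ∉ Bc ∧ a b ∈ S v) →
          ∀ T : Finset (ℤ × ℤ), (∀ t ∈ T, 1 ≤ t.1 ∧ ∀ E a D, E.Nonempty → D.Nonempty → bef E D →
            t = Φ v E a D → ∃ l < k, ¬ bef D ((F l).biUnion W) ∧ ¬ bef ((F l).biUnion W) D) →
          Often NN {x : ℕ | (∀ b ∈ Bc, PQ A B C s₀ θ
              (Φ v ((F (s b)).biUnion W) (a b) ((F b).biUnion W)) x) ∧
            ∀ t ∈ T, PQ A B C s₀ θ t x →
              ∃ b ∈ Bc, t = Φ v ((F (s b)).biUnion W) (a b) ((F b).biUnion W)} := by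
  classical
  obtain ⟨K, hK⟩ := notBadQ A B C hA hΔ hfix
  refine ⟨K, fun s₀ θ hs3 hθ NN hN1 hN2 n hn Φ hprim hfin hadm => ?_⟩
  obtain ⟨U, hU1, hU2⟩ := Pool.Agent.J6H17.TA.exists_idem
  set V : Finset ℕ → Finset ℕ → Prop := fun D C => C.Nonempty ∧ D.Nonempty ∧ bef C D with hV
  set P : ℕ → Finset ℕ → Finset ℕ → Fin n → ℤ × ℤ := fun v D C a => Φ v C a D with hP
  have hVev : ∀ C : Finset ℕ, C.Nonempty → ∀ᶠ D in (U : Filter (Finset ℕ)), V D C := by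
    intro C hC
    filter_upwards [hU1 (C.sup (· + 1))] with D hD
    refine ⟨hC, hD.1, fun x hx y hy => ?_⟩
    have h1 : x + 1 ≤ C.sup (· + 1) := Finset.le_sup (f := (· + 1)) hx
    have h2 := hD.2 y hy
    omega
  set Q : Finset ℕ → Finset ℕ → Prop := fun D D' => ¬ bef D' D ∧ ¬ bef D D' with hQ
  have hArr : ∀ v, ArrQ A B C n U V Q (P v) := by
    intro v
    refine ⟨?_, ?_, ?_⟩
    · filter_upwards [hU1 0] with C hC
      refine ⟨hVev C hC.1, fun a => ?_, fun a t => ?_⟩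
      · filter_upwards [hVev C hC.1] with D hD
        exact hprim v C a D hD.1 hD.2.1 hD.2.2
      · have h1 := hfin v C a t hC.1
        filter_upwards [hVev C hC.1, hU1 ((h1.toFinset).sup (fun D => D.sup (· + 1)))] with D hD hD2 h2
        obtain ⟨y, hy⟩ := hD.2.1
        have h3 := hD2.2 y hy
        have h4 : D ∈ h1.toFinset := h1.mem_toFinset.2 ⟨hD.2.2, h2⟩
        have h5 : D.sup (· + 1) ≤ (h1.toFinset).sup (fun D => D.sup (· + 1)) :=
          Finset.le_sup (f := fun D : Finset ℕ => D.sup (· + 1)) h4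
        have h6 : y + 1 ≤ D.sup (· + 1) := Finset.le_sup (f := (· + 1)) hy
        omega
    · intro D'
      filter_upwards [hU1 (D'.sup (· + 1))] with D hD
      have h1 : bef D' D := by
        intro x hx y hy
        have h1 : x + 1 ≤ D'.sup (· + 1) := Finset.le_sup (f := (· + 1)) hx
        have h2 := hD.2 y hy
        omega
      exact ⟨fun h2 => h2.2 h1, fun h2 => h2.1 h1⟩
    · intro p hp hpn
      obtain ⟨c, hc⟩ := hadm v p hp hpn
      refine ⟨c, ?_⟩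
      filter_upwards [hU1 0] with C hC a
      filter_upwards [hVev C hC.1] with D hD
      exact hc C a D hD.1 hD.2.1 hD.2.2
  choose S hS hNB using fun v => hK s₀ θ hs3 hθ NN hN1 hN2 (Finset ℕ) n hn U V Q (P v) (hArr v)
  obtain ⟨W, hW1, hW2, hW⟩ := select hU1 hU2 S (fun v R F => ∀ α, ¬ Bad U (GdQ A B C s₀ θ NN V Q (P v)) (S v) α R F)
    hNB (by
      intro v R F h
      refine (next_row h).and ?_
      rw [Filter.eventually_all_finset]
      intro r hr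
      rw [Filter.eventually_all_finset]
      intro a ha
      exact next_col h hr ha)
  refine ⟨S, W, hS, hW1, hW2, fun v k F hF1 hF2 hF3 Bc s a hB T hT => ?_⟩
  have h1 := good_of_not (hW v k F hF1 hF2 hF3 Bc s a (fun b hb _ => (hB b hb).2))
  have hBk : (range k).filter (· ∈ Bc) = Bc := by
    ext b
    simp only [mem_filter, mem_range]
    exact ⟨fun h => h.2, fun h => ⟨(hB b h).1, h⟩⟩
  rw [hBk] at h1
  refine (h1 T (fun t ht => ⟨(hT t ht).1, fun D C a' hDC hta => ?_⟩)).mono ?_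
  · obtain ⟨l, hl, hDl⟩ := (hT t ht).2 C a' D hDC.1 hDC.2.1 hDC.2.2 hta
    by_cases hlB : l ∈ Bc
    · exact Or.inl ⟨_, mem_image_of_mem _ hlB, hDl⟩
    · exact Or.inr ⟨_, mem_image_of_mem _ (mem_filter.2 ⟨mem_range.2 hl, hlB⟩), hDl⟩
  · rintro x ⟨hx1, hx2⟩
    refine ⟨fun b hb => hx1 _ (mem_image_of_mem _ hb), fun t ht htp => ?_⟩
    obtain ⟨q, hq, htq⟩ := hx2 t ht htp
    obtain ⟨b, hb, rfl⟩ := mem_image.1 hq
    exact ⟨b, hb, htq⟩

end Pool.Agent.J6H17.QP
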